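import Mathlib

/-! The generalised Wilson quotients `wq n p` and their differences modulo `p`. -/

set_option autoImplicit false

namespace Pool.Agent.Lib.MP_de5eaa_nt.Near

open Finset Nat

/-- The Wilson quotient of order `n`: the quotient of `(-1)^n (n-1)! (p-n)! - 1` by `p` (an integer for
prime `p ≥ n ≥ 1`). -/
def wq (n p : ℕ) : ℤ := ((-1) ^ n * ((n - 1)! : ℤ) * ((p - n)! : ℤ) - 1) / (p : ℤ)

theorem step_fac {n p : ℕ} (hn : 1 ≤ n) (hnp : n < p) :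
    ((p : ℤ) - n) * ((-1) ^ (n + 1) * ((n + 1 - 1)! : ℤ) * ((p - (n + 1))! : ℤ)) =
      -((n : ℤ) * ((-1) ^ n * ((n - 1)! : ℤ) * ((p - n)! : ℤ))) := by
  obtain ⟨k, rfl⟩ : ∃ k, n = k + 1 := ⟨n - 1, by omega⟩
  obtain ⟨l, rfl⟩ : ∃ l, p = k + 1 + (l + 1) := ⟨p - (k + 1) - 1, by omega⟩
  have e1 : k + 1 + 1 - 1 = k + 1 := by omega
  have e2 : k + 1 - 1 = k := by omega
  have e3 : k + 1 + (l + 1) - (k + 1 + 1) = l := by omega
  have e4 : k + 1 + (l + 1) - (k + 1) = l + 1 := by omega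
  rw [e1, e2, e3, e4, Nat.factorial_succ, Nat.factorial_succ]
  push_cast
  ring

theorem wq_dvd {p : ℕ} (hp : p.Prime) {n : ℕ} (hn : 1 ≤ n) (hnp : n ≤ p) :
    (p : ℤ) ∣ (-1) ^ n * ((n - 1)! : ℤ) * ((p - n)! : ℤ) - 1 := by
  induction n, hn using Nat.le_induction with
  | base =>
    have := Fact.mk hp
    have h := ZMod.wilsons_lemma p
    have h1 : (((-1) ^ 1 * ((1 - 1)! : ℤ) * ((p - 1)! : ℤ) - 1 : ℤ) : ZMod p) = 0 := by
      push_cast
      rw [h]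
      simp
    exact (ZMod.intCast_zmod_eq_zero_iff_dvd _ p).1 h1
  | succ n hn ih =>
    obtain ⟨c, hc⟩ := ih (by omega)
    have h1 := step_fac (p := p) hn (by omega)
    set A := (-1) ^ n * ((n - 1)! : ℤ) * ((p - n)! : ℤ)
    set B := (-1) ^ (n + 1) * ((n + 1 - 1)! : ℤ) * ((p - (n + 1))! : ℤ)
    have h2 : (p : ℤ) ∣ (n : ℤ) * (B - 1) := by
      refine ⟨B + n * c, ?_⟩
      linear_combination (-1 : ℤ) * h1 + (n : ℤ) * hc
    rcases (Nat.prime_iff_prime_int.1 hp).dvd_or_dvd h2 with h3 | h3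
    · have := Nat.le_of_dvd (by omega) (Int.natCast_dvd_natCast.1 h3)
      omega
    · exact h3

theorem wq_spec {p : ℕ} (hp : p.Prime) {n : ℕ} (hn : 1 ≤ n) (hnp : n ≤ p) :
    (p : ℤ) * wq n p = (-1) ^ n * ((n - 1)! : ℤ) * ((p - n)! : ℤ) - 1 := by
  unfold wq
  exact Int.mul_ediv_cancel' (wq_dvd hp hn hnp)

theorem wq_succ {p : ℕ} (hp : p.Prime) {n : ℕ} (hn : 1 ≤ n) (hnp : n < p) :
    (n : ℤ) * (wq (n + 1) p - wq n p) = 1 + p * wq (n + 1) p := by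
  have h1 := wq_spec hp hn hnp.le
  have h2 := wq_spec hp (show 1 ≤ n + 1 by omega) (show n + 1 ≤ p by omega)
  have h3 := step_fac hn hnp
  rw [show (-1 : ℤ) ^ (n + 1) * ((n + 1 - 1)! : ℤ) * ((p - (n + 1))! : ℤ) = p * wq (n + 1) p + 1 by
    rw [h2]; ring, show (-1 : ℤ) ^ n * ((n - 1)! : ℤ) * ((p - n)! : ℤ) = p * wq n p + 1 by
    rw [h1]; ring] at h3
  have hp0 : (p : ℤ) ≠ 0 := by exact_mod_cast hp.ne_zero
  apply mul_left_cancel₀ hp0
  linear_combination (-1 : ℤ) * h3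

theorem wq_zmod {p : ℕ} (hp : p.Prime) {n m : ℕ} (hn : 1 ≤ n) (hnm : n ≤ m) (hmp : m ≤ p) :
    ((wq m p - wq n p : ℤ) : ZMod p) = ∑ k ∈ Ico n m, ((k : ZMod p))⁻¹ := by
  have := Fact.mk hp
  induction m, hnm using Nat.le_induction with
  | base => simp
  | succ m hm ih =>
    rw [Finset.sum_Ico_succ_top hm, ← ih (by omega)]
    have h1 := congrArg (Int.cast : ℤ → ZMod p) (wq_succ hp (show 1 ≤ m by omega) (show m < p by omega))
    push_cast at h1 ⊢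
    rw [CharP.cast_eq_zero (ZMod p) p, zero_mul, add_zero] at h1
    have h2 : (m : ZMod p) ≠ 0 := by
      rw [Ne, ZMod.natCast_eq_zero_iff]
      intro h
      have := Nat.le_of_dvd (by omega) h
      omega
    have h3 : ((wq (m + 1) p : ZMod p) - wq m p) = (m : ZMod p)⁻¹ := by
      rw [eq_comm, inv_eq_iff_eq_inv]
      exact (eq_inv_of_mul_eq_one_left h1)
    rw [← h3]
    ring

/-- The harmonic sum over `n ≤ k < m`. -/
def hs (n m : ℕ) : ℚ := ∑ k ∈ Ico n m, 1 / (k : ℚ)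

theorem wq_rat {p : ℕ} (hp : p.Prime) {n m : ℕ} (hn : 1 ≤ n) (hnm : n ≤ m) (hmp : m ≤ p) (j : ℤ) :
    (p : ℤ) ∣ j * (wq m p - wq n p) * ((j : ℚ) * hs n m).den - ((j : ℚ) * hs n m).num := by
  have := Fact.mk hp
  set q : ℚ := (j : ℚ) * hs n m with hq
  have hk : ∀ k ∈ Ico n m, (k : ZMod p) ≠ 0 := by
    intro k hk
    rw [mem_Ico] at hk
    rw [Ne, ZMod.natCast_eq_zero_iff]
    intro h
    have := Nat.le_of_dvd (by omega) h
    omega
  set D : ℕ := ∏ k ∈ Ico n m, k with hD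
  set A : ℕ := ∑ k ∈ Ico n m, ∏ i ∈ (Ico n m).erase k, i with hA
  have h1 : (A : ℚ) = D * hs n m := by
    rw [hA, hD, hs]
    push_cast
    rw [Finset.mul_sum]
    refine Finset.sum_congr rfl fun k hk' => ?_
    rw [← Finset.mul_prod_erase _ _ hk']
    have : (k : ℚ) ≠ 0 := by
      rw [mem_Ico] at hk'
      exact_mod_cast (show k ≠ 0 by omega)
    field_simp
  have h2 : (A : ZMod p) = D * ∑ k ∈ Ico n m, ((k : ZMod p))⁻¹ := by
    rw [hA, hD]
    push_cast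
    rw [Finset.mul_sum]
    refine Finset.sum_congr rfl fun k hk' => ?_
    rw [← Finset.mul_prod_erase _ _ hk']
    rw [mul_comm (k : ZMod p), mul_assoc, mul_inv_cancel₀ (hk k hk'), mul_one]
  have h3 : q.num * (D : ℤ) = j * A * q.den := by
    have h4 : (q.num : ℚ) = q * q.den := (Rat.mul_den_eq_num q).symm
    have h5 : ((q.num * (D : ℤ) : ℤ) : ℚ) = ((j * A * q.den : ℤ) : ℚ) := by
      push_cast
      rw [h4, h1, hq]
      ring
    exact_mod_cast h5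
  have hD0 : (D : ZMod p) ≠ 0 := by
    rw [hD]
    push_cast
    exact Finset.prod_ne_zero_iff.2 hk
  rw [← ZMod.intCast_zmod_eq_zero_iff_dvd]
  have h6 := congrArg (Int.cast : ℤ → ZMod p) h3
  have h7 := wq_zmod hp hn hnm hmp
  push_cast at h6 h7 ⊢
  rw [h2] at h6
  rw [h7]
  apply mul_left_cancel₀ hD0
  rw [mul_zero]
  linear_combination (-1 : ZMod p) * h6

end Pool.Agent.Lib.MP_de5eaa_nt.Near
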