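import Pool.Agent.Lib.MP_de5eaa_nt.Near.N1

/-! Two-adic valuation of harmonic sums over intervals. -/

set_option autoImplicit false

namespace Pool.Agent.Lib.MP_de5eaa_nt.Near

open Finset Nat

/-- An interval of length at least `2^u` contains a unique element of largest two-adic valuation, and this
valuation `s` is at least `u`. -/
theorem exists_max {n m u : ℕ} (hn : 1 ≤ n) (h : n + 2 ^ u ≤ m) :
    ∃ s k₀, u ≤ s ∧ k₀ ∈ Ico n m ∧ padicValNat 2 k₀ = s ∧
      ∀ k ∈ Ico n m, k ≠ k₀ → padicValNat 2 k < s := by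
  have h0 : 0 < 2 ^ u := pow_pos (by norm_num) u
  have hne : (Ico n m).Nonempty := ⟨n, by rw [mem_Ico]; omega⟩
  obtain ⟨k₀, hk₀, hmax⟩ := Finset.exists_max_image (Ico n m) (padicValNat 2) hne
  refine ⟨padicValNat 2 k₀, k₀, ?_, hk₀, rfl, ?_⟩
  · -- a multiple of `2^u`
    set c := 2 ^ u * ((n + 2 ^ u - 1) / 2 ^ u) with hc
    have h1 : n ≤ c := by
      have := Nat.div_add_mod (n + 2 ^ u - 1) (2 ^ u)
      have := Nat.mod_lt (n + 2 ^ u - 1) h0
      omega
    have h2 : c < m := by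
      have := Nat.div_add_mod (n + 2 ^ u - 1) (2 ^ u)
      omega
    have h3 := hmax c (by rw [mem_Ico]; omega)
    have h4 : 2 ^ u ∣ c := Dvd.intro _ rfl
    exact ((padicValNat_dvd_iff_le (by omega)).1 h4).trans h3
  · intro k hk hkk
    refine lt_of_le_of_ne (hmax k hk) fun heq => ?_
    rw [mem_Ico] at hk hk₀
    set s := padicValNat 2 k₀
    have key : ∀ a b : ℕ, n ≤ a → a < b → b < m → padicValNat 2 a = s → padicValNat 2 b = s → False := by
      intro a b ha hab hb hva hvb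
      have da : 2 ^ s ∣ a := by rw [← hva]; exact pow_padicValNat_dvd
      have db : 2 ^ s ∣ b := by rw [← hvb]; exact pow_padicValNat_dvd
      have na : ¬ 2 ^ (s + 1) ∣ a := by
        rw [← hva]
        exact pow_succ_padicValNat_not_dvd (by omega)
      have nb : ¬ 2 ^ (s + 1) ∣ b := by
        rw [← hvb]
        exact pow_succ_padicValNat_not_dvd (by omega)
      obtain ⟨a', rfl⟩ := da
      obtain ⟨b', rfl⟩ := db
      have hs : 0 < 2 ^ s := pow_pos (by norm_num) s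
      have oa : ¬ 2 ∣ a' := fun hd => na (by rw [pow_succ]; exact Nat.mul_dvd_mul_left _ hd)
      have ob : ¬ 2 ∣ b' := fun hd => nb (by rw [pow_succ]; exact Nat.mul_dvd_mul_left _ hd)
      have hab' : a' < b' := Nat.lt_of_mul_lt_mul_left hab
      have h5 : a' + 1 < b' := by omega
      have h6 : 2 ^ s * (a' + 1) < 2 ^ s * b' := Nat.mul_lt_mul_of_pos_left h5 hs
      have h7 : 2 ^ s * a' < 2 ^ s * (a' + 1) := Nat.mul_lt_mul_of_pos_left (by omega) hs
      have h8 := hmax (2 ^ s * (a' + 1)) (by rw [mem_Ico]; omega)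
      have h9 : 2 ^ (s + 1) ∣ 2 ^ s * (a' + 1) := by
        rw [pow_succ]
        exact Nat.mul_dvd_mul_left _ (by omega)
      have h10 := (padicValNat_dvd_iff_le (p := 2) (show 2 ^ s * (a' + 1) ≠ 0 by omega)).1 h9
      omega
    rcases lt_or_gt_of_ne hkk with hlt | hlt
    · exact key k k₀ hk.1 hlt hk₀.2 heq rfl
    · exact key k₀ k hk₀.1 hlt hk.2 rfl heq

theorem norm_inv_nat {k : ℕ} (hk : k ≠ 0) : padicNorm 2 (1 / (k : ℚ)) = 2 ^ padicValNat 2 k := by
  have hk' : (k : ℚ) ≠ 0 := by exact_mod_cast hk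
  rw [padicNorm.eq_zpow_of_nonzero (one_div_ne_zero hk'), one_div, padicValRat.inv,
    padicValRat.of_nat, neg_neg, zpow_natCast]
  norm_num

theorem norm_hs {n m u : ℕ} (hn : 1 ≤ n) (h : n + 2 ^ u ≤ m) : (2 : ℚ) ^ u ≤ padicNorm 2 (hs n m) := by
  obtain ⟨s, k₀, hus, hk₀, hv, hlt⟩ := exists_max hn h
  have hpos : ∀ k ∈ Ico n m, k ≠ 0 := fun k hk => by
    rw [mem_Ico] at hk
    omega
  have e : hs n m = 1 / (k₀ : ℚ) + ∑ k ∈ (Ico n m).erase k₀, 1 / (k : ℚ) := by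
    unfold hs
    exact (Finset.add_sum_erase (Ico n m) (fun k => 1 / (k : ℚ)) hk₀).symm
  have h1 : padicNorm 2 (1 / (k₀ : ℚ)) = 2 ^ s := by
    rw [norm_inv_nat (hpos _ hk₀), hv]
  have h2 : padicNorm 2 (∑ k ∈ (Ico n m).erase k₀, 1 / (k : ℚ)) < 2 ^ s := by
    apply padicNorm.sum_lt'
    · intro k hk
      rw [mem_erase] at hk
      rw [norm_inv_nat (hpos _ hk.2)]
      exact pow_lt_pow_right₀ (by norm_num) (hlt k hk.2 hk.1)
    · positivity
  rw [e, padicNorm.add_eq_max_of_ne (by rw [h1]; exact h2.ne'), h1]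
  exact (pow_le_pow_right₀ (by norm_num) hus).trans (le_max_left _ _)

theorem four_dvd_den {n m t : ℕ} {j : ℤ} (hn : 1 ≤ n) (h : n + 2 ^ (t + 2) ≤ m)
    (hj : ¬ (2 : ℤ) ^ (t + 1) ∣ j) : 4 ∣ ((j : ℚ) * hs n m).den := by
  have hj0 : j ≠ 0 := by
    rintro rfl
    exact hj (dvd_zero _)
  have h1 := norm_hs hn h
  have h2 : (2 : ℚ) ^ (-(t : ℤ)) ≤ padicNorm 2 (j : ℚ) := by
    have h3 : ¬ padicNorm 2 (j : ℚ) ≤ (2 : ℚ) ^ (-((t + 1 : ℕ) : ℤ)) := by
      intro hcon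
      have h4 := (padicNorm.dvd_iff_norm_le (p := 2) (n := t + 1) (z := j)).2 (by exact_mod_cast hcon)
      exact hj (by exact_mod_cast h4)
    rw [not_le] at h3
    have hjq : (j : ℚ) ≠ 0 := by exact_mod_cast hj0
    rw [padicNorm.eq_zpow_of_nonzero hjq] at h3 ⊢
    have h5 : (1 : ℚ) < ((2 : ℕ) : ℚ) := by norm_num
    have h6 : -((t + 1 : ℕ) : ℤ) < -padicValRat 2 (j : ℚ) := by
      have h3' : ((2 : ℕ) : ℚ) ^ (-((t + 1 : ℕ) : ℤ)) < ((2 : ℕ) : ℚ) ^ (-padicValRat 2 (j : ℚ)) := by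
        exact_mod_cast h3
      exact (zpow_lt_zpow_iff_right₀ h5).1 h3'
    have h7 : ((2 : ℕ) : ℚ) ^ (-(t : ℤ)) ≤ ((2 : ℕ) : ℚ) ^ (-padicValRat 2 (j : ℚ)) := by
      apply zpow_le_zpow_right₀ h5.le
      push_cast at h6
      omega
    exact_mod_cast h7
  set q : ℚ := (j : ℚ) * hs n m with hq
  have h3 : (4 : ℚ) ≤ padicNorm 2 q := by
    rw [hq, padicNorm.mul]
    calc (4 : ℚ) = (2 : ℚ) ^ (-(t : ℤ)) * 2 ^ (t + 2) := by
          rw [pow_add, ← zpow_natCast (2 : ℚ) t, ← mul_assoc, ← zpow_add₀ (by norm_num)]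
          norm_num
      _ ≤ _ := mul_le_mul h2 h1 (by positivity) (padicNorm.nonneg _)
  have hq0 : q ≠ 0 := by
    intro h0
    rw [h0, padicNorm.zero] at h3
    norm_num at h3
  by_contra hcon
  -- the valuation of the denominator is at most one
  have h4 : padicValNat 2 q.den ≤ 1 := by
    by_contra h5
    apply hcon
    have := (padicValNat_dvd_iff_le (p := 2) (show q.den ≠ 0 from q.den_nz)).2 (show 2 ≤ padicValNat 2 q.den by omega)
    simpa using this
  have h5 : padicNorm 2 q ≤ 2 := by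
    rw [padicNorm.eq_zpow_of_nonzero hq0, padicValRat_def]
    have h6 : ((2 : ℕ) : ℚ) ^ (-((padicValInt 2 q.num : ℤ) - (padicValNat 2 q.den : ℤ))) ≤
        ((2 : ℕ) : ℚ) ^ (1 : ℤ) := by
      apply zpow_le_zpow_right₀ (by norm_num)
      omega
    exact h6.trans (by norm_num)
  linarith

end Pool.Agent.Lib.MP_de5eaa_nt.Near
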