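import Pool.Agent.Lib.MP_d9bc60_nt.TH.W8bPnt

/-! Averages over primes of additive characters of rational numbers. -/

set_option autoImplicit false

namespace Pool.Agent.Lib.MP_de5eaa_nt.Near

open Finset Filter Topology
open Pool.Agent.Lib.MP_d9bc60_nt.TH (lam tz)

/-- `e(t) = exp(2πit)` -/
noncomputable def e1 (t : ℝ) : ℂ := Complex.exp (2 * Real.pi * t * Complex.I)

theorem e1_add (s t : ℝ) : e1 (s + t) = e1 s * e1 t := by
  unfold e1
  rw [← Complex.exp_add]
  congr 1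
  push_cast
  ring

theorem e1_zero : e1 0 = 1 := by simp [e1]

theorem norm_e1 (t : ℝ) : ‖e1 t‖ = 1 := by
  unfold e1
  rw [show (2 * Real.pi * t * Complex.I : ℂ) = ((2 * Real.pi * t : ℝ) : ℂ) * Complex.I by push_cast; ring]
  exact Complex.norm_exp_ofReal_mul_I _

theorem e1_int (n : ℤ) : e1 n = 1 := by
  unfold e1
  rw [show (2 * Real.pi * ((n : ℝ) : ℂ) * Complex.I : ℂ) = n * (2 * Real.pi * Complex.I) by push_cast; ring]
  exact Complex.exp_int_mul_two_pi_mul_I n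

theorem e1_conj (t : ℝ) : (starRingEnd ℂ) (e1 t) = e1 (-t) := by
  unfold e1
  rw [← Complex.exp_conj]
  congr 1
  rw [show (2 * Real.pi * t * Complex.I : ℂ) = ((2 * Real.pi * t : ℝ) : ℂ) * Complex.I by push_cast; ring,
    map_mul, Complex.conj_ofReal, Complex.conj_I]
  push_cast
  ring

theorem norm_e1_sub_one (t : ℝ) : ‖e1 t - 1‖ ≤ 2 * Real.pi * |t| := by
  unfold e1
  rw [show (2 * Real.pi * t * Complex.I : ℂ) = Complex.I * ((2 * Real.pi * t : ℝ) : ℂ) by push_cast; ring]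
  refine (Real.norm_exp_I_mul_ofReal_sub_one_le).trans ?_
  rw [Real.norm_eq_abs, abs_mul, abs_mul, abs_two, abs_of_pos Real.pi_pos]

theorem lam_nonneg (n : ℕ) : 0 ≤ lam n := by
  unfold Pool.Agent.Lib.MP_d9bc60_nt.TH.lam
  split_ifs with h
  · exact Real.log_nonneg (by exact_mod_cast h.one_lt.le)
  · exact le_rfl

theorem lam_zero : lam 0 = 0 := by
  unfold Pool.Agent.Lib.MP_d9bc60_nt.TH.lam
  rw [if_neg Nat.not_prime_zero]

/-- Chebyshev's function -/
noncomputable def th (x : ℕ) : ℝ := ∑ n ∈ range (x + 1), lam n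

theorem sum_range_eq {M : Type*} [AddCommMonoid M] (f : ℕ → M) (h0 : f 0 = 0) (x : ℕ) :
    ∑ n ∈ range (x + 1), f n = ∑ n ∈ Ioc 0 x, f n := by
  rw [Finset.sum_range_succ', h0, add_zero]
  have : Ioc 0 x = Ico 1 (x + 1) := by
    ext a
    simp only [mem_Ioc, mem_Ico]
    omega
  rw [this, Finset.sum_Ico_eq_sum_range]
  refine Finset.sum_congr (by simp) fun n _ => by rw [add_comm]

theorem th_eq (x : ℕ) : th x = tz 1 0 x 0 := by
  unfold th Pool.Agent.Lib.MP_d9bc60_nt.TH.tz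
  rw [sum_range_eq _ lam_zero]
  refine Finset.sum_congr ?_ fun _ _ => rfl
  ext n
  simp only [mem_filter]
  exact ⟨fun h => ⟨h, Subsingleton.elim _ _⟩, fun h => h.1⟩

theorem th_tendsto : Tendsto (fun x : ℕ => th x / (x : ℝ)) atTop (𝓝 1) := by
  have h := Pool.Agent.Lib.MP_d9bc60_nt.TH.tz_tendsto (q := 1) (a := 0) (isUnit_of_subsingleton _)
  simpa [th_eq] using h

theorem th_atTop : Tendsto (fun x : ℕ => ∑ n ∈ range x, lam n) atTop atTop := by
  rw [← tendsto_add_atTop_iff_nat 1]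
  have h1 : Tendsto (fun x : ℕ => (th x / (x : ℝ)) * (x : ℝ)) atTop atTop :=
    th_tendsto.pos_mul_atTop one_pos tendsto_natCast_atTop_atTop
  refine h1.congr' ?_
  filter_upwards [eventually_gt_atTop 0] with x hx
  have : (x : ℝ) ≠ 0 := by exact_mod_cast hx.ne'
  rw [div_mul_cancel₀ _ this]
  rfl

theorem cesaro {g : ℕ → ℂ} (hg : Tendsto g atTop (𝓝 0)) :
    Tendsto (fun x : ℕ => (∑ n ∈ range (x + 1), (lam n : ℂ) * g n) / (x : ℂ)) atTop (𝓝 0) := by
  have h1 : (fun n : ℕ => (lam n : ℂ) * g n) =o[atTop] fun n : ℕ => lam n := by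
    have h2 : (fun n : ℕ => (lam n : ℂ) * g n) =o[atTop] fun n : ℕ => (lam n : ℂ) * (1 : ℂ) :=
      (Asymptotics.isBigO_refl _ _).mul_isLittleO
        ((Asymptotics.isLittleO_const_iff one_ne_zero).2 hg)
    refine h2.trans_isBigO ?_
    apply Asymptotics.IsBigO.of_bound 1
    filter_upwards with n
    rw [mul_one, Complex.norm_real, one_mul]
  have h2 := h1.sum_range (fun n => lam_nonneg n) th_atTop
  have h3 : (fun x : ℕ => ∑ n ∈ range (x + 1), (lam n : ℂ) * g n) =o[atTop] fun x : ℕ => th x :=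
    h2.comp_tendsto (tendsto_add_atTop_nat 1)
  have h4 : (fun x : ℕ => th x) =O[atTop] fun x : ℕ => (x : ℝ) := by
    have h5 : Tendsto (fun x : ℕ => th x / (x : ℝ)) atTop (𝓝 1) := th_tendsto
    refine Asymptotics.isBigO_of_div_tendsto_nhds ?_ 1 h5
    filter_upwards [eventually_gt_atTop 0] with x hx h0
    exact absurd h0 (by exact_mod_cast hx.ne')
  have h6 := h3.trans_isBigO h4
  have h7 : (fun x : ℕ => ∑ n ∈ range (x + 1), (lam n : ℂ) * g n) =o[atTop] fun x : ℕ => (x : ℂ) := by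
    refine h6.trans_isBigO (Asymptotics.IsBigO.of_bound 1 ?_)
    filter_upwards with x
    simp
  exact h7.tendsto_div_nhds_zero

theorem class_tendsto {b : ℕ} [NeZero b] {F : ZMod b → ℂ} (hF : ∀ r, ¬ IsUnit r → F r = 0)
    (hS : ∑ r, F r = 0) :
    Tendsto (fun x : ℕ => (∑ n ∈ range (x + 1), (lam n : ℂ) * F n) / (x : ℂ)) atTop (𝓝 0) := by
  have e : ∀ x : ℕ, ∑ n ∈ range (x + 1), (lam n : ℂ) * F n = ∑ r, F r * (tz b 0 x r : ℂ) := by
    intro x
    rw [sum_range_eq _ (by rw [lam_zero]; simp), ← Finset.sum_fiberwise (Ioc 0 x) (fun n : ℕ => (n : ZMod b))]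
    refine Finset.sum_congr rfl fun r _ => ?_
    unfold Pool.Agent.Lib.MP_d9bc60_nt.TH.tz
    push_cast
    rw [Finset.mul_sum]
    refine Finset.sum_congr rfl fun n hn => ?_
    rw [(mem_filter.1 hn).2, mul_comm]
  have h1 : ∀ r ∈ (univ : Finset (ZMod b)), Tendsto (fun x : ℕ => F r * ((tz b 0 x r / (x : ℝ) : ℝ) : ℂ)) atTop
      (𝓝 (F r * (((b.totient : ℝ)⁻¹ : ℝ) : ℂ))) := by
    intro r _
    by_cases hr : IsUnit r
    · exact ((Complex.continuous_ofReal.tendsto _).comp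
        (Pool.Agent.Lib.MP_d9bc60_nt.TH.tz_tendsto hr)).const_mul _
    · rw [hF r hr]
      simp
  have h2 := tendsto_finsetSum _ h1
  rw [← Finset.sum_mul, hS, zero_mul] at h2
  refine h2.congr fun x => ?_
  rw [e, Finset.sum_div]
  refine Finset.sum_congr rfl fun r _ => ?_
  push_cast
  rw [mul_div_assoc]

open Classical in
/-- the class function -/
noncomputable def Fc (b : ℕ) [NeZero b] (a : ℤ) (r : ZMod b) : ℂ :=
  if IsUnit r then ZMod.stdAddChar (-(a : ZMod b) * r⁻¹) else 0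

theorem Fc_sum {b : ℕ} [NeZero b] {a : ℤ} (h4 : 4 ∣ b) (ha : ¬ (2 : ℤ) ∣ a) : ∑ r, Fc b a r = 0 := by
  classical
  obtain ⟨c, rfl⟩ := h4
  set h : ZMod (4 * c) := ((2 * c : ℕ) : ZMod (4 * c)) with hh
  have hh2 : h + h = 0 := by
    rw [hh, ← Nat.cast_add, ZMod.natCast_eq_zero_iff]
    exact ⟨1, by ring⟩
  have hnil : IsNilpotent h := by
    refine ⟨2, ?_⟩
    rw [hh, sq, ← Nat.cast_mul, ZMod.natCast_eq_zero_iff]
    exact ⟨c, by ring⟩
  have hunit : ∀ r : ZMod (4 * c), IsUnit r → IsUnit (r + h) := by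
    intro r hr
    exact hnil.isUnit_add_left_of_commute hr (Commute.all _ _)
  have hchar : ∀ r : ZMod (4 * c), (ZMod.stdAddChar (-(a : ZMod (4 * c)) * (r + h)) : ℂ) =
      -ZMod.stdAddChar (-(a : ZMod (4 * c)) * r) := by
    intro r
    rw [mul_add, AddChar.map_add_eq_mul]
    have e0 : -(a : ZMod (4 * c)) * h = ((2 * c : ℤ) : ZMod (4 * c)) := by
      obtain ⟨k, hk⟩ : ∃ k : ℤ, a = 2 * k + 1 := ⟨a / 2, by omega⟩
      rw [hh]
      have : (-(a : ZMod (4 * c)) * ((2 * c : ℕ) : ZMod (4 * c))) - ((2 * c : ℤ) : ZMod (4 * c)) =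
          (((-(a : ℤ)) * (2 * c) - 2 * c : ℤ) : ZMod (4 * c)) := by push_cast; ring
      rw [← sub_eq_zero, this, ZMod.intCast_zmod_eq_zero_iff_dvd]
      refine ⟨-(k + 1), ?_⟩
      rw [hk]
      push_cast
      ring
    rw [e0]
    have hc0 : (c : ℂ) ≠ 0 := by
      have h5 := NeZero.ne (4 * c)
      have : c ≠ 0 := fun h0 => h5 (by rw [h0, mul_zero])
      exact_mod_cast this
    have e2 : (ZMod.stdAddChar ((2 * c : ℤ) : ZMod (4 * c)) : ℂ) = -1 := by
      rw [ZMod.stdAddChar_coe]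
      rw [show (2 * Real.pi * Complex.I * ((2 * c : ℤ) : ℂ) / ((4 * c : ℕ) : ℂ) : ℂ) = Real.pi * Complex.I by
        push_cast
        field_simp
        ring]
      exact Complex.exp_pi_mul_I
    rw [e2]
    ring
  -- pass to the sum over the units
  have e1 : ∑ r, Fc (4 * c) a r = ∑ u : (ZMod (4 * c))ˣ, (ZMod.stdAddChar (-(a : ZMod (4 * c)) * ((u⁻¹ : (ZMod (4 * c))ˣ) : ZMod (4 * c))) : ℂ) := by
    unfold Fc
    rw [← Finset.sum_filter]
    symm
    refine Finset.sum_bij (fun u _ => (u : ZMod (4 * c))) (fun u _ => ?_) (fun u _ v _ h => Units.ext h)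
      (fun r hr => ?_) (fun u _ => ?_)
    · rw [mem_filter]
      exact ⟨mem_univ _, u.isUnit⟩
    · obtain ⟨u, hu⟩ := (mem_filter.1 hr).2
      exact ⟨u, mem_univ _, hu⟩
    · rw [ZMod.inv_coe_unit]
  rw [e1]
  have e2 : ∑ u : (ZMod (4 * c))ˣ, (ZMod.stdAddChar (-(a : ZMod (4 * c)) * ((u⁻¹ : (ZMod (4 * c))ˣ) : ZMod (4 * c))) : ℂ) =
      ∑ r ∈ (univ : Finset (ZMod (4 * c))).filter IsUnit, (ZMod.stdAddChar (-(a : ZMod (4 * c)) * r) : ℂ) := by
    refine Finset.sum_bij (fun u _ => ((u⁻¹ : (ZMod (4 * c))ˣ) : ZMod (4 * c))) (fun u _ => ?_)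
      (fun u _ v _ h => inv_injective (Units.ext h)) (fun r hr => ?_) (fun u _ => rfl)
    · rw [mem_filter]
      exact ⟨mem_univ _, (u⁻¹).isUnit⟩
    · obtain ⟨u, hu⟩ := (mem_filter.1 hr).2
      exact ⟨u⁻¹, mem_univ _, by rw [inv_inv, hu]⟩
  rw [e2]
  refine Finset.sum_involution (fun r _ => r + h) (fun r _ => ?_) (fun r hr hne => ?_) (fun r hr => ?_)
    (fun r _ => ?_)
  · rw [hchar]
    ring
  · intro heq
    have h5 := hchar r
    rw [heq] at h5
    apply hne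
    have h6 : (2 : ℂ) * ZMod.stdAddChar (-(a : ZMod (4 * c)) * r) = 0 := by linear_combination h5
    exact (mul_eq_zero.1 h6).resolve_left two_ne_zero
  · rw [mem_filter] at hr ⊢
    exact ⟨mem_univ _, hunit r hr.2⟩
  · rw [add_assoc, hh2, add_zero]

/-- If `c p ≡ a / b mod p` for all large primes `p`, with `4 ∣ b`, then the average of `e(c p / p)` over the primes
tends to zero. -/
theorem avg_char {b : ℕ} [NeZero b] {a : ℤ} (h4 : 4 ∣ b) (ha : ¬ (2 : ℤ) ∣ a) {c : ℕ → ℤ} {P₀ : ℕ}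
    (hc : ∀ p, P₀ ≤ p → p.Prime → (p : ℤ) ∣ c p * b - a) :
    Tendsto (fun x : ℕ => (∑ n ∈ range (x + 1), (lam n : ℂ) * e1 ((c n : ℝ) / (n : ℝ))) / (x : ℂ)) atTop
      (𝓝 0) := by
  classical
  set G : ℕ → ℂ := fun n => if n.Prime ∧ P₀ ≤ n ∧ b < n then e1 ((a : ℝ) / ((b : ℝ) * n)) - 1 else 0 with hG
  set G2 : ℕ → ℂ := fun n => if n.Prime ∧ ¬ (P₀ ≤ n ∧ b < n) then e1 ((c n : ℝ) / (n : ℝ)) - Fc b a n else 0 with hG2
  have hb0 : (b : ℝ) ≠ 0 := by exact_mod_cast NeZero.ne b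
  have key : ∀ n : ℕ, (lam n : ℂ) * e1 ((c n : ℝ) / (n : ℝ)) =
      (lam n : ℂ) * Fc b a n + (lam n : ℂ) * (Fc b a n * G n + G2 n) := by
    intro n
    by_cases hn : n.Prime
    · by_cases hn2 : P₀ ≤ n ∧ b < n
      · have e2 : G n = e1 ((a : ℝ) / ((b : ℝ) * n)) - 1 := if_pos ⟨hn, hn2⟩
        have e3 : G2 n = 0 := if_neg fun h => h.2 hn2
        rw [e2, e3]
        obtain ⟨v, hv⟩ := hc n hn2.1 hn
        have hn0 : (n : ℝ) ≠ 0 := by exact_mod_cast hn.ne_zero
        have h5 : (c n : ℝ) / n = (v : ℝ) / b + (a : ℝ) / ((b : ℝ) * n) := by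
          have h6 : (c n : ℝ) * b - a = n * v := by exact_mod_cast hv
          field_simp
          linear_combination h6
        have hun : IsUnit (n : ZMod b) := by
          rw [ZMod.isUnit_iff_coprime]
          exact (Nat.Prime.coprime_iff_not_dvd hn).2 fun hd => by
            have := Nat.le_of_dvd (Nat.pos_of_ne_zero (NeZero.ne b)) hd
            omega
        have h7 : Fc b a n = e1 ((v : ℝ) / b) := by
          unfold Fc
          rw [if_pos hun]
          have h8 : -(a : ZMod b) * (n : ZMod b)⁻¹ = ((v : ℤ) : ZMod b) := by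
            have h9 := congrArg (Int.cast : ℤ → ZMod b) hv
            push_cast at h9
            rw [CharP.cast_eq_zero (ZMod b) b, mul_zero, zero_sub] at h9
            rw [h9, mul_comm (n : ZMod b), mul_assoc, ZMod.mul_inv_of_unit _ hun, mul_one]
          rw [h8, ZMod.stdAddChar_coe]
          unfold e1
          congr 1
          push_cast
          ring
        rw [h5, e1_add, h7]
        ring
      · have e2 : G n = 0 := if_neg fun h => hn2 h.2
        have e3 : G2 n = e1 ((c n : ℝ) / (n : ℝ)) - Fc b a n := if_pos ⟨hn, hn2⟩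
        rw [e2, e3]
        ring
    · have : lam n = 0 := by
        unfold Pool.Agent.Lib.MP_d9bc60_nt.TH.lam
        rw [if_neg hn]
      rw [this]
      simp
  have hG0 : Tendsto (fun n : ℕ => Fc b a n * G n + G2 n) atTop (𝓝 0) := by
    have hFb : ∀ n : ℕ, ‖Fc b a n‖ ≤ 1 := by
      intro n
      unfold Fc
      split_ifs
      · rw [ZMod.stdAddChar_apply]
        exact (Circle.norm_coe _).le
      · simp
    have t1 : Tendsto (fun n : ℕ => 2 * Real.pi * |(a : ℝ)| / b * (1 / (n : ℝ))) atTop (𝓝 0) := by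
      have := (tendsto_one_div_atTop_nhds_zero_nat (𝕜 := ℝ)).const_mul (2 * Real.pi * |(a : ℝ)| / b)
      simpa using this
    refine squeeze_zero_norm' ?_ t1
    filter_upwards [eventually_ge_atTop (max P₀ (b + 1))] with n hn
    have hn1 : P₀ ≤ n := (le_max_left _ _).trans hn
    have hn2 : b < n := (le_max_right _ _).trans hn
    have e3 : G2 n = 0 := if_neg fun h => h.2 ⟨hn1, hn2⟩
    rw [e3, add_zero, norm_mul]
    have hbp : (0 : ℝ) < b := lt_of_le_of_ne (Nat.cast_nonneg b) hb0.symm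
    have hnp : (0 : ℝ) < n := by exact_mod_cast (show 0 < n by omega)
    have h5 : ‖G n‖ ≤ 2 * Real.pi * |(a : ℝ)| / b * (1 / (n : ℝ)) := by
      by_cases h : n.Prime ∧ P₀ ≤ n ∧ b < n
      · have e2 : G n = e1 ((a : ℝ) / ((b : ℝ) * n)) - 1 := if_pos h
        rw [e2]
        refine (norm_e1_sub_one _).trans (le_of_eq ?_)
        rw [abs_div, abs_mul, abs_of_pos hbp, abs_of_pos hnp]
        field_simp
      · have e2 : G n = 0 := if_neg h
        rw [e2, norm_zero]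
        positivity
    calc ‖Fc b a n‖ * ‖G n‖ ≤ 1 * (2 * Real.pi * |(a : ℝ)| / b * (1 / (n : ℝ))) :=
          mul_le_mul (hFb n) h5 (norm_nonneg _) zero_le_one
      _ = _ := one_mul _
  have h1 := class_tendsto (b := b) (F := Fc b a) (fun r hr => by unfold Fc; rw [if_neg hr]) (Fc_sum h4 ha)
  have h2 := cesaro hG0
  have h3 := h1.add h2
  rw [add_zero] at h3
  refine h3.congr fun x => ?_
  rw [← add_div, ← Finset.sum_add_distrib]
  congr 1
  exact Finset.sum_congr rfl fun n _ => (key n).symm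

end Pool.Agent.Lib.MP_de5eaa_nt.Near
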