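import Pool.Agent.Lib.MP_de5eaa_nt.Near.N2
import Pool.Agent.Lib.MP_de5eaa_nt.Near.N3

/-! The second moment over the primes of the exponential sums of the Wilson quotients of the orders in a window. -/

set_option autoImplicit false

namespace Pool.Agent.Lib.MP_de5eaa_nt.Near

open Finset Filter Topology
open Pool.Agent.Lib.MP_d9bc60_nt.TH (lam tz)

/-- exponential sum over the orders `M < n ≤ M + L` -/
noncomputable def SS (j : ℤ) (M L p : ℕ) : ℂ := ∑ n ∈ Ioc M (M + L), e1 ((j : ℝ) * wq n p / p)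

/-- average of the pair `n, m` -/
noncomputable def TT (j : ℤ) (n m x : ℕ) : ℂ :=
  (∑ p ∈ range (x + 1), (lam p : ℂ) * e1 (((j * (wq n p - wq m p) : ℤ) : ℝ) / (p : ℝ))) / (x : ℂ)

theorem num_odd {q : ℚ} (h : 4 ∣ q.den) : ¬ (2 : ℤ) ∣ q.num := by
  intro h2
  have h3 : (2 : ℕ) ∣ q.num.natAbs := by
    have := Int.natAbs_dvd_natAbs.2 h2
    simpa using this
  have h4 : (2 : ℕ) ∣ q.den := (show (2 : ℕ) ∣ 4 by norm_num).trans h
  have h5 := Nat.dvd_gcd h3 h4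
  rw [q.reduced] at h5
  omega

theorem TT_far {j : ℤ} {t : ℕ} (hj : ¬ (2 : ℤ) ^ (t + 1) ∣ j) {n m : ℕ} (hn : 1 ≤ n) (hm : 1 ≤ m)
    (h : n + 2 ^ (t + 2) ≤ m ∨ m + 2 ^ (t + 2) ≤ n) : Tendsto (TT j n m) atTop (𝓝 0) := by
  rcases h with h | h
  · have hj' : ¬ (2 : ℤ) ^ (t + 1) ∣ -j := by rwa [dvd_neg]
    have h4 := four_dvd_den hn h hj'
    have : NeZero ((((-j : ℤ) : ℚ)) * hs n m).den := ⟨Rat.den_nz _⟩
    have h5 := avg_char h4 (num_odd h4) (c := fun p => j * (wq n p - wq m p)) (P₀ := m)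
      (fun p hp hpp => by
        have h6 := wq_rat hpp hn ((Nat.le_add_right _ _).trans h) hp (-j)
        have e : j * (wq n p - wq m p) = -j * (wq m p - wq n p) := by ring
        show (p : ℤ) ∣ j * (wq n p - wq m p) * _ - _
        rw [e]
        exact h6)
    exact h5
  · have h4 := four_dvd_den hm h hj
    have : NeZero (((j : ℤ) : ℚ) * hs m n).den := ⟨Rat.den_nz _⟩
    exact avg_char h4 (num_odd h4) (c := fun p => j * (wq n p - wq m p)) (P₀ := n)
      (fun p hp hpp => wq_rat hpp hm ((Nat.le_add_right _ _).trans h) hp j)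

theorem TT_le (j : ℤ) (n m x : ℕ) : ‖TT j n m x‖ ≤ th x / x := by
  unfold TT th
  rw [norm_div]
  have h1 : ‖∑ p ∈ range (x + 1), (lam p : ℂ) * e1 (((j * (wq n p - wq m p) : ℤ) : ℝ) / (p : ℝ))‖ ≤
      ∑ p ∈ range (x + 1), lam p := by
    refine (norm_sum_le _ _).trans (Finset.sum_le_sum fun p _ => ?_)
    rw [norm_mul, norm_e1, mul_one, Complex.norm_real, Real.norm_eq_abs, abs_of_nonneg (lam_nonneg p)]
  have h2 : ‖(x : ℂ)‖ = (x : ℝ) := by simp
  rw [h2]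
  exact div_le_div_of_nonneg_right h1 (Nat.cast_nonneg x)

theorem norm_SS_sq (j : ℤ) (M L p : ℕ) : ((‖SS j M L p‖ ^ 2 : ℝ) : ℂ) =
    ∑ n ∈ Ioc M (M + L), ∑ m ∈ Ioc M (M + L), e1 (((j * (wq n p - wq m p) : ℤ) : ℝ) / (p : ℝ)) := by
  have h1 : ((‖SS j M L p‖ ^ 2 : ℝ) : ℂ) = SS j M L p * (starRingEnd ℂ) (SS j M L p) := by
    rw [Complex.mul_conj, Complex.normSq_eq_norm_sq]
  rw [h1]
  unfold SS
  rw [map_sum, Finset.sum_mul_sum]
  refine Finset.sum_congr rfl fun n _ => Finset.sum_congr rfl fun m _ => ?_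
  rw [e1_conj, ← e1_add]
  congr 1
  push_cast
  ring

theorem moment_eq (j : ℤ) (M L x : ℕ) :
    (((∑ p ∈ range (x + 1), lam p * ‖SS j M L p‖ ^ 2) / x : ℝ) : ℂ) =
      ∑ n ∈ Ioc M (M + L), ∑ m ∈ Ioc M (M + L), TT j n m x := by
  unfold TT
  push_cast
  simp_rw [← Finset.sum_div]
  congr 1
  have h1 : ∀ p ∈ range (x + 1), (lam p : ℂ) * ((‖SS j M L p‖ : ℝ) : ℂ) ^ 2 =
      ∑ n ∈ Ioc M (M + L), ∑ m ∈ Ioc M (M + L),
        (lam p : ℂ) * e1 (((j * (wq n p - wq m p) : ℤ) : ℝ) / (p : ℝ)) := by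
    intro p _
    have h2 := norm_SS_sq j M L p
    push_cast at h2 ⊢
    rw [h2, Finset.mul_sum]
    exact Finset.sum_congr rfl fun n _ => Finset.mul_sum _ _ _
  rw [Finset.sum_congr rfl h1, Finset.sum_comm]
  refine Finset.sum_congr rfl fun n _ => ?_
  rw [Finset.sum_comm]
  refine Finset.sum_congr rfl fun m _ => Finset.sum_congr rfl fun p _ => ?_
  push_cast
  rfl

theorem close_card (M L d n : ℕ) (hd : 1 ≤ d) :
    ((Ioc M (M + L)).filter fun m => ¬ (n + d ≤ m ∨ m + d ≤ n)).card ≤ 2 * d := by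
  have h1 : ((Ioc M (M + L)).filter fun m => ¬ (n + d ≤ m ∨ m + d ≤ n)) ⊆ Ico (n + 1 - d) (n + d) := by
    intro m hm
    rw [mem_filter] at hm
    rw [mem_Ico]
    omega
  refine (card_le_card h1).trans ?_
  rw [Nat.card_Ico]
  omega

theorem moment_le {j : ℤ} (hj : j ≠ 0) (M L : ℕ) {ε : ℝ} (hε : 0 < ε) :
    ∀ᶠ x : ℕ in atTop, (∑ p ∈ range (x + 1), lam p * ‖SS j M L p‖ ^ 2) / x ≤
      8 * |(j : ℝ)| * L + ε := by
  -- the exact power of two
  obtain ⟨t, ht1, ht2⟩ : ∃ t : ℕ, ¬ (2 : ℤ) ^ (t + 1) ∣ j ∧ (2 : ℝ) ^ t ≤ |(j : ℝ)| := by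
    have hfin : FiniteMultiplicity (2 : ℤ) j := Int.finiteMultiplicity_iff.2 ⟨by decide, hj⟩
    obtain ⟨c, hc, hnd⟩ := hfin.exists_eq_pow_mul_and_not_dvd
    refine ⟨multiplicity 2 j, hfin.not_pow_dvd_of_multiplicity_lt (by omega), ?_⟩
    have h1 : (2 : ℤ) ^ multiplicity 2 j ∣ j := pow_multiplicity_dvd 2 j
    have h2 := Int.le_of_dvd (abs_pos.2 hj) ((dvd_abs _ _).2 h1)
    exact_mod_cast h2
  set d := 2 ^ (t + 2) with hd
  have hd1 : 1 ≤ d := Nat.one_le_two_pow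
  set I := Ioc M (M + L) with hI
  set far : ℕ → ℕ → Prop := fun n m => n + d ≤ m ∨ m + d ≤ n with hfar
  set U : ℕ → ℝ := fun x => ∑ n ∈ I, ∑ m ∈ I, if far n m then ‖TT j n m x‖ else th x / x with hU
  have hlim : Tendsto U atTop (𝓝 (∑ n ∈ I, ∑ m ∈ I, if far n m then 0 else 1)) := by
    refine tendsto_finsetSum _ fun n hn => tendsto_finsetSum _ fun m hm => ?_
    rw [hI, mem_Ioc] at hn hm
    by_cases h : far n m
    · simp only [if_pos h]
      have := (TT_far ht1 (show 1 ≤ n by omega) (show 1 ≤ m by omega) h).norm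
      simpa using this
    · simp only [if_neg h]
      exact th_tendsto
  have hcount : (∑ n ∈ I, ∑ m ∈ I, if far n m then (0 : ℝ) else 1) ≤ 8 * |(j : ℝ)| * L := by
    have h1 : ∀ n ∈ I, (∑ m ∈ I, if far n m then (0 : ℝ) else 1) ≤ 8 * |(j : ℝ)| := by
      intro n _
      have h2 : (∑ m ∈ I, if far n m then (0 : ℝ) else 1) = ((I.filter fun m => ¬ far n m).card : ℝ) := by
        rw [Finset.card_filter]
        push_cast
        refine Finset.sum_congr rfl fun m _ => ?_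
        by_cases h : far n m
        · rw [if_pos h, if_neg (not_not.2 h)]
        · rw [if_neg h, if_pos h]
      rw [h2]
      have h3 : ((I.filter fun m => ¬ far n m).card : ℝ) ≤ ((2 * d : ℕ) : ℝ) := by
        exact_mod_cast close_card M L d n hd1
      refine h3.trans ?_
      rw [hd]
      push_cast
      rw [pow_add]
      linarith
    refine (Finset.sum_le_sum h1).trans (le_of_eq ?_)
    rw [Finset.sum_const, hI, Nat.card_Ioc, Nat.add_sub_cancel_left, nsmul_eq_mul]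
    ring
  have h1 : ∀ᶠ x : ℕ in atTop, U x < 8 * |(j : ℝ)| * L + ε :=
    hlim.eventually (gt_mem_nhds (lt_of_le_of_lt hcount (lt_add_of_pos_right _ hε)))
  filter_upwards [h1] with x hx
  refine le_trans ?_ hx.le
  have h2 := moment_eq j M L x
  have h3 : (∑ p ∈ range (x + 1), lam p * ‖SS j M L p‖ ^ 2) / x ≤
      ‖∑ n ∈ Ioc M (M + L), ∑ m ∈ Ioc M (M + L), TT j n m x‖ := by
    rw [← h2, Complex.norm_real, Real.norm_eq_abs]
    exact le_abs_self _
  refine h3.trans ((norm_sum_le _ _).trans ?_)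
  refine Finset.sum_le_sum fun n _ => (norm_sum_le _ _).trans (Finset.sum_le_sum fun m _ => ?_)
  by_cases h : far n m
  · rw [if_pos h]
  · rw [if_neg h]
    exact TT_le j n m x

end Pool.Agent.Lib.MP_de5eaa_nt.Near
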