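import Pool.Agent.Lib.MP_de5eaa_nt.Near.N3

/-! A trigonometric polynomial detecting points near an integer. -/

set_option autoImplicit false

namespace Pool.Agent.Lib.MP_de5eaa_nt.Near

open Finset

/-- weights of the binomial distribution -/
noncomputable def ww (K k : ℕ) : ℝ := ((2 * K).choose k : ℝ) / 4 ^ K

theorem ww_nonneg (K k : ℕ) : 0 ≤ ww K k := by
  unfold ww
  positivity

theorem ww_sum (K : ℕ) : ∑ k ∈ range (2 * K + 1), ww K k = 1 := by
  unfold ww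
  rw [← Finset.sum_div]
  have h : ((∑ k ∈ range (2 * K + 1), (2 * K).choose k : ℕ) : ℝ) = ((2 ^ (2 * K) : ℕ) : ℝ) := by
    rw [Nat.sum_range_choose]
  push_cast at h
  rw [h, pow_mul]
  norm_num

theorem ww_mid {K : ℕ} (hK : 1 ≤ K) : 1 ≤ 4 * K * ww K K ^ 2 := by
  have h : 4 ^ (2 * K) ≤ 4 * K * (Nat.centralBinom K) ^ 2 := by
    induction K, hK using Nat.le_induction with
    | base => simp [Nat.centralBinom]
    | succ K hK ih =>
      have h1 := Nat.succ_mul_centralBinom_succ K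
      have h2 : (K + 1) * 4 ^ (2 * (K + 1)) ≤ (K + 1) * (4 * (K + 1) * (Nat.centralBinom (K + 1)) ^ 2) := by
        have e1 : (K + 1) * (4 * (K + 1) * (Nat.centralBinom (K + 1)) ^ 2) =
            4 * ((K + 1) * Nat.centralBinom (K + 1)) ^ 2 := by ring
        rw [e1, h1]
        have e2 : (K + 1) * 4 ^ (2 * (K + 1)) = 16 * (K + 1) * 4 ^ (2 * K) := by ring
        rw [e2]
        calc 16 * (K + 1) * 4 ^ (2 * K) ≤ 16 * (K + 1) * (4 * K * (Nat.centralBinom K) ^ 2) :=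
              Nat.mul_le_mul_left _ ih
          _ = 16 * (Nat.centralBinom K) ^ 2 * (4 * K * (K + 1)) := by ring
          _ ≤ 16 * (Nat.centralBinom K) ^ 2 * (2 * K + 1) ^ 2 := by
              apply Nat.mul_le_mul_left
              nlinarith
          _ = 4 * (2 * (2 * K + 1) * Nat.centralBinom K) ^ 2 := by ring
      exact Nat.le_of_mul_le_mul_left h2 (by omega)
  have h' : (4 : ℝ) ^ (2 * K) ≤ 4 * K * (Nat.centralBinom K : ℝ) ^ 2 := by exact_mod_cast h
  unfold ww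
  rw [← Nat.centralBinom_eq_two_mul_choose, div_pow, ← pow_mul, mul_comm K 2, mul_div_assoc', le_div_iff₀ (by positivity), one_mul]
  exact h'

theorem e1_nat (k : ℕ) (t : ℝ) : e1 (k * t) = e1 t ^ k := by
  unfold e1
  rw [← Complex.exp_nat_mul]
  congr 1
  push_cast
  ring

theorem cos_sq_e1 (t : ℝ) : ((Real.cos (Real.pi * t) ^ 2 : ℝ) : ℂ) = e1 (-t) * (1 + e1 t) ^ 2 / 4 := by
  have h1 : Real.cos (Real.pi * t) ^ 2 = 1 / 2 + Real.cos (2 * (Real.pi * t)) / 2 := Real.cos_sq _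
  have h2 : e1 (-t) * e1 t = 1 := by
    rw [← e1_add, neg_add_cancel, e1_zero]
  have h3 : e1 t + e1 (-t) = 2 * ((Real.cos (2 * (Real.pi * t)) : ℝ) : ℂ) := by
    unfold e1
    rw [Complex.ofReal_cos, Complex.cos]
    push_cast
    rw [show (2 * Real.pi * -t * Complex.I : ℂ) = -(2 * (Real.pi * t)) * Complex.I by ring,
      show (2 * Real.pi * t * Complex.I : ℂ) = 2 * (Real.pi * t) * Complex.I by ring]
    ring
  rw [h1]
  push_cast
  have h4 : ((Real.cos (2 * (Real.pi * t)) : ℝ) : ℂ) = (e1 t + e1 (-t)) / 2 := by rw [h3]; ring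
  have h5 : (Complex.cos (2 * (Real.pi * t)) : ℂ) = (e1 t + e1 (-t)) / 2 := by
    rw [← h4]
    push_cast
    rfl
  rw [h5]
  linear_combination (-(2 : ℂ) / 4 - e1 t / 4) * h2

theorem cos_pow (K : ℕ) (t : ℝ) : (((Real.cos (Real.pi * t) ^ 2) ^ K : ℝ) : ℂ) =
    ∑ k ∈ range (2 * K + 1), (ww K k : ℂ) * e1 (((k : ℝ) - K) * t) := by
  push_cast
  have h := cos_sq_e1 t
  push_cast at h
  rw [h, div_pow, mul_pow, ← pow_mul, ← e1_nat, add_comm (1 : ℂ), add_pow]
  rw [Finset.mul_sum, Finset.sum_div]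
  refine Finset.sum_congr rfl fun k _ => ?_
  rw [one_pow, mul_one, ← e1_nat]
  unfold ww
  have e : e1 (((k : ℝ) - K) * t) = e1 (K * -t) * e1 (k * t) := by
    rw [← e1_add]
    congr 1
    ring
  rw [e]
  push_cast
  ring

theorem cos_sq_le {δ t : ℝ} (hδ : 0 ≤ δ) (h : ∀ k : ℤ, δ < |t - k|) :
    Real.cos (Real.pi * t) ^ 2 ≤ 1 - 4 * δ ^ 2 := by
  set k := round t with hk
  have h1 : |t - k| ≤ 1 / 2 := abs_sub_round t
  have h2 := h k
  have h3 : Real.cos (Real.pi * t) ^ 2 = Real.cos (Real.pi * |t - k|) ^ 2 := by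
    have e1 : Real.cos (Real.pi * |t - k|) = Real.cos (Real.pi * (t - k)) := by
      rcases abs_choice (t - k) with h | h
      · rw [h]
      · rw [h, mul_neg, Real.cos_neg]
    rw [e1, mul_sub, mul_comm Real.pi (k : ℝ), Real.cos_sub_int_mul_pi, mul_pow]
    have : ((-1 : ℝ) ^ k) ^ 2 = 1 := by
      rw [← zpow_natCast, ← zpow_mul, mul_comm, zpow_mul]
      norm_num
    rw [this, one_mul]
  rw [h3, ← Real.sin_sq_add_cos_sq (Real.pi * |t - k|)]
  have h4 : 2 * |t - k| ≤ Real.sin (Real.pi * |t - k|) := by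
    have h5 := Real.mul_le_sin (x := Real.pi * |t - k|) (by positivity) (by nlinarith [Real.pi_pos])
    have e : 2 / Real.pi * (Real.pi * |t - k|) = 2 * |t - k| := by
      field_simp
    rwa [e] at h5
  have h6 : (2 * δ) ^ 2 ≤ Real.sin (Real.pi * |t - k|) ^ 2 := by
    apply pow_le_pow_left₀ (by positivity)
    linarith
  nlinarith

theorem rho_le {N : ℕ} (hN : 2 ≤ N) : (1 - 4 * (1 / (N : ℝ)) ^ 2) ^ (N ^ 3) ≤ ww (N ^ 3) (N ^ 3) / 2 := by
  have hN' : (2 : ℝ) ≤ N := by exact_mod_cast hN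
  have hNp : (0 : ℝ) < N := by linarith
  have h1 : 1 - 4 * (1 / (N : ℝ)) ^ 2 ≤ Real.exp (-(4 * (1 / (N : ℝ)) ^ 2)) := by
    have := Real.add_one_le_exp (-(4 * (1 / (N : ℝ)) ^ 2))
    linarith
  have h0 : 0 ≤ 1 - 4 * (1 / (N : ℝ)) ^ 2 := by
    have : (1 / (N : ℝ)) ≤ 1 / 2 := one_div_le_one_div_of_le (by norm_num) hN'
    have h2 : 0 < 1 / (N : ℝ) := by positivity
    nlinarith
  have h2 : (1 - 4 * (1 / (N : ℝ)) ^ 2) ^ (N ^ 3) ≤ Real.exp (-(4 * N)) := by
    refine (pow_le_pow_left₀ h0 h1 _).trans (le_of_eq ?_)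
    rw [← Real.exp_nat_mul]
    congr 1
    push_cast
    field_simp
  have h3 : Real.exp (-(4 * (N : ℝ))) ≤ 1 / (4 * N ^ 2) := by
    rw [Real.exp_neg, ← one_div]
    apply one_div_le_one_div_of_le (by positivity)
    have h4 : 2 * (N : ℝ) ≤ Real.exp (2 * N) := by
      have := Real.add_one_le_exp (2 * (N : ℝ))
      linarith
    have h5 : Real.exp (4 * (N : ℝ)) = Real.exp (2 * N) ^ 2 := by
      rw [← Real.exp_nat_mul]
      congr 1
      push_cast
      ring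
    rw [h5]
    have h6 := pow_le_pow_left₀ (by positivity) h4 2
    nlinarith
  have h4 : 1 / (4 * (N : ℝ) ^ 2) ≤ ww (N ^ 3) (N ^ 3) / 2 := by
    have h5 := ww_mid (K := N ^ 3) (Nat.one_le_pow _ _ (by omega))
    have h6 : 1 ≤ (2 * (N : ℝ) ^ 2 * ww (N ^ 3) (N ^ 3)) ^ 2 := by
      refine h5.trans ?_
      have h7 : 0 ≤ ww (N ^ 3) (N ^ 3) ^ 2 := sq_nonneg _
      push_cast
      have h8 : 4 * (N : ℝ) ^ 3 ≤ 4 * (N : ℝ) ^ 4 := by
        have : (N : ℝ) ^ 4 = N ^ 3 * N := by ring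
        rw [this]
        have h9 : 0 < (N : ℝ) ^ 3 := by positivity
        nlinarith
      nlinarith
    have h7 : 1 ≤ 2 * (N : ℝ) ^ 2 * ww (N ^ 3) (N ^ 3) := by
      have h8 : 0 ≤ 2 * (N : ℝ) ^ 2 * ww (N ^ 3) (N ^ 3) := mul_nonneg (by positivity) (ww_nonneg _ _)
      nlinarith
    rw [div_le_div_iff₀ (by positivity) (by norm_num)]
    nlinarith
  linarith

/-- If few of the `y n` are close to `θ` modulo one, then the exponential sums are large. -/
theorem detect {N : ℕ} (hN : 2 ≤ N) (I : Finset ℕ) (y : ℕ → ℝ) (θ : ℝ) (near : Finset ℕ)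
    (hnear : ∀ n ∈ I, n ∉ near → ∀ k : ℤ, 1 / (N : ℝ) < |y n - θ - k|) (hnI : near ⊆ I)
    (hcard : (near.card : ℝ) ≤ I.card * ww (N ^ 3) (N ^ 3) / 4) :
    I.card * ww (N ^ 3) (N ^ 3) / 4 ≤ ∑ k ∈ (range (2 * N ^ 3 + 1)).erase (N ^ 3),
      ww (N ^ 3) k * ‖∑ n ∈ I, e1 ((((k : ℤ) - (N ^ 3 : ℕ) : ℤ) : ℝ) * y n)‖ := by
  set K := N ^ 3 with hK
  set A : ℝ := ∑ n ∈ I, (Real.cos (Real.pi * (y n - θ)) ^ 2) ^ K with hA
  have hub : A ≤ near.card + I.card * (ww K K / 2) := by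
    have h1 : ∀ n ∈ I, (Real.cos (Real.pi * (y n - θ)) ^ 2) ^ K ≤ (if n ∈ near then 1 else 0) + ww K K / 2 := by
      intro n hn
      by_cases h : n ∈ near
      · rw [if_pos h]
        have h2 : (Real.cos (Real.pi * (y n - θ)) ^ 2) ^ K ≤ 1 :=
          pow_le_one₀ (sq_nonneg _) (Real.cos_sq_le_one _)
        have h3 := ww_nonneg K K
        linarith
      · rw [if_neg h, zero_add]
        have h2 := cos_sq_le (δ := 1 / (N : ℝ)) (by positivity) (hnear n hn h)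
        exact (pow_le_pow_left₀ (sq_nonneg _) h2 _).trans (rho_le hN)
    refine (Finset.sum_le_sum h1).trans (le_of_eq ?_)
    rw [Finset.sum_add_distrib, Finset.sum_const, nsmul_eq_mul]
    congr 1
    rw [Finset.sum_ite_mem, Finset.inter_eq_right.2 hnI, Finset.sum_const, nsmul_eq_mul, mul_one]
  have hlb : (I.card : ℝ) * ww K K - ∑ k ∈ (range (2 * K + 1)).erase K,
      ww K k * ‖∑ n ∈ I, e1 ((((k : ℤ) - (K : ℕ) : ℤ) : ℝ) * y n)‖ ≤ A := by
    have h1 : ((A : ℝ) : ℂ) = ∑ k ∈ range (2 * K + 1), (ww K k : ℂ) *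
        (e1 (-(((k : ℝ) - K) * θ)) * ∑ n ∈ I, e1 ((((k : ℤ) - (K : ℕ) : ℤ) : ℝ) * y n)) := by
      rw [hA]
      push_cast
      have h2 : ∀ n ∈ I, (Complex.cos (Real.pi * (y n - θ)) ^ 2) ^ K =
          ∑ k ∈ range (2 * K + 1), (ww K k : ℂ) * e1 (((k : ℝ) - K) * (y n - θ)) := by
        intro n _
        have := cos_pow K (y n - θ)
        push_cast at this
        exact this
      rw [Finset.sum_congr rfl h2, Finset.sum_comm]
      refine Finset.sum_congr rfl fun k _ => ?_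
      rw [← Finset.mul_sum]
      congr 1
      rw [Finset.mul_sum]
      refine Finset.sum_congr rfl fun n _ => ?_
      rw [← e1_add]
      congr 1
      ring
    have hmem : K ∈ range (2 * K + 1) := by
      rw [mem_range]
      omega
    rw [← Finset.add_sum_erase (range (2 * K + 1)) (fun k : ℕ => (ww K k : ℂ) *
        (e1 (-(((k : ℝ) - K) * θ)) * ∑ n ∈ I, e1 ((((k : ℤ) - (K : ℕ) : ℤ) : ℝ) * y n))) hmem] at h1
    have h2 : (ww K K : ℂ) * (e1 (-(((K : ℝ) - K) * θ)) * ∑ n ∈ I, e1 ((((K : ℤ) - (K : ℕ) : ℤ) : ℝ) * y n)) =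
        ((I.card * ww K K : ℝ) : ℂ) := by
      rw [sub_self, zero_mul, neg_zero, e1_zero, one_mul]
      have : ∀ n ∈ I, e1 ((((K : ℤ) - (K : ℕ) : ℤ) : ℝ) * y n) = 1 := by
        intro n _
        rw [sub_self, Int.cast_zero, zero_mul, e1_zero]
      rw [Finset.sum_congr rfl this, Finset.sum_const, nsmul_eq_mul, mul_one]
      push_cast
      ring
    rw [h2] at h1
    have h3 : ((I.card * ww K K - A : ℝ) : ℂ) = -∑ k ∈ (range (2 * K + 1)).erase K, (ww K k : ℂ) *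
        (e1 (-(((k : ℝ) - K) * θ)) * ∑ n ∈ I, e1 ((((k : ℤ) - (K : ℕ) : ℤ) : ℝ) * y n)) := by
      push_cast
      push_cast at h1
      rw [h1]
      ring
    have h4 : |I.card * ww K K - A| ≤ ∑ k ∈ (range (2 * K + 1)).erase K,
        ww K k * ‖∑ n ∈ I, e1 ((((k : ℤ) - (K : ℕ) : ℤ) : ℝ) * y n)‖ := by
      rw [← Real.norm_eq_abs, ← Complex.norm_real, h3, norm_neg]
      refine (norm_sum_le _ _).trans (Finset.sum_le_sum fun k _ => ?_)
      rw [norm_mul, norm_mul, norm_e1, one_mul, Complex.norm_real, Real.norm_eq_abs, abs_of_nonneg (ww_nonneg K k)]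
    have h5 := le_abs_self (I.card * ww K K - A)
    linarith
  linarith

end Pool.Agent.Lib.MP_de5eaa_nt.Near
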