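import Pool.Agent.Lib.MP_de5eaa_nt.Near.N5

/-! Equidistribution from exponential sums, with a grid of mesh `1 / (2 K + 1)`. -/

set_option autoImplicit false

namespace Pool.Agent.Lib.MP_de5eaa_nt.Near

open Finset

theorem norm_e1_sub_one_ge {t : ℝ} (ht : |t| ≤ 1 / 2) : 4 * |t| ≤ ‖e1 t - 1‖ := by
  unfold e1
  rw [show (2 * Real.pi * t * Complex.I : ℂ) = Complex.I * ((2 * Real.pi * t : ℝ) : ℂ) by push_cast; ring,
    Complex.norm_exp_I_mul_ofReal_sub_one, Real.norm_eq_abs, abs_mul, abs_two,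
    show 2 * Real.pi * t / 2 = Real.pi * t by ring]
  have key : ∀ u : ℝ, 0 ≤ u → u ≤ 1 / 2 → 2 * u ≤ Real.sin (Real.pi * u) := by
    intro u h1 h2
    have h3 := Real.mul_le_sin (x := Real.pi * u) (by positivity) (by nlinarith [Real.pi_pos])
    have e : 2 / Real.pi * (Real.pi * u) = 2 * u := by field_simp
    rwa [e] at h3
  rcases le_total 0 t with h | h
  · rw [abs_of_nonneg h] at ht ⊢
    have h1 := key t h ht
    have h2 := le_abs_self (Real.sin (Real.pi * t))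
    linarith
  · rw [abs_of_nonpos h] at ht ⊢
    have h1 := key (-t) (by linarith) ht
    rw [show Real.pi * -t = -(Real.pi * t) by ring, Real.sin_neg] at h1
    have h2 := neg_le_abs (Real.sin (Real.pi * t))
    linarith

theorem pow_e1 (h : ℤ) (Q i : ℕ) : e1 ((h : ℝ) * (i / Q)) = e1 ((h : ℝ) / Q) ^ i := by
  rw [← e1_nat]
  congr 1
  ring

theorem geom_aux {h : ℤ} {Q : ℕ} (hQ : 0 < Q) (h0 : h ≠ 0) (h2 : 2 * |h| ≤ Q) :
    4 * (|(h : ℝ)| / Q) ≤ ‖e1 ((h : ℝ) / Q) - 1‖ ∧ e1 ((h : ℝ) / Q) ≠ 1 := by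
  have hQ' : (0 : ℝ) < Q := by exact_mod_cast hQ
  have h3 : (2 : ℝ) * |(h : ℝ)| ≤ Q := by exact_mod_cast h2
  have h4 : |(h : ℝ) / Q| ≤ 1 / 2 := by
    rw [abs_div, Nat.abs_cast, div_le_div_iff₀ hQ' (by norm_num)]
    linarith
  have h5 := norm_e1_sub_one_ge h4
  rw [abs_div, Nat.abs_cast] at h5
  refine ⟨h5, fun h6 => ?_⟩
  rw [h6, sub_self, norm_zero] at h5
  have h7 : (0 : ℝ) < |(h : ℝ)| := abs_pos.2 (by exact_mod_cast h0)
  have h8 : 0 < |(h : ℝ)| / Q := by positivity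
  linarith

theorem geom_le {h : ℤ} {Q : ℕ} (m : ℕ) (hQ : 0 < Q) (h0 : h ≠ 0) (h2 : 2 * |h| ≤ Q) :
    ‖∑ i ∈ range m, e1 ((h : ℝ) * (i / Q))‖ ≤ Q / (2 * |(h : ℝ)|) := by
  obtain ⟨h3, h4⟩ := geom_aux hQ h0 h2
  have hQ' : (0 : ℝ) < Q := by exact_mod_cast hQ
  have h7 : (0 : ℝ) < |(h : ℝ)| := abs_pos.2 (by exact_mod_cast h0)
  rw [Finset.sum_congr rfl fun i _ => pow_e1 h Q i, geom_sum_eq h4, norm_div]
  have h5 : ‖e1 ((h : ℝ) / Q) ^ m - 1‖ ≤ 2 := by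
    refine (norm_sub_le _ _).trans ?_
    rw [norm_pow, norm_e1, one_pow, norm_one]
    norm_num
  have h6 : 0 < ‖e1 ((h : ℝ) / Q) - 1‖ := norm_pos_iff.2 (sub_ne_zero.2 h4)
  rw [div_le_div_iff₀ h6 (by positivity)]
  calc ‖e1 ((h : ℝ) / Q) ^ m - 1‖ * (2 * |(h : ℝ)|) ≤ 2 * (2 * |(h : ℝ)|) := by
        apply mul_le_mul_of_nonneg_right h5 (by positivity)
    _ = Q * (4 * (|(h : ℝ)| / Q)) := by field_simp; ring
    _ ≤ Q * ‖e1 ((h : ℝ) / Q) - 1‖ := mul_le_mul_of_nonneg_left h3 hQ'.le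

theorem geom_zero {h : ℤ} {Q : ℕ} (hQ : 0 < Q) (h0 : h ≠ 0) (h2 : 2 * |h| ≤ Q) :
    ∑ i ∈ range Q, e1 ((h : ℝ) * (i / Q)) = 0 := by
  obtain ⟨h3, h4⟩ := geom_aux hQ h0 h2
  have hQ' : (Q : ℝ) ≠ 0 := by exact_mod_cast hQ.ne'
  rw [Finset.sum_congr rfl fun i _ => pow_e1 h Q i, geom_sum_eq h4, ← e1_nat, mul_div_cancel₀ _ hQ', e1_int,
    sub_self, zero_div]

/-- the kernel -/
noncomputable def kap (K : ℕ) (s : ℝ) : ℝ := (Real.cos (Real.pi * s) ^ 2) ^ K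

theorem kap_nonneg (K : ℕ) (s : ℝ) : 0 ≤ kap K s := by
  unfold kap
  positivity

/-- the exponential sum with the grid -/
theorem expand_le (K m : ℕ) (I : Finset ℕ) (y : ℕ → ℝ) (θ : ℝ) :
    |(∑ n ∈ I, ∑ i ∈ range m, kap K (y n - θ - i / ((2 * K + 1 : ℕ) : ℝ))) - ww K K * (I.card * m)| ≤
      ∑ k ∈ (range (2 * K + 1)).erase K, ww K k * (‖∑ n ∈ I, e1 ((((k : ℤ) - (K : ℕ) : ℤ) : ℝ) * y n)‖ *
        ‖∑ i ∈ range m, e1 ((((K : ℕ) : ℤ) - (k : ℤ) : ℤ) * (i / ((2 * K + 1 : ℕ) : ℝ)))‖) := by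
  set Q : ℕ := 2 * K + 1 with hQ
  set S : ℕ → ℂ := fun k => ∑ n ∈ I, e1 ((((k : ℤ) - (K : ℕ) : ℤ) : ℝ) * y n) with hS
  set G : ℕ → ℂ := fun k => ∑ i ∈ range m, e1 ((((K : ℕ) : ℤ) - (k : ℤ) : ℤ) * (i / (Q : ℝ))) with hG
  have h1 : (((∑ n ∈ I, ∑ i ∈ range m, kap K (y n - θ - i / (Q : ℝ))) : ℝ) : ℂ) =
      ∑ k ∈ range (2 * K + 1), (ww K k : ℂ) * (e1 (-(((k : ℝ) - K) * θ)) * (S k * G k)) := by
    have e : (((∑ n ∈ I, ∑ i ∈ range m, kap K (y n - θ - i / (Q : ℝ))) : ℝ) : ℂ) =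
        ∑ n ∈ I, ∑ i ∈ range m, ∑ k ∈ range (2 * K + 1), (ww K k : ℂ) *
          e1 (((k : ℝ) - K) * (y n - θ - i / (Q : ℝ))) := by
      rw [Complex.ofReal_sum]
      refine Finset.sum_congr rfl fun n _ => ?_
      rw [Complex.ofReal_sum]
      refine Finset.sum_congr rfl fun i _ => ?_
      exact cos_pow K _
    rw [e, Finset.sum_congr rfl fun n _ => Finset.sum_comm, Finset.sum_comm]
    refine Finset.sum_congr rfl fun k _ => ?_
    rw [hS, hG]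
    simp only
    rw [Finset.sum_mul_sum, Finset.mul_sum, Finset.mul_sum]
    refine Finset.sum_congr rfl fun n _ => ?_
    rw [Finset.mul_sum, Finset.mul_sum]
    refine Finset.sum_congr rfl fun i _ => ?_
    rw [← e1_add, ← e1_add]
    congr 2
    push_cast
    ring
  have hmem : K ∈ range (2 * K + 1) := by
    rw [mem_range]
    omega
  rw [← Finset.add_sum_erase (range (2 * K + 1)) (fun k : ℕ => (ww K k : ℂ) *
      (e1 (-(((k : ℝ) - K) * θ)) * (S k * G k))) hmem] at h1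
  have h2 : (ww K K : ℂ) * (e1 (-(((K : ℝ) - K) * θ)) * (S K * G K)) = ((ww K K * (I.card * m) : ℝ) : ℂ) := by
    have hSK : S K = I.card := by
      rw [hS]
      simp only [sub_self, Int.cast_zero, zero_mul, e1_zero, Finset.sum_const, nsmul_eq_mul, mul_one]
    have hGK : G K = m := by
      rw [hG]
      simp only [sub_self, Int.cast_zero, zero_mul, e1_zero, Finset.sum_const, nsmul_eq_mul, mul_one, card_range]
    rw [hSK, hGK, sub_self, zero_mul, neg_zero, e1_zero, one_mul]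
    push_cast
    ring
  rw [h2] at h1
  have h3 : (((∑ n ∈ I, ∑ i ∈ range m, kap K (y n - θ - i / (Q : ℝ))) - ww K K * (I.card * m) : ℝ) : ℂ) =
      ∑ k ∈ (range (2 * K + 1)).erase K, (ww K k : ℂ) * (e1 (-(((k : ℝ) - K) * θ)) * (S k * G k)) := by
    rw [Complex.ofReal_sub, h1]
    ring
  rw [← Real.norm_eq_abs, ← Complex.norm_real, h3]
  refine (norm_sum_le _ _).trans (Finset.sum_le_sum fun k _ => ?_)
  rw [norm_mul, norm_mul, norm_mul, norm_e1, one_mul, Complex.norm_real, Real.norm_eq_abs,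
    abs_of_nonneg (ww_nonneg K k)]

theorem grid_sum (K : ℕ) (s : ℝ) :
    ∑ i ∈ range (2 * K + 1), kap K (s - i / ((2 * K + 1 : ℕ) : ℝ)) = ww K K * (2 * K + 1 : ℕ) := by
  have h := expand_le K (2 * K + 1) {0} (fun _ => s) 0
  have h2 : ∑ k ∈ (range (2 * K + 1)).erase K, ww K k *
      (‖∑ n ∈ ({0} : Finset ℕ), e1 ((((k : ℤ) - (K : ℕ) : ℤ) : ℝ) * s)‖ *
        ‖∑ i ∈ range (2 * K + 1), e1 ((((K : ℕ) : ℤ) - (k : ℤ) : ℤ) * (i / ((2 * K + 1 : ℕ) : ℝ)))‖) = 0 := by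
    refine Finset.sum_eq_zero fun k hk => ?_
    rw [mem_erase, mem_range] at hk
    have h3 : (((K : ℕ) : ℤ) - (k : ℤ)) ≠ 0 := by omega
    have h4 : 2 * |(((K : ℕ) : ℤ) - (k : ℤ))| ≤ ((2 * K + 1 : ℕ) : ℤ) := by
      rcases abs_cases (((K : ℕ) : ℤ) - (k : ℤ)) with h | h <;> push_cast <;> omega
    rw [geom_zero (by omega) h3 h4, norm_zero, mul_zero, mul_zero]
  rw [h2] at h
  have h5 := abs_nonpos_iff.1 h
  rw [Finset.sum_singleton, Finset.card_singleton] at h5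
  have h6 : ∀ i : ℕ, s - 0 - (i : ℝ) / ((2 * K + 1 : ℕ) : ℝ) = s - i / ((2 * K + 1 : ℕ) : ℝ) := fun i => by ring
  simp only [h6] at h5
  rw [sub_eq_zero.1 h5]
  push_cast
  ring

theorem rho_le' {R : ℕ} (hR : 2 ≤ R) : (1 - 4 * (1 / (R : ℝ)) ^ 2) ^ (R ^ 3) ≤ ww (R ^ 3) (R ^ 3) / R := by
  have hN' : (2 : ℝ) ≤ R := by exact_mod_cast hR
  have hNp : (0 : ℝ) < R := by linarith
  have h1 : 1 - 4 * (1 / (R : ℝ)) ^ 2 ≤ Real.exp (-(4 * (1 / (R : ℝ)) ^ 2)) := by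
    have := Real.add_one_le_exp (-(4 * (1 / (R : ℝ)) ^ 2))
    linarith
  have h0 : 0 ≤ 1 - 4 * (1 / (R : ℝ)) ^ 2 := by
    have : (1 / (R : ℝ)) ≤ 1 / 2 := one_div_le_one_div_of_le (by norm_num) hN'
    have h2 : 0 < 1 / (R : ℝ) := by positivity
    nlinarith
  have h2 : (1 - 4 * (1 / (R : ℝ)) ^ 2) ^ (R ^ 3) ≤ Real.exp (-(4 * R)) := by
    refine (pow_le_pow_left₀ h0 h1 _).trans (le_of_eq ?_)
    rw [← Real.exp_nat_mul]
    congr 1
    push_cast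
    field_simp
  have h3 : Real.exp (-(4 * (R : ℝ))) ≤ 1 / (2 * R ^ 3) := by
    rw [Real.exp_neg, ← one_div]
    apply one_div_le_one_div_of_le (by positivity)
    have h4 : (R : ℝ) ≤ Real.exp R := by
      have := Real.add_one_le_exp (R : ℝ)
      linarith
    have h5 : Real.exp (4 * (R : ℝ)) = Real.exp R ^ 4 := by
      rw [← Real.exp_nat_mul]
      push_cast
      ring_nf
    rw [h5]
    have h6 := pow_le_pow_left₀ hNp.le h4 4
    have h7 : 2 * (R : ℝ) ^ 3 ≤ R ^ 4 := by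
      have : (R : ℝ) ^ 4 = R * R ^ 3 := by ring
      rw [this]
      exact mul_le_mul_of_nonneg_right hN' (by positivity)
    linarith
  have h4 : 1 / (2 * (R : ℝ) ^ 2) ≤ ww (R ^ 3) (R ^ 3) := by
    have h5 := ww_mid (K := R ^ 3) (Nat.one_le_pow _ _ (by omega))
    have h6 : 1 ≤ (2 * (R : ℝ) ^ 2 * ww (R ^ 3) (R ^ 3)) ^ 2 := by
      refine h5.trans ?_
      have h7 : 0 ≤ ww (R ^ 3) (R ^ 3) ^ 2 := sq_nonneg _
      push_cast
      have h8 : 4 * (R : ℝ) ^ 3 ≤ 4 * (R : ℝ) ^ 4 := by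
        have : (R : ℝ) ^ 4 = R ^ 3 * R := by ring
        rw [this]
        have h9 : 0 < (R : ℝ) ^ 3 := by positivity
        nlinarith
      nlinarith
    have h7 : 1 ≤ 2 * (R : ℝ) ^ 2 * ww (R ^ 3) (R ^ 3) := by
      have h8 : 0 ≤ 2 * (R : ℝ) ^ 2 * ww (R ^ 3) (R ^ 3) := mul_nonneg (by positivity) (ww_nonneg _ _)
      nlinarith
    rw [div_le_iff₀ (by positivity)]
    nlinarith
  refine (h2.trans h3).trans ?_
  have h5 : 1 / (2 * (R : ℝ) ^ 3) = (1 / (2 * (R : ℝ) ^ 2)) / R := by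
    field_simp
  rw [h5]
  exact div_le_div_of_nonneg_right h4 hNp.le

/-- the sum of the exponential sums with weights -/
noncomputable def EE (K : ℕ) (I : Finset ℕ) (y : ℕ → ℝ) : ℝ :=
  ∑ k ∈ (range (2 * K + 1)).erase K, ww K k *
    (‖∑ n ∈ I, e1 ((((k : ℤ) - (K : ℕ) : ℤ) : ℝ) * y n)‖ / (2 * |(((K : ℕ) : ℤ) - (k : ℤ) : ℤ)|))

open Classical in
/-- The number of the points in an arc is not too large. -/
theorem arc_le {R : ℕ} (hR : 2 ≤ R) (I : Finset ℕ) (y : ℕ → ℝ) (θ ℓ : ℝ) (hℓ : 0 ≤ ℓ) :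
    ww (R ^ 3) (R ^ 3) * ((1 - 1 / (R : ℝ)) *
      ((I.filter fun n => ∃ a : ℤ, θ ≤ y n - a ∧ y n - a ≤ θ + ℓ).card : ℝ)) ≤
    ww (R ^ 3) (R ^ 3) * ((ℓ + 3 / R) * I.card) + EE (R ^ 3) I y := by
  set K := R ^ 3 with hK
  set Q : ℕ := 2 * K + 1 with hQ
  have hRp : (0 : ℝ) < R := by
    have : 0 < R := by omega
    exact_mod_cast this
  have hQp : (0 : ℝ) < Q := by
    rw [hQ]
    positivity
  set W := ww K K with hW
  have hW0 : 0 ≤ W := ww_nonneg _ _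
  set A := I.filter fun n => ∃ a : ℤ, θ ≤ y n - a ∧ y n - a ≤ θ + ℓ with hA
  have hE0 : 0 ≤ EE K I y := by
    unfold EE
    refine Finset.sum_nonneg fun k _ => mul_nonneg (ww_nonneg _ _) ?_
    positivity
  set m : ℕ := ⌊(ℓ + 2 / R) * Q⌋₊ + 1 with hm
  have hm1 : (m : ℝ) ≤ (ℓ + 3 / R) * Q := by
    rw [hm]
    push_cast
    have h1 : (⌊(ℓ + 2 / (R : ℝ)) * Q⌋₊ : ℝ) ≤ (ℓ + 2 / R) * Q := Nat.floor_le (by positivity)
    have h2 : 1 ≤ 1 / (R : ℝ) * Q := by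
      rw [one_div, inv_mul_eq_div, le_div_iff₀ hRp, one_mul]
      have : R ≤ Q := by
        have h3 : R ≤ R ^ 3 := Nat.le_self_pow (by norm_num) R
        omega
      exact_mod_cast this
    have h3 : (ℓ + 3 / (R : ℝ)) * Q = (ℓ + 2 / R) * Q + 1 / R * Q := by ring
    rw [h3]
    linarith
  have hm2 : (ℓ + 2 / (R : ℝ)) * Q < m := by
    rw [hm]
    push_cast
    exact Nat.lt_floor_add_one _
  have hAI : A.card ≤ I.card := Finset.card_filter_le _ _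
  have hAI' : (A.card : ℝ) ≤ I.card := by exact_mod_cast hAI
  by_cases hmQ : Q ≤ m
  · have h1 : 1 ≤ ℓ + 3 / (R : ℝ) := by
      have h2 : (Q : ℝ) ≤ (ℓ + 3 / R) * Q := le_trans (by exact_mod_cast hmQ) hm1
      nlinarith
    have h3 : (1 - 1 / (R : ℝ)) * (A.card : ℝ) ≤ (ℓ + 3 / R) * I.card := by
      have h4 : 0 < 1 / (R : ℝ) := by positivity
      have h5 : (0 : ℝ) ≤ A.card := by positivity
      have h6 : (0 : ℝ) ≤ I.card := by positivity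
      nlinarith
    have h4 := mul_le_mul_of_nonneg_left h3 hW0
    linarith
  rw [not_le] at hmQ
  -- the lower bound for one point
  have hpt : ∀ n ∈ A, Q * (W * (1 - 1 / R)) ≤ ∑ i ∈ range m, kap K (y n - (θ - 1 / R) - i / (Q : ℝ)) := by
    intro n hn
    rw [hA, mem_filter] at hn
    obtain ⟨-, a, ha1, ha2⟩ := hn
    have h1 := grid_sum K (y n - (θ - 1 / R))
    rw [← hQ, Finset.range_eq_Ico, ← Finset.sum_Ico_consecutive _ (Nat.zero_le m) hmQ.le] at h1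
    rw [Finset.range_eq_Ico]
    have h2 : ∑ i ∈ Ico m Q, kap K (y n - (θ - 1 / R) - i / (Q : ℝ)) ≤ ∑ i ∈ Ico m Q, W / R := by
      refine Finset.sum_le_sum fun i hi => ?_
      rw [mem_Ico] at hi
      have h3 : (ℓ + 2 / (R : ℝ)) < i / Q := by
        rw [lt_div_iff₀ hQp]
        exact lt_of_lt_of_le hm2 (by exact_mod_cast hi.1)
      have h4 : (i : ℝ) / Q < 1 := by
        rw [div_lt_one hQp]
        exact_mod_cast hi.2
      have h5 := cos_sq_le (δ := 1 / (R : ℝ)) (t := y n - (θ - 1 / R) - i / (Q : ℝ)) (by positivity) (by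
        intro k
        have e2 : 2 / (R : ℝ) = 1 / R + 1 / R := by ring
        rcases le_or_gt a k with hk | hk
        · have hk' : (a : ℝ) ≤ k := by exact_mod_cast hk
          rw [lt_abs]
          right
          linarith
        · have hk' : (k : ℝ) + 1 ≤ a := by exact_mod_cast hk
          rw [lt_abs]
          left
          linarith)
      exact (pow_le_pow_left₀ (sq_nonneg _) h5 _).trans (rho_le' hR)
    rw [Finset.sum_const, Nat.card_Ico, nsmul_eq_mul] at h2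
    have h3 : (((Q - m : ℕ) : ℝ)) * (W / R) ≤ Q * (W / R) := by
      apply mul_le_mul_of_nonneg_right _ (by positivity)
      exact_mod_cast Nat.sub_le _ _
    have h4 : (Q : ℝ) * (W * (1 - 1 / R)) = W * Q - Q * (W / R) := by ring
    rw [h4]
    linarith
  have h1 := expand_le K m I y (θ - 1 / R)
  rw [← hQ, ← hW] at h1
  have h2 : ∑ k ∈ (range Q).erase K, ww K k *
      (‖∑ n ∈ I, e1 ((((k : ℤ) - (K : ℕ) : ℤ) : ℝ) * y n)‖ *
        ‖∑ i ∈ range m, e1 ((((K : ℕ) : ℤ) - (k : ℤ) : ℤ) * (i / (Q : ℝ)))‖) ≤ Q * EE K I y := by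
    unfold EE
    rw [← hQ, Finset.mul_sum]
    refine Finset.sum_le_sum fun k hk => ?_
    rw [mem_erase, mem_range] at hk
    have h3 : (((K : ℕ) : ℤ) - (k : ℤ)) ≠ 0 := by omega
    have h4 : 2 * |(((K : ℕ) : ℤ) - (k : ℤ))| ≤ ((Q : ℕ) : ℤ) := by
      rcases abs_cases (((K : ℕ) : ℤ) - (k : ℤ)) with h | h <;> push_cast <;> omega
    have h5 := geom_le (Q := Q) m (by omega) h3 h4
    have h6 : ww K k * (‖∑ n ∈ I, e1 ((((k : ℤ) - (K : ℕ) : ℤ) : ℝ) * y n)‖ *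
        ‖∑ i ∈ range m, e1 ((((K : ℕ) : ℤ) - (k : ℤ) : ℤ) * (i / (Q : ℝ)))‖) ≤
        ww K k * (‖∑ n ∈ I, e1 ((((k : ℤ) - (K : ℕ) : ℤ) : ℝ) * y n)‖ *
          (Q / (2 * |((((K : ℕ) : ℤ) - (k : ℤ) : ℤ) : ℝ)|))) :=
      mul_le_mul_of_nonneg_left (mul_le_mul_of_nonneg_left h5 (norm_nonneg _)) (ww_nonneg _ _)
    refine h6.trans (le_of_eq ?_)
    rw [Int.cast_abs]
    ring
  have h3 : (A.card : ℝ) * (Q * (W * (1 - 1 / R))) ≤
      ∑ n ∈ I, ∑ i ∈ range m, kap K (y n - (θ - 1 / R) - i / (Q : ℝ)) := by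
    rw [← nsmul_eq_mul, ← Finset.sum_const]
    refine (Finset.sum_le_sum hpt).trans ?_
    refine Finset.sum_le_sum_of_subset_of_nonneg (Finset.filter_subset _ _) fun n _ _ => ?_
    exact Finset.sum_nonneg fun i _ => kap_nonneg _ _
  have h4 := (abs_le.1 h1).2
  have h5 : (Q : ℝ) * (W * ((1 - 1 / (R : ℝ)) * A.card)) ≤ Q * (W * ((ℓ + 3 / R) * I.card) + EE K I y) := by
    have h6 : W * (I.card * m) ≤ W * (I.card * ((ℓ + 3 / R) * Q)) :=
      mul_le_mul_of_nonneg_left (mul_le_mul_of_nonneg_left hm1 (by positivity)) hW0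
    have e1 : (Q : ℝ) * (W * ((1 - 1 / (R : ℝ)) * A.card)) = (A.card : ℝ) * (Q * (W * (1 - 1 / R))) := by ring
    have e2 : (Q : ℝ) * (W * ((ℓ + 3 / R) * I.card) + EE K I y) =
      W * (I.card * ((ℓ + 3 / R) * Q)) + Q * EE K I y := by ring
    rw [e1, e2]
    linarith
  exact le_of_mul_le_mul_left h5 hQp

end Pool.Agent.Lib.MP_de5eaa_nt.Near
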