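import Pool.Agent.Lib.MP_de5eaa_nt.Near.N4
import Pool.Agent.Lib.MP_de5eaa_nt.Near.N6

/-! The exceptional primes have small weight. -/

set_option autoImplicit false

namespace Pool.Agent.Lib.MP_de5eaa_nt.Near

open Finset Filter Topology
open Pool.Agent.Lib.MP_d9bc60_nt.TH (lam)

/-- the weights with the denominators -/
noncomputable def cc (K k : ℕ) : ℝ := 1 / (2 * ((|(((K : ℕ) : ℤ) - (k : ℤ))| : ℤ) : ℝ))

theorem cc_nonneg (K k : ℕ) : 0 ≤ cc K k := by
  unfold cc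
  positivity

theorem cc_sum (K : ℕ) : ∑ k ∈ (range (2 * K + 1)).erase K, cc K k = ((harmonic K : ℚ) : ℝ) := by
  have h0 : cc K K = 0 := by simp [cc]
  have h1 : ∑ k ∈ (range (2 * K + 1)).erase K, cc K k = ∑ k ∈ range (K + (K + 1)), cc K k := by
    rw [← Finset.add_sum_erase (range (K + (K + 1))) (cc K) (a := K) (by rw [mem_range]; omega), h0, zero_add]
    congr 2
    congr 1
    omega
  have h2 : ∀ j : ℕ, cc K (K + (j + 1)) = ((j + 1 : ℕ) : ℝ)⁻¹ / 2 := by
    intro j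
    unfold cc
    have e : |(((K : ℕ) : ℤ) - ((K + (j + 1) : ℕ) : ℤ))| = ((j + 1 : ℕ) : ℤ) := by
      rw [abs_sub_comm, abs_of_nonneg (by push_cast; omega)]
      push_cast
      ring
    rw [e]
    push_cast
    field_simp
  have h3 : ∑ k ∈ range K, cc K k = ∑ j ∈ range K, ((j + 1 : ℕ) : ℝ)⁻¹ / 2 := by
    rw [← Finset.sum_range_reflect]
    refine Finset.sum_congr rfl fun j hj => ?_
    rw [mem_range] at hj
    unfold cc
    have e : |(((K : ℕ) : ℤ) - ((K - 1 - j : ℕ) : ℤ))| = ((j + 1 : ℕ) : ℤ) := by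
      rw [abs_of_nonneg (by omega)]
      omega
    rw [e]
    push_cast
    field_simp
  rw [h1, Finset.sum_range_add, h3, Finset.sum_range_succ', add_zero, h0, add_zero,
    Finset.sum_congr rfl fun j _ => h2 j, ← Finset.sum_add_distrib]
  unfold harmonic
  push_cast
  refine Finset.sum_congr rfl fun j _ => ?_
  ring

theorem ww_le (K k : ℕ) : ww K k ≤ ww K K := by
  unfold ww
  apply div_le_div_of_nonneg_right _ (by positivity)
  have h := Nat.choose_le_centralBinom k K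
  rw [Nat.centralBinom_eq_two_mul_choose] at h
  exact_mod_cast h

theorem harm_le {R : ℕ} (hR : 2 ≤ R) :
    ((harmonic (R ^ 3) : ℚ) : ℝ) ≤ 12 * (R : ℝ) ^ 2 * ww (R ^ 3) (R ^ 3) := by
  have hRp : (0 : ℝ) < R := by
    have : 0 < R := by omega
    exact_mod_cast this
  set W := ww (R ^ 3) (R ^ 3) with hW
  have hW0 : 0 ≤ W := ww_nonneg _ _
  set r := Real.sqrt R with hr
  have hr0 : 0 < r := Real.sqrt_pos.2 hRp
  have hr2 : r ^ 2 = R := Real.sq_sqrt hRp.le
  have h1 : ((harmonic (R ^ 3) : ℚ) : ℝ) ≤ 6 * r := by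
    have h2 := harmonic_le_one_add_log (R ^ 3)
    have h3 : Real.log (R ^ 3 : ℕ) ≤ 6 * (r - 1) := by
      push_cast
      rw [Real.log_pow, ← hr2, Real.log_pow]
      have := Real.log_le_sub_one_of_pos hr0
      push_cast
      linarith
    linarith
  have h2 : 1 ≤ 2 * r ^ 3 * W := by
    have h3 := ww_mid (K := R ^ 3) (Nat.one_le_pow _ _ (by omega))
    rw [← hW] at h3
    have h4 : (4 * ((R ^ 3 : ℕ) : ℝ) * W ^ 2) = (2 * r ^ 3 * W) ^ 2 := by
      push_cast
      rw [← hr2]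
      ring
    rw [h4] at h3
    have h5 : 0 ≤ 2 * r ^ 3 * W := by positivity
    nlinarith
  have h3 : 6 * r * 1 ≤ 6 * r * (2 * r ^ 3 * W) := mul_le_mul_of_nonneg_left h2 (by positivity)
  have h4 : 12 * (R : ℝ) ^ 2 * W = 6 * r * (2 * r ^ 3 * W) := by
    rw [← hr2]
    ring
  rw [h4]
  linarith

theorem ww_mid_pos {R : ℕ} (hR : 2 ≤ R) : 0 < ww (R ^ 3) (R ^ 3) := by
  rcases (ww_nonneg (R ^ 3) (R ^ 3)).eq_or_lt with h | h
  · have h3 := ww_mid (K := R ^ 3) (Nat.one_le_pow _ _ (by omega))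
    rw [← h] at h3
    norm_num at h3
  · exact h

/-- the points -/
noncomputable def yy (p n : ℕ) : ℝ := (wq n p : ℝ) / p

theorem EE_eq (K M L p : ℕ) : EE K (Ioc M (M + L)) (yy p) =
    ∑ k ∈ (range (2 * K + 1)).erase K, ww K k * (‖SS ((k : ℤ) - (K : ℕ)) M L p‖ * cc K k) := by
  unfold EE SS cc yy
  refine Finset.sum_congr rfl fun k _ => ?_
  simp only [mul_div_assoc, mul_one_div]

theorem EE_sq (K M L p : ℕ) : EE K (Ioc M (M + L)) (yy p) ^ 2 ≤
    (ww K K * ((harmonic K : ℚ) : ℝ)) *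
      ∑ k ∈ (range (2 * K + 1)).erase K, (ww K k * cc K k) * ‖SS ((k : ℤ) - (K : ℕ)) M L p‖ ^ 2 := by
  rw [EE_eq]
  set s := (range (2 * K + 1)).erase K with hs
  have h1 := Finset.sum_mul_sq_le_sq_mul_sq s (fun k => Real.sqrt (ww K k * cc K k))
    (fun k => Real.sqrt (ww K k * cc K k) * ‖SS ((k : ℤ) - (K : ℕ)) M L p‖)
  have h0 : ∀ k, 0 ≤ ww K k * cc K k := fun k => mul_nonneg (ww_nonneg _ _) (cc_nonneg _ _)
  have e1 : ∑ k ∈ s, Real.sqrt (ww K k * cc K k) * (Real.sqrt (ww K k * cc K k) *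
      ‖SS ((k : ℤ) - (K : ℕ)) M L p‖) = ∑ k ∈ s, ww K k * (‖SS ((k : ℤ) - (K : ℕ)) M L p‖ * cc K k) := by
    refine Finset.sum_congr rfl fun k _ => ?_
    rw [← mul_assoc, Real.mul_self_sqrt (h0 k)]
    ring
  have e2 : ∑ k ∈ s, Real.sqrt (ww K k * cc K k) ^ 2 = ∑ k ∈ s, ww K k * cc K k :=
    Finset.sum_congr rfl fun k _ => Real.sq_sqrt (h0 k)
  have e3 : ∑ k ∈ s, (Real.sqrt (ww K k * cc K k) * ‖SS ((k : ℤ) - (K : ℕ)) M L p‖) ^ 2 =
      ∑ k ∈ s, (ww K k * cc K k) * ‖SS ((k : ℤ) - (K : ℕ)) M L p‖ ^ 2 :=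
    Finset.sum_congr rfl fun k _ => by rw [mul_pow, Real.sq_sqrt (h0 k)]
  rw [e1, e2, e3] at h1
  refine h1.trans (mul_le_mul_of_nonneg_right ?_ (Finset.sum_nonneg fun k _ => mul_nonneg (h0 k) (sq_nonneg _)))
  rw [← cc_sum, Finset.mul_sum]
  exact Finset.sum_le_sum fun k _ => mul_le_mul_of_nonneg_right (ww_le K k) (cc_nonneg K k)

open Classical in
/-- The exceptional primes have small weight. -/
theorem exc_weight {R : ℕ} (hR : 2 ≤ R) (M L : ℕ) (hL : 1 ≤ L) :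
    ∀ᶠ x : ℕ in atTop, ∑ p ∈ (range (x + 1)).filter (fun p =>
        ww (R ^ 3) (R ^ 3) * (L / R) < EE (R ^ 3) (Ioc M (M + L)) (yy p)), lam p ≤
      49 * (R : ℝ) ^ 4 / L * x := by
  set K := R ^ 3 with hK
  have hRp : (0 : ℝ) < R := by
    have : 0 < R := by omega
    exact_mod_cast this
  have hLp : (0 : ℝ) < L := by
    have : 0 < L := by omega
    exact_mod_cast this
  set W := ww K K with hW
  have hWp : 0 < W := ww_mid_pos hR
  set s := (range (2 * K + 1)).erase K with hs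
  have h1 : ∀ᶠ x : ℕ in atTop, ∀ k ∈ s, (∑ p ∈ range (x + 1), lam p * ‖SS ((k : ℤ) - (K : ℕ)) M L p‖ ^ 2) / x ≤
      8 * |(((k : ℤ) - (K : ℕ) : ℤ) : ℝ)| * L + L / 12 := by
    rw [Filter.eventually_all_finset]
    intro k hk
    rw [hs, mem_erase] at hk
    exact moment_le (by have := hk.1; omega) M L (by positivity)
  filter_upwards [h1, eventually_gt_atTop 0] with x hx hx0
  have hxp : (0 : ℝ) < x := by exact_mod_cast hx0
  set P := (range (x + 1)).filter (fun p => W * (L / R) < EE K (Ioc M (M + L)) (yy p)) with hP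
  set X : ℝ := ∑ p ∈ P, lam p with hX
  -- the sum of the squares
  have h2 : (W * (L / R)) ^ 2 * X ≤ ∑ p ∈ range (x + 1), lam p * EE K (Ioc M (M + L)) (yy p) ^ 2 := by
    rw [hX, Finset.mul_sum]
    have h3 : ∑ p ∈ P, (W * (L / R)) ^ 2 * lam p ≤ ∑ p ∈ P, lam p * EE K (Ioc M (M + L)) (yy p) ^ 2 := by
      refine Finset.sum_le_sum fun p hp => ?_
      rw [hP, mem_filter] at hp
      rw [mul_comm]
      exact mul_le_mul_of_nonneg_left (pow_le_pow_left₀ (by positivity) hp.2.le 2) (lam_nonneg p)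
    refine h3.trans (Finset.sum_le_sum_of_subset_of_nonneg (Finset.filter_subset _ _) fun p _ _ => ?_)
    exact mul_nonneg (lam_nonneg p) (sq_nonneg _)
  have h3 : ∑ p ∈ range (x + 1), lam p * EE K (Ioc M (M + L)) (yy p) ^ 2 ≤
      (W * ((harmonic K : ℚ) : ℝ)) * ((4 * L + L / 12) * x) := by
    have h4 : ∑ p ∈ range (x + 1), lam p * EE K (Ioc M (M + L)) (yy p) ^ 2 ≤
        ∑ p ∈ range (x + 1), (W * ((harmonic K : ℚ) : ℝ)) *
          ∑ k ∈ s, (ww K k * cc K k) * (lam p * ‖SS ((k : ℤ) - (K : ℕ)) M L p‖ ^ 2) := by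
      refine Finset.sum_le_sum fun p _ => ?_
      refine (mul_le_mul_of_nonneg_left (EE_sq K M L p) (lam_nonneg p)).trans (le_of_eq ?_)
      rw [mul_left_comm, Finset.mul_sum]
      congr 1
      refine Finset.sum_congr rfl fun k _ => ?_
      ring
    refine h4.trans ?_
    rw [← Finset.mul_sum, Finset.sum_comm]
    have hH : 0 ≤ ((harmonic K : ℚ) : ℝ) := by
      rw [← cc_sum]
      exact Finset.sum_nonneg fun k _ => cc_nonneg _ _
    apply mul_le_mul_of_nonneg_left _ (mul_nonneg hWp.le hH)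
    have h5 : ∀ k ∈ s, ∑ p ∈ range (x + 1), (ww K k * cc K k) * (lam p * ‖SS ((k : ℤ) - (K : ℕ)) M L p‖ ^ 2) ≤
        ww K k * ((4 * L + L / 12) * x) := by
      intro k hk
      rw [← Finset.mul_sum, mul_assoc]
      apply mul_le_mul_of_nonneg_left _ (ww_nonneg K k)
      have h6 := hx k hk
      rw [div_le_iff₀ hxp] at h6
      have h7 := mul_le_mul_of_nonneg_left h6 (cc_nonneg K k)
      refine h7.trans ?_
      have hne : ((k : ℤ) - (K : ℕ) : ℤ) ≠ 0 := by
        rw [hs, mem_erase] at hk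
        have := hk.1
        omega
      have h8 : (1 : ℝ) ≤ |(((k : ℤ) - (K : ℕ) : ℤ) : ℝ)| := by
        have := Int.one_le_abs hne
        exact_mod_cast this
      have h9 : cc K k = 1 / (2 * |(((k : ℤ) - (K : ℕ) : ℤ) : ℝ)|) := by
        unfold cc
        rw [abs_sub_comm, Int.cast_abs]
      rw [h9, ← mul_assoc]
      apply mul_le_mul_of_nonneg_right _ hxp.le
      rw [one_div, inv_mul_le_iff₀ (by positivity)]
      nlinarith
    refine (Finset.sum_le_sum h5).trans ?_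
    rw [← Finset.sum_mul]
    have h6 : ∑ k ∈ s, ww K k ≤ 1 := by
      rw [← ww_sum K]
      exact Finset.sum_le_sum_of_subset_of_nonneg (Finset.erase_subset _ _) fun k _ _ => ww_nonneg K k
    calc (∑ k ∈ s, ww K k) * ((4 * L + L / 12) * x) ≤ 1 * ((4 * L + L / 12) * x) :=
          mul_le_mul_of_nonneg_right h6 (by positivity)
      _ = _ := one_mul _
  have h4 := h2.trans h3
  have h5 : (W * ((harmonic K : ℚ) : ℝ)) * ((4 * L + L / 12) * x) ≤
      (W * (12 * (R : ℝ) ^ 2 * W)) * ((4 * L + L / 12) * x) :=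
    mul_le_mul_of_nonneg_right (mul_le_mul_of_nonneg_left (harm_le hR) hWp.le) (by positivity)
  have h6 := h4.trans h5
  have e1 : (W * (L / R)) ^ 2 * X = W ^ 2 * ((L / R) ^ 2 * X) := by ring
  have e2 : (W * (12 * (R : ℝ) ^ 2 * W)) * ((4 * L + L / 12) * x) = W ^ 2 * (49 * R ^ 2 * L * x) := by ring
  rw [e1, e2] at h6
  have h7 : ((L : ℝ) / R) ^ 2 * X ≤ 49 * R ^ 2 * L * x := le_of_mul_le_mul_left h6 (by positivity)
  have e3 : 49 * (R : ℝ) ^ 4 / L * x = (49 * R ^ 2 * L * x) / (L / R) ^ 2 := by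
    field_simp
  rw [e3, le_div_iff₀ (by positivity)]
  linarith

end Pool.Agent.Lib.MP_de5eaa_nt.Near
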