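import Pool.Agent.Lib.MP_de5eaa_nt.Near.N7

/-! Counting the exceptional primes. -/

set_option autoImplicit false

namespace Pool.Agent.Lib.MP_de5eaa_nt.Near

open Finset Filter Topology
open Pool.Agent.Lib.MP_d9bc60_nt.TH (lam)

/-- the number of the primes up to `x` -/
def ppi (x : ℕ) : ℕ := ((range (x + 1)).filter Nat.Prime).card

theorem lam_prime {p : ℕ} (hp : p.Prime) : lam p = Real.log p := by
  unfold Pool.Agent.Lib.MP_d9bc60_nt.TH.lam
  rw [if_pos hp]

theorem th_le (x : ℕ) : th x ≤ ppi x * Real.log x := by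
  unfold th ppi
  have h1 : ∑ n ∈ range (x + 1), lam n = ∑ n ∈ (range (x + 1)).filter Nat.Prime, lam n := by
    rw [Finset.sum_filter]
    refine Finset.sum_congr rfl fun n _ => ?_
    by_cases h : n.Prime
    · rw [if_pos h]
    · rw [if_neg h]
      unfold Pool.Agent.Lib.MP_d9bc60_nt.TH.lam
      rw [if_neg h]
  rw [h1, ← nsmul_eq_mul, ← Finset.sum_const]
  refine Finset.sum_le_sum fun n hn => ?_
  rw [mem_filter, mem_range] at hn
  rw [lam_prime hn.2]
  apply Real.log_le_log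
  · exact_mod_cast hn.2.pos
  · have : n ≤ x := by omega
    exact_mod_cast this

open Classical in
theorem count_of_weight {P : ℕ → Prop} {C : ℝ} (hC : 0 < C)
    (h : ∀ᶠ x : ℕ in atTop, ∑ p ∈ (range (x + 1)).filter P, lam p ≤ 49 * C * x) :
    ∀ᶠ x : ℕ in atTop, ((((range (x + 1)).filter fun p => p.Prime ∧ P p).card : ℕ) : ℝ) ≤
      100 * C * ppi x := by
  have h1 : ∀ᶠ x : ℕ in atTop, (99 / 100 : ℝ) < th x / x := th_tendsto.eventually (lt_mem_nhds (by norm_num))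
  have h2 : ∀ᶠ x : ℕ in atTop, Real.sqrt x * Real.log x ≤ C * x := by
    have h3 := (isLittleO_log_rpow_atTop (r := 1 / 2) (by norm_num)).bound hC
    have h4 := (tendsto_natCast_atTop_atTop (R := ℝ)).eventually h3
    filter_upwards [h4, eventually_ge_atTop 1] with x hx hx1
    have hx1' : (1 : ℝ) ≤ x := by exact_mod_cast hx1
    rw [Real.norm_eq_abs, abs_of_nonneg (Real.log_nonneg hx1'), Real.norm_eq_abs,
      abs_of_nonneg (Real.rpow_nonneg (by positivity) _), ← Real.sqrt_eq_rpow] at hx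
    have h5 := mul_le_mul_of_nonneg_left hx (Real.sqrt_nonneg (x : ℝ))
    refine h5.trans (le_of_eq ?_)
    rw [mul_left_comm, Real.mul_self_sqrt (by positivity)]
  filter_upwards [h, h1, h2, eventually_ge_atTop 2] with x hx1 hx2 hx3 hx4
  have hx4' : (2 : ℝ) ≤ x := by exact_mod_cast hx4
  have hlog : 0 < Real.log x := Real.log_pos (by linarith)
  set A := (range (x + 1)).filter fun p => p.Prime ∧ P p with hA
  -- the large ones
  have h3 : (A.card : ℝ) ≤ Real.sqrt x + (A.filter fun p => x < p ^ 2).card := by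
    have h4 : A.card = (A.filter fun p => x < p ^ 2).card + (A.filter fun p => ¬ x < p ^ 2).card :=
      (Finset.card_filter_add_card_filter_not _).symm
    have h5 : (A.filter fun p => ¬ x < p ^ 2).card ≤ Nat.sqrt x := by
      have h6 : (A.filter fun p => ¬ x < p ^ 2) ⊆ Ioc 0 (Nat.sqrt x) := by
        intro p hp
        rw [mem_filter, hA, mem_filter] at hp
        rw [mem_Ioc]
        refine ⟨hp.1.2.1.pos, ?_⟩
        rw [Nat.le_sqrt, ← sq]
        omega
      have h7 := Finset.card_le_card h6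
      rwa [Nat.card_Ioc, Nat.sub_zero] at h7
    have h6 : ((Nat.sqrt x : ℕ) : ℝ) ≤ Real.sqrt x := Real.nat_sqrt_le_real_sqrt
    have h7 : (((A.filter fun p => ¬ x < p ^ 2).card : ℕ) : ℝ) ≤ ((Nat.sqrt x : ℕ) : ℝ) := by exact_mod_cast h5
    rw [h4]
    push_cast
    linarith
  have h4 : ((A.filter fun p => x < p ^ 2).card : ℝ) * (Real.log x / 2) ≤ 49 * C * x := by
    refine le_trans ?_ hx1
    rw [← nsmul_eq_mul, ← Finset.sum_const]
    have h5 : ∑ _p ∈ A.filter (fun p => x < p ^ 2), Real.log x / 2 ≤ ∑ p ∈ A.filter (fun p => x < p ^ 2), lam p := by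
      refine Finset.sum_le_sum fun p hp => ?_
      rw [mem_filter, hA, mem_filter] at hp
      rw [lam_prime hp.1.2.1]
      have h6 : Real.log x ≤ Real.log ((p ^ 2 : ℕ) : ℝ) := by
        apply Real.log_le_log (by linarith)
        exact_mod_cast hp.2.le
      push_cast at h6
      rw [Real.log_pow] at h6
      push_cast at h6
      linarith
    refine h5.trans (Finset.sum_le_sum_of_subset_of_nonneg ?_ fun p _ _ => lam_nonneg p)
    intro p hp
    rw [mem_filter, hA, mem_filter] at hp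
    rw [mem_filter]
    exact ⟨hp.1.1, hp.1.2.2⟩
  have h5 : (99 / 100 : ℝ) * x < ppi x * Real.log x := by
    rw [lt_div_iff₀ (by linarith)] at hx2
    exact lt_of_lt_of_le hx2 (th_le x)
  have h6 : (A.card : ℝ) * Real.log x ≤ 100 * C * ppi x * Real.log x := by
    have h7 : (A.card : ℝ) * Real.log x ≤ (Real.sqrt x + (A.filter fun p => x < p ^ 2).card) * Real.log x :=
      mul_le_mul_of_nonneg_right h3 hlog.le
    have h8 : C * ((99 / 100 : ℝ) * x) ≤ C * (ppi x * Real.log x) := mul_le_mul_of_nonneg_left h5.le hC.le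
    nlinarith
  exact le_of_mul_le_mul_right h6 hlog

/-- the number of the `n` in `(M, M + L]` for which `wq n p / p` is in the arc `[θ, θ + ℓ]` modulo one -/
noncomputable def arc (M L p : ℕ) (θ ℓ : ℝ) : ℕ :=
  Nat.card {n : ℕ // M < n ∧ n ≤ M + L ∧ ∃ a : ℤ, θ ≤ (wq n p : ℝ) / p - a ∧ (wq n p : ℝ) / p - a ≤ θ + ℓ}

open Classical in
theorem arc_eq (M L p : ℕ) (θ ℓ : ℝ) : arc M L p θ ℓ =
    ((Ioc M (M + L)).filter fun n => ∃ a : ℤ, θ ≤ yy p n - a ∧ yy p n - a ≤ θ + ℓ).card := by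
  unfold arc yy
  refine Nat.subtype_card _ fun n => ?_
  rw [mem_filter, mem_Ioc, and_assoc]

open Classical in
/-- For a prime which is not exceptional the points are equidistributed. -/
theorem arc_discrepancy {N : ℕ} (hN : 1 ≤ N) {M L p : ℕ}
    (hE : EE ((10 * N) ^ 3) (Ioc M (M + L)) (yy p) ≤ ww ((10 * N) ^ 3) ((10 * N) ^ 3) * (L / (10 * N : ℕ)))
    {θ ℓ : ℝ} (h0 : 0 ≤ ℓ) (h1 : ℓ ≤ 1) : |(arc M L p θ ℓ : ℝ) - ℓ * L| ≤ L / N := by
  set R : ℕ := 10 * N with hR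
  have hR10 : 10 ≤ R := by omega
  have hR2 : 2 ≤ R := by omega
  have hRr : (10 : ℝ) ≤ R := by exact_mod_cast hR10
  have hRp : (0 : ℝ) < R := by linarith
  have hNp : (0 : ℝ) < N := by
    have : 0 < N := by omega
    exact_mod_cast this
  have hRN : (R : ℝ) = 10 * N := by
    rw [hR]
    push_cast
    ring
  have hL0 : (0 : ℝ) ≤ L := by positivity
  have hWp := ww_mid_pos hR2
  set W := ww (R ^ 3) (R ^ 3) with hW
  have hcard : ((Ioc M (M + L)).card : ℝ) = L := by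
    rw [Nat.card_Ioc, Nat.add_sub_cancel_left]
  have up : ∀ θ ℓ : ℝ, 0 ≤ ℓ → ℓ ≤ 1 → (arc M L p θ ℓ : ℝ) ≤ ℓ * L + L / N := by
    intro θ ℓ h0 h1
    have h2 := arc_le hR2 (Ioc M (M + L)) (yy p) θ ℓ h0
    rw [← hW, hcard, ← arc_eq] at h2
    have h3 : W * ((1 - 1 / (R : ℝ)) * (arc M L p θ ℓ : ℝ)) ≤ W * ((ℓ + 4 / R) * L) := by
      refine h2.trans ?_
      have e : W * ((ℓ + 4 / (R : ℝ)) * L) = W * ((ℓ + 3 / R) * L) + W * (L / R) := by ring
      rw [e]
      linarith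
    have h4 := le_of_mul_le_mul_left h3 hWp
    have h5 : (ℓ + 4 / (R : ℝ)) * L ≤ (1 - 1 / R) * (ℓ * L + L / N) := by
      have e1 : (L : ℝ) / N = 10 / R * L := by
        rw [hRN]
        field_simp
      rw [e1]
      set t := 1 / (R : ℝ) with ht
      have ht0 : 0 < t := by positivity
      have ht1 : t ≤ 1 / 10 := one_div_le_one_div_of_le (by norm_num) hRr
      have e2 : 4 / (R : ℝ) = 4 * t := by rw [ht]; ring
      have e3 : 10 / (R : ℝ) = 10 * t := by rw [ht]; ring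
      rw [e2, e3]
      have e4 : (1 - t) * (ℓ * L + 10 * t * L) - (ℓ + 4 * t) * L = t * L * (6 - ℓ - 10 * t) := by ring
      have h6 : 0 ≤ t * L * (6 - ℓ - 10 * t) := by
        apply mul_nonneg (mul_nonneg ht0.le hL0)
        linarith
      linarith
    have h6 := h4.trans h5
    have h7 : 0 < 1 - 1 / (R : ℝ) := by
      have ht1 : 1 / (R : ℝ) ≤ 1 / 10 := one_div_le_one_div_of_le (by norm_num) hRr
      linarith
    exact le_of_mul_le_mul_left h6 h7
  have h2 := up θ ℓ h0 h1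
  have h3 := up (θ + ℓ) (1 - ℓ) (by linarith) (by linarith)
  have h4 : (L : ℝ) ≤ arc M L p θ ℓ + arc M L p (θ + ℓ) (1 - ℓ) := by
    have h5 : (Ioc M (M + L)) ⊆
        ((Ioc M (M + L)).filter fun n => ∃ a : ℤ, θ ≤ yy p n - a ∧ yy p n - a ≤ θ + ℓ) ∪
        ((Ioc M (M + L)).filter fun n => ∃ a : ℤ, θ + ℓ ≤ yy p n - a ∧ yy p n - a ≤ θ + ℓ + (1 - ℓ)) := by
      intro n hn
      rw [mem_union, mem_filter, mem_filter]
      have h6 := Int.floor_le (yy p n - θ)
      have h7 := Int.lt_floor_add_one (yy p n - θ)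
      rcases le_total (yy p n - ⌊yy p n - θ⌋) (θ + ℓ) with h | h
      · left
        exact ⟨hn, ⌊yy p n - θ⌋, by linarith, h⟩
      · right
        exact ⟨hn, ⌊yy p n - θ⌋, h, by linarith⟩
    have h6 := (Finset.card_le_card h5).trans (Finset.card_union_le _ _)
    rw [← arc_eq, ← arc_eq, Nat.card_Ioc, Nat.add_sub_cancel_left] at h6
    exact_mod_cast h6
  rw [abs_le]
  constructor
  · linarith
  · linarith

/-- **Theorem.** -/
theorem equidistribution {N : ℕ} (hN : 1 ≤ N) (M : ℕ) {L : ℕ} (hL : 1 ≤ L) :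
    ∃ X : ℕ, ∀ x, X ≤ x →
      (Nat.card {p : ℕ // p.Prime ∧ p ≤ x ∧ ∃ θ ℓ : ℝ, 0 ≤ ℓ ∧ ℓ ≤ 1 ∧ (L : ℝ) / N < |(arc M L p θ ℓ : ℝ) - ℓ * L|} : ℝ) ≤
        1000000 * (N : ℝ) ^ 4 / L * (Nat.card {p : ℕ // p.Prime ∧ p ≤ x}) := by
  classical
  have hLp : (0 : ℝ) < L := by
    have : 0 < L := by omega
    exact_mod_cast this
  have hNp : (0 : ℝ) < N := by
    have : 0 < N := by omega
    exact_mod_cast this
  have h1 := exc_weight (R := 10 * N) (by omega) M L hL
  have h2 := count_of_weight (P := fun p => ww ((10 * N) ^ 3) ((10 * N) ^ 3) * (L / (10 * N : ℕ)) <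
    EE ((10 * N) ^ 3) (Ioc M (M + L)) (yy p)) (C := ((10 * N : ℕ) : ℝ) ^ 4 / L) (by positivity) (by
      filter_upwards [h1] with x hx
      refine hx.trans (le_of_eq ?_)
      ring)
  obtain ⟨X, hX⟩ := eventually_atTop.1 h2
  refine ⟨X, fun x hx => ?_⟩
  have h3 := hX x hx
  have e1 : Nat.card {p : ℕ // p.Prime ∧ p ≤ x} = ppi x := by
    unfold ppi
    refine Nat.subtype_card _ fun p => ?_
    rw [mem_filter, mem_range, Nat.lt_succ_iff, and_comm]
  have e2 : 1000000 * (N : ℝ) ^ 4 / L = 100 * (((10 * N : ℕ) : ℝ) ^ 4 / L) := by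
    push_cast
    ring
  rw [e1, e2]
  refine le_trans ?_ h3
  set A := (range (x + 1)).filter fun p => p.Prime ∧ ww ((10 * N) ^ 3) ((10 * N) ^ 3) * (L / (10 * N : ℕ)) <
    EE ((10 * N) ^ 3) (Ioc M (M + L)) (yy p) with hA
  have h4 : Nat.card {p : ℕ // p.Prime ∧ p ≤ x ∧ ∃ θ ℓ : ℝ, 0 ≤ ℓ ∧ ℓ ≤ 1 ∧
      (L : ℝ) / N < |(arc M L p θ ℓ : ℝ) - ℓ * L|} ≤ A.card := by
    have h5 : Nat.card {p : ℕ // p.Prime ∧ p ≤ x ∧ ∃ θ ℓ : ℝ, 0 ≤ ℓ ∧ ℓ ≤ 1 ∧
        (L : ℝ) / N < |(arc M L p θ ℓ : ℝ) - ℓ * L|} =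
        ((range (x + 1)).filter fun p => p.Prime ∧ p ≤ x ∧ ∃ θ ℓ : ℝ, 0 ≤ ℓ ∧ ℓ ≤ 1 ∧
          (L : ℝ) / N < |(arc M L p θ ℓ : ℝ) - ℓ * L|).card := by
      refine Nat.subtype_card _ fun p => ?_
      rw [mem_filter, mem_range, Nat.lt_succ_iff]
      tauto
    rw [h5]
    refine Finset.card_le_card fun p hp => ?_
    rw [mem_filter] at hp
    rw [hA, mem_filter]
    refine ⟨hp.1, hp.2.1, ?_⟩
    by_contra h6
    rw [not_lt] at h6
    obtain ⟨θ, ℓ, h7, h8, h9⟩ := hp.2.2.2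
    exact absurd (arc_discrepancy hN h6 h7 h8) (not_le.2 h9)
  exact_mod_cast h4

end Pool.Agent.Lib.MP_de5eaa_nt.Near
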