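import Pool.Agent.Lib.MP_de5eaa_nt.Near.N8

/-! The number of the primes and the duality principle. -/

set_option autoImplicit false

namespace Pool.Agent.Lib.MP_de5eaa_nt.Near

open Finset Filter Topology
open Pool.Agent.Lib.MP_d9bc60_nt.TH (lam)

theorem ppi_eq (x : ℕ) : ppi x = Nat.primeCounting x := by
  unfold ppi Nat.primeCounting Nat.primeCounting'
  rw [Nat.count_eq_card_filter_range]

theorem th_theta (x : ℕ) : th x = Chebyshev.theta x := by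
  unfold th Chebyshev.theta
  rw [sum_range_eq _ lam_zero, Nat.floor_natCast, Finset.sum_filter]
  refine Finset.sum_congr rfl fun n _ => ?_
  unfold Pool.Agent.Lib.MP_d9bc60_nt.TH.lam
  rfl

/-- the prime number theorem for the number of the primes -/
theorem ppi_tendsto : Tendsto (fun x : ℕ => (ppi x : ℝ) * Real.log x / (x : ℝ)) atTop (𝓝 1) := by
  have h1 := Chebyshev.primeCounting_sub_theta_div_log_isBigO.comp_tendsto
    (tendsto_natCast_atTop_atTop (R := ℝ))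
  obtain ⟨C, hC⟩ := h1.bound
  have h2 : Tendsto (fun x : ℕ => C / Real.log x) atTop (𝓝 0) :=
    Tendsto.const_div_atTop (Real.tendsto_log_atTop.comp tendsto_natCast_atTop_atTop) C
  have h3 : Tendsto (fun x : ℕ => (ppi x : ℝ) * Real.log x / (x : ℝ) - th x / x) atTop (𝓝 0) := by
    refine squeeze_zero_norm' ?_ h2
    filter_upwards [hC, eventually_ge_atTop 2] with x hx hx2
    have hx2' : (2 : ℝ) ≤ x := by exact_mod_cast hx2
    have hlog : 0 < Real.log x := Real.log_pos (by linarith)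
    simp only [Function.comp_apply, Nat.floor_natCast] at hx
    rw [← ppi_eq, ← th_theta, Real.norm_eq_abs, Real.norm_eq_abs,
      abs_of_nonneg (by positivity : (0 : ℝ) ≤ x / Real.log x ^ 2)] at hx
    rw [Real.norm_eq_abs]
    have e1 : (ppi x : ℝ) * Real.log x / (x : ℝ) - th x / x =
        ((ppi x : ℝ) - th x / Real.log x) * (Real.log x / x) := by
      field_simp
    rw [e1, abs_mul, abs_of_pos (by positivity : (0 : ℝ) < Real.log x / x)]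
    refine (mul_le_mul_of_nonneg_right hx (by positivity)).trans (le_of_eq ?_)
    field_simp
  have h4 := h3.add th_tendsto
  simpa using h4

/-- The duality principle, with the bound of Schur for the Gram matrix. -/
theorem dual_bound {ι κ : Type*} (I : Finset ι) (P : Finset κ) (w : κ → ℝ) (hw : ∀ p ∈ P, 0 ≤ w p)
    (b : ι → κ → ℂ) {C : ℝ} (hC0 : 0 ≤ C)
    (hC : ∀ n ∈ I, ∑ m ∈ I, ‖∑ p ∈ P, (w p : ℂ) * (b n p * (starRingEnd ℂ) (b m p))‖ ≤ C) :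
    ∑ n ∈ I, ‖∑ p ∈ P, (w p : ℂ) * b n p‖ ^ 2 ≤ C * ∑ p ∈ P, w p := by
  set S : ι → ℂ := fun n => ∑ p ∈ P, (w p : ℂ) * b n p with hS
  set Q : κ → ℂ := fun p => ∑ n ∈ I, (starRingEnd ℂ) (S n) * b n p with hQ
  set G : ι → ι → ℂ := fun n m => ∑ p ∈ P, (w p : ℂ) * (b n p * (starRingEnd ℂ) (b m p)) with hG
  set T : ℝ := ∑ n ∈ I, ‖S n‖ ^ 2 with hT
  have hT0 : 0 ≤ T := Finset.sum_nonneg fun n _ => sq_nonneg _
  have hW0 : 0 ≤ ∑ p ∈ P, w p := Finset.sum_nonneg hw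
  have nsq : ∀ z : ℂ, ((‖z‖ ^ 2 : ℝ) : ℂ) = (starRingEnd ℂ) z * z := by
    intro z
    rw [mul_comm, Complex.mul_conj, Complex.normSq_eq_norm_sq]
  have h1 : ((T : ℝ) : ℂ) = ∑ p ∈ P, (w p : ℂ) * Q p := by
    rw [hT, Complex.ofReal_sum]
    have e1 : ∀ n ∈ I, ((‖S n‖ ^ 2 : ℝ) : ℂ) = ∑ p ∈ P, (w p : ℂ) * ((starRingEnd ℂ) (S n) * b n p) := by
      intro n _
      rw [nsq, hS]
      dsimp only
      rw [Finset.mul_sum]
      refine Finset.sum_congr rfl fun p _ => ?_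
      ring
    rw [Finset.sum_congr rfl e1, Finset.sum_comm]
    refine Finset.sum_congr rfl fun p _ => ?_
    rw [hQ]
    dsimp only
    rw [Finset.mul_sum]
  have h2 : T ≤ ∑ p ∈ P, w p * ‖Q p‖ := by
    have e1 : T = ‖((T : ℝ) : ℂ)‖ := by rw [Complex.norm_real, Real.norm_eq_abs, abs_of_nonneg hT0]
    rw [e1, h1]
    refine (norm_sum_le _ _).trans (Finset.sum_le_sum fun p hp => ?_)
    rw [norm_mul, Complex.norm_real, Real.norm_eq_abs, abs_of_nonneg (hw p hp)]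
  have h3 : (∑ p ∈ P, w p * ‖Q p‖) ^ 2 ≤ (∑ p ∈ P, w p) * ∑ p ∈ P, w p * ‖Q p‖ ^ 2 := by
    have h4 := Finset.sum_mul_sq_le_sq_mul_sq P (fun p => Real.sqrt (w p)) (fun p => Real.sqrt (w p) * ‖Q p‖)
    have e1 : ∑ p ∈ P, Real.sqrt (w p) * (Real.sqrt (w p) * ‖Q p‖) = ∑ p ∈ P, w p * ‖Q p‖ :=
      Finset.sum_congr rfl fun p hp => by rw [← mul_assoc, Real.mul_self_sqrt (hw p hp)]
    have e2 : ∑ p ∈ P, Real.sqrt (w p) ^ 2 = ∑ p ∈ P, w p :=
      Finset.sum_congr rfl fun p hp => Real.sq_sqrt (hw p hp)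
    have e3 : ∑ p ∈ P, (Real.sqrt (w p) * ‖Q p‖) ^ 2 = ∑ p ∈ P, w p * ‖Q p‖ ^ 2 :=
      Finset.sum_congr rfl fun p hp => by rw [mul_pow, Real.sq_sqrt (hw p hp)]
    rw [e1, e2, e3] at h4
    exact h4
  have h4 : ((∑ p ∈ P, w p * ‖Q p‖ ^ 2 : ℝ) : ℂ) =
      ∑ n ∈ I, ∑ m ∈ I, (starRingEnd ℂ) (S n) * S m * G n m := by
    rw [Complex.ofReal_sum]
    have e1 : ∀ p ∈ P, ((w p * ‖Q p‖ ^ 2 : ℝ) : ℂ) = ∑ n ∈ I, ∑ m ∈ I,
        (w p : ℂ) * ((starRingEnd ℂ) (S n) * S m * (b n p * (starRingEnd ℂ) (b m p))) := by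
      intro p _
      have e2 : ((w p * ‖Q p‖ ^ 2 : ℝ) : ℂ) = (w p : ℂ) * ((‖Q p‖ ^ 2 : ℝ) : ℂ) := by push_cast; ring
      rw [e2, nsq, hQ]
      dsimp only
      rw [map_sum, mul_comm (∑ n ∈ I, _), Finset.sum_mul_sum, Finset.mul_sum]
      refine Finset.sum_congr rfl fun n _ => ?_
      rw [Finset.mul_sum]
      refine Finset.sum_congr rfl fun m _ => ?_
      rw [map_mul, Complex.conj_conj]
      ring
    rw [Finset.sum_congr rfl e1, Finset.sum_comm]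
    refine Finset.sum_congr rfl fun n _ => ?_
    rw [Finset.sum_comm]
    refine Finset.sum_congr rfl fun m _ => ?_
    have e3 : (starRingEnd ℂ) (S n) * S m * G n m =
        ∑ p ∈ P, (starRingEnd ℂ) (S n) * S m * ((w p : ℂ) * (b n p * (starRingEnd ℂ) (b m p))) :=
      Finset.mul_sum _ _ _
    rw [e3]
    refine Finset.sum_congr rfl fun p _ => ?_
    ring
  have hsym : ∀ n m, ‖G n m‖ = ‖G m n‖ := by
    intro n m
    have e1 : G m n = (starRingEnd ℂ) (G n m) := by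
      simp only [hG, map_sum, map_mul, Complex.conj_conj, Complex.conj_ofReal]
      refine Finset.sum_congr rfl fun p _ => ?_
      ring
    rw [e1, RCLike.norm_conj]
  have h5 : ∑ p ∈ P, w p * ‖Q p‖ ^ 2 ≤ C * T := by
    have h0 : 0 ≤ ∑ p ∈ P, w p * ‖Q p‖ ^ 2 :=
      Finset.sum_nonneg fun p hp => mul_nonneg (hw p hp) (sq_nonneg _)
    have e1 : ∑ p ∈ P, w p * ‖Q p‖ ^ 2 = ‖((∑ p ∈ P, w p * ‖Q p‖ ^ 2 : ℝ) : ℂ)‖ := by
      rw [Complex.norm_real, Real.norm_eq_abs, abs_of_nonneg h0]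
    rw [e1, h4]
    have h6 : ‖∑ n ∈ I, ∑ m ∈ I, (starRingEnd ℂ) (S n) * S m * G n m‖ ≤
        ∑ n ∈ I, ∑ m ∈ I, (‖S n‖ ^ 2 * ‖G n m‖ / 2 + ‖S m‖ ^ 2 * ‖G m n‖ / 2) := by
      refine (norm_sum_le _ _).trans (Finset.sum_le_sum fun n _ => (norm_sum_le _ _).trans
        (Finset.sum_le_sum fun m _ => ?_))
      rw [norm_mul, norm_mul, RCLike.norm_conj, hsym m n]
      have h7 : ‖S n‖ * ‖S m‖ ≤ (‖S n‖ ^ 2 + ‖S m‖ ^ 2) / 2 := by
        nlinarith [sq_nonneg (‖S n‖ - ‖S m‖)]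
      have h8 := mul_le_mul_of_nonneg_right h7 (norm_nonneg (G n m))
      linarith
    refine h6.trans ?_
    have h7 : ∑ n ∈ I, ∑ m ∈ I, (‖S n‖ ^ 2 * ‖G n m‖ / 2 + ‖S m‖ ^ 2 * ‖G m n‖ / 2) =
        ∑ n ∈ I, ‖S n‖ ^ 2 * ∑ m ∈ I, ‖G n m‖ := by
      have e2 : ∀ n ∈ I, ∑ m ∈ I, (‖S n‖ ^ 2 * ‖G n m‖ / 2 + ‖S m‖ ^ 2 * ‖G m n‖ / 2) =
          ∑ m ∈ I, ‖S n‖ ^ 2 * ‖G n m‖ / 2 + ∑ m ∈ I, ‖S m‖ ^ 2 * ‖G m n‖ / 2 :=
        fun n _ => Finset.sum_add_distrib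
      rw [Finset.sum_congr rfl e2, Finset.sum_add_distrib,
        Finset.sum_comm (f := fun n m => ‖S m‖ ^ 2 * ‖G m n‖ / 2), ← Finset.sum_add_distrib]
      refine Finset.sum_congr rfl fun n _ => ?_
      rw [← Finset.sum_add_distrib, Finset.mul_sum]
      refine Finset.sum_congr rfl fun m _ => ?_
      ring
    rw [h7, hT, Finset.mul_sum]
    refine Finset.sum_le_sum fun n hn => ?_
    rw [mul_comm]
    exact mul_le_mul_of_nonneg_right (hC n hn) (sq_nonneg _)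
  have h6 : T ^ 2 ≤ (∑ p ∈ P, w p) * (C * T) :=
    (pow_le_pow_left₀ hT0 h2 2).trans (h3.trans (mul_le_mul_of_nonneg_left h5 hW0))
  rcases hT0.eq_or_lt with h | h
  · rw [← h]
    exact mul_nonneg hC0 hW0
  · have h7 : T * T ≤ T * (C * ∑ p ∈ P, w p) := by
      rw [sq] at h6
      linarith
    exact le_of_mul_le_mul_left h7 h

end Pool.Agent.Lib.MP_de5eaa_nt.Near
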