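import Pool.Agent.Lib.MP_de5eaa_nt.Near.O1

/-! The second moment over the orders of the exponential sums over the primes. -/

set_option autoImplicit false

namespace Pool.Agent.Lib.MP_de5eaa_nt.Near

open Finset Filter Topology
open Pool.Agent.Lib.MP_d9bc60_nt.TH (lam)

/-- the primes up to `x` -/
def pr (x : ℕ) : Finset ℕ := (range (x + 1)).filter Nat.Prime

theorem pr_card (x : ℕ) : (pr x).card = ppi x := rfl

/-- exponential sum over the primes up to `x`, with weights -/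
noncomputable def AA (j : ℤ) (n x : ℕ) : ℂ :=
  ∑ p ∈ range (x + 1), ((lam p : ℝ) : ℂ) * e1 ((j : ℝ) * yy p n)

/-- exponential sum over the primes up to `x` -/
noncomputable def BB (j : ℤ) (n x : ℕ) : ℂ := ∑ p ∈ pr x, e1 ((j : ℝ) * yy p n)

theorem sum_lam {M : Type*} [AddCommMonoid M] (x : ℕ) (f : ℕ → M) (h : ∀ p, ¬ p.Prime → f p = 0) :
    ∑ p ∈ range (x + 1), f p = ∑ p ∈ pr x, f p := by
  unfold pr
  rw [Finset.sum_filter]
  refine Finset.sum_congr rfl fun p _ => ?_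
  by_cases hp : p.Prime
  · rw [if_pos hp]
  · rw [if_neg hp, h p hp]

theorem lam_not_prime {p : ℕ} (hp : ¬ p.Prime) : lam p = 0 := by
  unfold Pool.Agent.Lib.MP_d9bc60_nt.TH.lam
  rw [if_neg hp]

theorem norm_AA_le (j : ℤ) (n x : ℕ) : ‖AA j n x‖ ≤ th x := by
  unfold AA th
  refine (norm_sum_le _ _).trans (Finset.sum_le_sum fun p _ => ?_)
  rw [norm_mul, norm_e1, mul_one, Complex.norm_real, Real.norm_eq_abs, abs_of_nonneg (lam_nonneg p)]

/-- the weights are almost constant -/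
theorem BB_le_AA (j : ℤ) (n : ℕ) {x : ℕ} (hx : 2 ≤ x) :
    ‖BB j n x‖ * Real.log x ≤ ‖AA j n x‖ + (ppi x * Real.log x - th x) := by
  have hx' : (2 : ℝ) ≤ x := by exact_mod_cast hx
  have hlog : 0 < Real.log x := Real.log_pos (by linarith)
  have h1 : BB j n x * ((Real.log x : ℝ) : ℂ) - AA j n x =
      ∑ p ∈ pr x, ((Real.log x - lam p : ℝ) : ℂ) * e1 ((j : ℝ) * yy p n) := by
    unfold AA
    rw [sum_lam x _ (fun p hp => by rw [lam_not_prime hp]; simp)]
    unfold BB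
    rw [Finset.sum_mul, ← Finset.sum_sub_distrib]
    refine Finset.sum_congr rfl fun p _ => ?_
    push_cast
    ring
  have h2 : ‖BB j n x * ((Real.log x : ℝ) : ℂ) - AA j n x‖ ≤ ppi x * Real.log x - th x := by
    rw [h1]
    have h3 : ppi x * Real.log x - th x = ∑ p ∈ pr x, (Real.log x - lam p) := by
      rw [Finset.sum_sub_distrib, Finset.sum_const, nsmul_eq_mul, pr_card]
      unfold th
      rw [sum_lam x _ (fun p hp => lam_not_prime hp)]
    rw [h3]
    refine (norm_sum_le _ _).trans (Finset.sum_le_sum fun p hp => ?_)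
    unfold pr at hp
    rw [mem_filter, mem_range] at hp
    have h4 : lam p ≤ Real.log x := by
      rw [lam_prime hp.2]
      apply Real.log_le_log
      · exact_mod_cast hp.2.pos
      · have : p ≤ x := by omega
        exact_mod_cast this
    rw [norm_mul, norm_e1, mul_one, Complex.norm_real, Real.norm_eq_abs, abs_of_nonneg (by linarith)]
  have h3 : ‖BB j n x‖ * Real.log x = ‖BB j n x * ((Real.log x : ℝ) : ℂ)‖ := by
    rw [norm_mul, Complex.norm_real, Real.norm_eq_abs, abs_of_pos hlog]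
  rw [h3]
  have h4 := norm_le_norm_add_norm_sub (AA j n x) (BB j n x * ((Real.log x : ℝ) : ℂ))
  rw [norm_sub_rev] at h4
  linarith

theorem close_card' (F : Finset ℕ) (d n : ℕ) (hd : 1 ≤ d) :
    (F.filter fun m => ¬ (n + d ≤ m ∨ m + d ≤ n)).card ≤ 2 * d := by
  have h1 : (F.filter fun m => ¬ (n + d ≤ m ∨ m + d ≤ n)) ⊆ Ico (n + 1 - d) (n + d) := by
    intro m hm
    rw [mem_filter] at hm
    rw [mem_Ico]
    omega
  refine (card_le_card h1).trans ?_
  rw [Nat.card_Ico]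
  omega

/-- The rows of the Gram matrix. -/
theorem gram_row {j : ℤ} {t : ℕ} (hj : ¬ (2 : ℤ) ^ (t + 1) ∣ j) {F : Finset ℕ} (hF : ∀ n ∈ F, 1 ≤ n)
    {ε : ℝ} (hε : 0 < ε) : ∀ᶠ x : ℕ in atTop, ∀ n ∈ F, ∑ m ∈ F, ‖TT j n m x‖ ≤ 8 * 2 ^ t + ε := by
  rw [Filter.eventually_all_finset]
  intro n hn
  set d := 2 ^ (t + 2) with hd
  have hd1 : 1 ≤ d := Nat.one_le_two_pow
  set far : ℕ → Prop := fun m => n + d ≤ m ∨ m + d ≤ n with hfar
  set U : ℕ → ℝ := fun x => ∑ m ∈ F, if far m then ‖TT j n m x‖ else th x / x with hU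
  have hlim : Tendsto U atTop (𝓝 (∑ m ∈ F, if far m then 0 else 1)) := by
    refine tendsto_finsetSum _ fun m hm => ?_
    by_cases h : far m
    · simp only [if_pos h]
      have := (TT_far hj (hF n hn) (hF m hm) h).norm
      simpa using this
    · simp only [if_neg h]
      exact th_tendsto
  have hcount : (∑ m ∈ F, if far m then (0 : ℝ) else 1) ≤ 8 * 2 ^ t := by
    have h2 : (∑ m ∈ F, if far m then (0 : ℝ) else 1) = ((F.filter fun m => ¬ far m).card : ℝ) := by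
      rw [Finset.card_filter]
      push_cast
      refine Finset.sum_congr rfl fun m _ => ?_
      by_cases h : far m
      · rw [if_pos h, if_neg (not_not.2 h)]
      · rw [if_neg h, if_pos h]
    rw [h2]
    have h3 : ((F.filter fun m => ¬ far m).card : ℝ) ≤ ((2 * d : ℕ) : ℝ) := by
      exact_mod_cast close_card' F d n hd1
    refine h3.trans ?_
    rw [hd]
    push_cast
    rw [pow_add]
    linarith
  have h1 : ∀ᶠ x : ℕ in atTop, U x < 8 * 2 ^ t + ε :=
    hlim.eventually (gt_mem_nhds (lt_of_le_of_lt hcount (lt_add_of_pos_right _ hε)))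
  filter_upwards [h1] with x hx
  refine le_trans (Finset.sum_le_sum fun m _ => ?_) hx.le
  by_cases h : far m
  · rw [if_pos h]
  · rw [if_neg h]
    exact TT_le j n m x

theorem gram_eq (j : ℤ) (n m : ℕ) {x : ℕ} (hx : 0 < x) :
    ∑ p ∈ range (x + 1), ((lam p : ℝ) : ℂ) *
      (e1 ((j : ℝ) * yy p n) * (starRingEnd ℂ) (e1 ((j : ℝ) * yy p m))) = (x : ℂ) * TT j n m x := by
  unfold TT yy
  have hx' : (x : ℂ) ≠ 0 := by exact_mod_cast hx.ne'
  rw [mul_div_cancel₀ _ hx']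
  refine Finset.sum_congr rfl fun p _ => ?_
  rw [e1_conj, ← e1_add]
  congr 2
  push_cast
  ring

/-- The second moment of the weighted sums. -/
theorem AA_moment {j : ℤ} {t : ℕ} (hj : ¬ (2 : ℤ) ^ (t + 1) ∣ j) {F : Finset ℕ} (hF : ∀ n ∈ F, 1 ≤ n)
    {ε : ℝ} (hε : 0 < ε) : ∀ᶠ x : ℕ in atTop,
      ∑ n ∈ F, ‖AA j n x‖ ^ 2 ≤ (x * (8 * 2 ^ t + ε)) * th x := by
  filter_upwards [gram_row hj hF hε, eventually_gt_atTop 0] with x hx hx0
  have hxp : (0 : ℝ) < x := by exact_mod_cast hx0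
  unfold AA th
  refine dual_bound F (range (x + 1)) lam (fun p _ => lam_nonneg p) (fun n p => e1 ((j : ℝ) * yy p n))
    (by positivity) fun n hn => ?_
  have h1 : ∀ m ∈ F, ‖∑ p ∈ range (x + 1), ((lam p : ℝ) : ℂ) *
      (e1 ((j : ℝ) * yy p n) * (starRingEnd ℂ) (e1 ((j : ℝ) * yy p m)))‖ = x * ‖TT j n m x‖ := by
    intro m _
    rw [gram_eq j n m hx0, norm_mul]
    simp
  rw [Finset.sum_congr rfl h1, ← Finset.mul_sum]
  exact mul_le_mul_of_nonneg_left (hx n hn) hxp.le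

/-- The second moment over the orders. -/
theorem BB_moment {j : ℤ} {t : ℕ} (hj : ¬ (2 : ℤ) ^ (t + 1) ∣ j) {F : Finset ℕ} (hF : ∀ n ∈ F, 1 ≤ n)
    {ε : ℝ} (hε : 0 < ε) : ∀ᶠ x : ℕ in atTop,
      ∑ n ∈ F, ‖BB j n x‖ ^ 2 ≤ (8 * 2 ^ t + ε) * (ppi x : ℝ) ^ 2 := by
  set f : ℝ := (F.card : ℝ) with hf
  have hf0 : 0 ≤ f := Nat.cast_nonneg _
  set a : ℕ → ℝ := fun x => (ppi x : ℝ) * Real.log x / (x : ℝ) with ha
  set ρ : ℕ → ℝ := fun x => th x / (x : ℝ) with hρ
  have ha1 : Tendsto a atTop (𝓝 1) := ppi_tendsto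
  have hρ1 : Tendsto ρ atTop (𝓝 1) := th_tendsto
  have hr : Tendsto (fun x => a x - ρ x) atTop (𝓝 0) := by
    have := ha1.sub hρ1
    simpa using this
  have hlim : Tendsto (fun x => (8 * 2 ^ t + ε / 2) * ρ x + 2 * (a x - ρ x) * (f * ρ x) + f * (a x - ρ x) ^ 2 -
      (8 * 2 ^ t + ε) * a x ^ 2) atTop (𝓝 ((8 * 2 ^ t + ε / 2) * 1 + 2 * 0 * (f * 1) + f * 0 ^ 2 -
        (8 * 2 ^ t + ε) * 1 ^ 2)) := by
    refine Tendsto.sub (Tendsto.add (Tendsto.add ?_ ?_) ?_) ?_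
    · exact hρ1.const_mul _
    · exact (hr.const_mul 2).mul (hρ1.const_mul f)
    · exact (hr.pow 2).const_mul f
    · exact (ha1.pow 2).const_mul _
  have hev : ∀ᶠ x : ℕ in atTop, (8 * 2 ^ t + ε / 2) * ρ x + 2 * (a x - ρ x) * (f * ρ x) + f * (a x - ρ x) ^ 2 -
      (8 * 2 ^ t + ε) * a x ^ 2 < 0 := by
    refine hlim.eventually (gt_mem_nhds ?_)
    linarith
  filter_upwards [AA_moment hj hF (half_pos hε), hev, eventually_ge_atTop 2] with x hx1 hx2 hx3
  have hx' : (2 : ℝ) ≤ x := by exact_mod_cast hx3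
  have hxp : (0 : ℝ) < x := by linarith
  have hlog : 0 < Real.log x := Real.log_pos (by linarith)
  have hth0 : 0 ≤ th x := (norm_nonneg _).trans (norm_AA_le j 0 x)
  set r : ℝ := ppi x * Real.log x - th x with hrr
  have hr0 : 0 ≤ r := by
    have := th_le x
    linarith
  have h1 : ∀ n ∈ F, (‖BB j n x‖ * Real.log x) ^ 2 ≤ ‖AA j n x‖ ^ 2 + (2 * r * th x + r ^ 2) := by
    intro n _
    have h2 := pow_le_pow_left₀ (by positivity) (BB_le_AA j n hx3) 2
    have h3 := norm_AA_le j n x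
    rw [← hrr] at h2
    nlinarith [mul_le_mul_of_nonneg_left h3 hr0, norm_nonneg (AA j n x)]
  have h2 : (∑ n ∈ F, ‖BB j n x‖ ^ 2) * Real.log x ^ 2 ≤
      (x * (8 * 2 ^ t + ε / 2)) * th x + f * (2 * r * th x + r ^ 2) := by
    have h3 := Finset.sum_le_sum h1
    rw [Finset.sum_add_distrib, Finset.sum_const, nsmul_eq_mul] at h3
    have e1 : ∑ n ∈ F, (‖BB j n x‖ * Real.log x) ^ 2 = (∑ n ∈ F, ‖BB j n x‖ ^ 2) * Real.log x ^ 2 := by
      rw [Finset.sum_mul]
      exact Finset.sum_congr rfl fun n _ => mul_pow _ _ _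
    rw [e1] at h3
    linarith
  have e2 : a x - ρ x = r / x := by
    rw [ha, hρ, hrr]
    dsimp only
    rw [sub_div]
  have h4 : (x * (8 * 2 ^ t + ε / 2)) * th x + f * (2 * r * th x + r ^ 2) ≤
      ((8 * 2 ^ t + ε) * (ppi x : ℝ) ^ 2) * Real.log x ^ 2 := by
    rw [e2] at hx2
    have e3 : ρ x = th x / x := rfl
    have e4 : a x = (ppi x : ℝ) * Real.log x / x := rfl
    rw [e3, e4] at hx2
    have e5 : (8 * 2 ^ t + ε / 2) * (th x / x) + 2 * (r / x) * (f * (th x / x)) + f * (r / x) ^ 2 -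
        (8 * 2 ^ t + ε) * ((ppi x : ℝ) * Real.log x / x) ^ 2 =
        ((x * (8 * 2 ^ t + ε / 2)) * th x + f * (2 * r * th x + r ^ 2) -
          ((8 * 2 ^ t + ε) * (ppi x : ℝ) ^ 2) * Real.log x ^ 2) / x ^ 2 := by
      field_simp
      ring
    rw [e5] at hx2
    have h5 : (x * (8 * 2 ^ t + ε / 2)) * th x + f * (2 * r * th x + r ^ 2) -
          ((8 * 2 ^ t + ε) * (ppi x : ℝ) ^ 2) * Real.log x ^ 2 < 0 := by
      by_contra hcon
      rw [not_lt] at hcon
      have := div_nonneg hcon (sq_nonneg (x : ℝ))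
      linarith
    linarith
  exact le_of_mul_le_mul_right (h2.trans h4) (by positivity)

end Pool.Agent.Lib.MP_de5eaa_nt.Near
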