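import Pool.Agent.Lib.MP_de5eaa_nt.Near.N8

/-! Arcs, for any finite set of indices; sums with powers of two. -/

set_option autoImplicit false

namespace Pool.Agent.Lib.MP_de5eaa_nt.Near

open Finset Filter Topology

theorem EE_sq' (K : ℕ) (I : Finset ℕ) (y : ℕ → ℝ) : EE K I y ^ 2 ≤
    (ww K K * ((harmonic K : ℚ) : ℝ)) *
      ∑ k ∈ (range (2 * K + 1)).erase K, (ww K k * cc K k) *
        ‖∑ n ∈ I, e1 ((((k : ℤ) - (K : ℕ) : ℤ) : ℝ) * y n)‖ ^ 2 := by
  set B : ℕ → ℝ := fun k => ‖∑ n ∈ I, e1 ((((k : ℤ) - (K : ℕ) : ℤ) : ℝ) * y n)‖ with hB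
  have hEE : EE K I y = ∑ k ∈ (range (2 * K + 1)).erase K, ww K k * (B k * cc K k) := by
    unfold EE cc
    refine Finset.sum_congr rfl fun k _ => ?_
    rw [mul_one_div]
  rw [hEE]
  set s := (range (2 * K + 1)).erase K with hs
  have h1 := Finset.sum_mul_sq_le_sq_mul_sq s (fun k => Real.sqrt (ww K k * cc K k))
    (fun k => Real.sqrt (ww K k * cc K k) * B k)
  have h0 : ∀ k, 0 ≤ ww K k * cc K k := fun k => mul_nonneg (ww_nonneg _ _) (cc_nonneg _ _)
  have e1 : ∑ k ∈ s, Real.sqrt (ww K k * cc K k) * (Real.sqrt (ww K k * cc K k) *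
      B k) = ∑ k ∈ s, ww K k * (B k * cc K k) := by
    refine Finset.sum_congr rfl fun k _ => ?_
    rw [← mul_assoc, Real.mul_self_sqrt (h0 k)]
    ring
  have e2 : ∑ k ∈ s, Real.sqrt (ww K k * cc K k) ^ 2 = ∑ k ∈ s, ww K k * cc K k :=
    Finset.sum_congr rfl fun k _ => Real.sq_sqrt (h0 k)
  have e3 : ∑ k ∈ s, (Real.sqrt (ww K k * cc K k) * B k) ^ 2 =
      ∑ k ∈ s, (ww K k * cc K k) * B k ^ 2 :=
    Finset.sum_congr rfl fun k _ => by rw [mul_pow, Real.sq_sqrt (h0 k)]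
  rw [e1, e2, e3] at h1
  refine h1.trans (mul_le_mul_of_nonneg_right ?_ (Finset.sum_nonneg fun k _ => mul_nonneg (h0 k) (sq_nonneg _)))
  rw [← cc_sum, Finset.mul_sum]
  exact Finset.sum_le_sum fun k _ => mul_le_mul_of_nonneg_right (ww_le K k) (cc_nonneg K k)

theorem cc_sum' (K : ℕ) (G : ℕ → ℝ) :
    ∑ k ∈ (range (2 * K + 1)).erase K, cc K k * G (((K : ℕ) : ℤ) - (k : ℤ)).natAbs =
      ∑ i ∈ range K, G (i + 1) / ((i + 1 : ℕ) : ℝ) := by
  have h0 : cc K K * G (((K : ℕ) : ℤ) - (K : ℤ)).natAbs = 0 := by simp [cc]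
  have h1 : ∑ k ∈ (range (2 * K + 1)).erase K, cc K k * G (((K : ℕ) : ℤ) - (k : ℤ)).natAbs =
      ∑ k ∈ range (K + (K + 1)), cc K k * G (((K : ℕ) : ℤ) - (k : ℤ)).natAbs := by
    rw [← Finset.add_sum_erase (range (K + (K + 1))) (fun k => cc K k * G (((K : ℕ) : ℤ) - (k : ℤ)).natAbs)
      (a := K) (by rw [mem_range]; omega), h0, zero_add]
    congr 2
    congr 1
    omega
  have h2 : ∀ j : ℕ, cc K (K + (j + 1)) * G (((K : ℕ) : ℤ) - ((K + (j + 1) : ℕ) : ℤ)).natAbs =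
      G (j + 1) / ((j + 1 : ℕ) : ℝ) / 2 := by
    intro j
    have e0 : (((K : ℕ) : ℤ) - ((K + (j + 1) : ℕ) : ℤ)).natAbs = j + 1 := by omega
    rw [e0]
    unfold cc
    have e : |(((K : ℕ) : ℤ) - ((K + (j + 1) : ℕ) : ℤ))| = ((j + 1 : ℕ) : ℤ) := by
      rw [abs_sub_comm, abs_of_nonneg (by push_cast; omega)]
      push_cast
      ring
    rw [e]
    push_cast
    field_simp
  have h3 : ∑ k ∈ range K, cc K k * G (((K : ℕ) : ℤ) - (k : ℤ)).natAbs =
      ∑ j ∈ range K, G (j + 1) / ((j + 1 : ℕ) : ℝ) / 2 := by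
    rw [← Finset.sum_range_reflect]
    refine Finset.sum_congr rfl fun j hj => ?_
    rw [mem_range] at hj
    have e0 : (((K : ℕ) : ℤ) - ((K - 1 - j : ℕ) : ℤ)).natAbs = j + 1 := by omega
    rw [e0]
    unfold cc
    have e : |(((K : ℕ) : ℤ) - ((K - 1 - j : ℕ) : ℤ))| = ((j + 1 : ℕ) : ℤ) := by
      rw [abs_of_nonneg (by omega)]
      omega
    rw [e]
    push_cast
    field_simp
  rw [h1, Finset.sum_range_add, h3, Finset.sum_range_succ', add_zero, h0, add_zero,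
    Finset.sum_congr rfl fun j _ => h2 j, ← Finset.sum_add_distrib]
  refine Finset.sum_congr rfl fun j _ => ?_
  ring

/-- The sum of `2 ^ v₂(j) / j`. -/
theorem two_sum (K : ℕ) : ∑ i ∈ range K, (2 : ℝ) ^ padicValNat 2 (i + 1) / ((i + 1 : ℕ) : ℝ) ≤
    ((Nat.log 2 K : ℕ) + 1) * ((harmonic K : ℚ) : ℝ) := by
  have h1 : ∀ i ∈ range K, (2 : ℝ) ^ padicValNat 2 (i + 1) / ((i + 1 : ℕ) : ℝ) ≤
      ∑ a ∈ range (Nat.log 2 K + 1), if 2 ^ a ∣ i + 1 then (2 : ℝ) ^ a / ((i + 1 : ℕ) : ℝ) else 0 := by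
    intro i hi
    rw [mem_range] at hi
    have h2 : 2 ^ padicValNat 2 (i + 1) ∣ i + 1 := pow_padicValNat_dvd
    have h3 : padicValNat 2 (i + 1) ∈ range (Nat.log 2 K + 1) := by
      rw [mem_range, Nat.lt_succ_iff]
      apply Nat.le_log_of_pow_le (by norm_num)
      exact (Nat.le_of_dvd (by omega) h2).trans (by omega)
    have h4 := Finset.single_le_sum (f := fun a => if 2 ^ a ∣ i + 1 then (2 : ℝ) ^ a / ((i + 1 : ℕ) : ℝ) else 0)
      (fun a _ => by
        split_ifs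
        · positivity
        · exact le_rfl) h3
    rwa [if_pos h2] at h4
  refine (Finset.sum_le_sum h1).trans ?_
  rw [Finset.sum_comm]
  have h2 : ∀ a ∈ range (Nat.log 2 K + 1),
      (∑ i ∈ range K, if 2 ^ a ∣ i + 1 then (2 : ℝ) ^ a / ((i + 1 : ℕ) : ℝ) else 0) ≤
        ((harmonic K : ℚ) : ℝ) := by
    intro a _
    have hH : ((harmonic K : ℚ) : ℝ) = ∑ m ∈ range K, (((m + 1 : ℕ) : ℝ))⁻¹ := by
      unfold harmonic
      push_cast
      rfl
    rw [← Finset.sum_filter, hH]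
    have hp : 0 < 2 ^ a := by positivity
    have h3 : ∀ i ∈ (range K).filter (fun i => 2 ^ a ∣ i + 1),
        (2 : ℝ) ^ a / ((i + 1 : ℕ) : ℝ) = ((((i + 1) / 2 ^ a - 1 + 1 : ℕ) : ℝ))⁻¹ := by
      intro i hi
      rw [mem_filter, mem_range] at hi
      obtain ⟨c, hc⟩ := hi.2
      have hc0 : 0 < c := by
        rcases Nat.eq_zero_or_pos c with h | h
        · rw [h] at hc
          omega
        · exact h
      rw [hc, Nat.mul_div_cancel_left _ hp]
      have e : c - 1 + 1 = c := by omega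
      rw [e]
      have : (c : ℝ) ≠ 0 := by exact_mod_cast hc0.ne'
      push_cast
      field_simp
    rw [Finset.sum_congr rfl h3]
    have hinj : Set.InjOn (fun i => (i + 1) / 2 ^ a - 1) ((range K).filter (fun i => 2 ^ a ∣ i + 1) : Finset ℕ) := by
      intro i hi i' hi' h
      rw [Finset.mem_coe, mem_filter] at hi hi'
      obtain ⟨c, hc⟩ := hi.2
      obtain ⟨c', hc'⟩ := hi'.2
      have h' : (i + 1) / 2 ^ a - 1 = (i' + 1) / 2 ^ a - 1 := h
      rw [hc, hc', Nat.mul_div_cancel_left _ hp, Nat.mul_div_cancel_left _ hp] at h'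
      have hc0 : 0 < c := by
        rcases Nat.eq_zero_or_pos c with h | h
        · rw [h] at hc
          omega
        · exact h
      have hc0' : 0 < c' := by
        rcases Nat.eq_zero_or_pos c' with h | h
        · rw [h] at hc'
          omega
        · exact h
      have : c = c' := by omega
      rw [this] at hc
      omega
    have h4 := Finset.sum_image (s := (range K).filter (fun i => 2 ^ a ∣ i + 1))
      (g := fun i => (i + 1) / 2 ^ a - 1) (f := fun m => (((m + 1 : ℕ) : ℝ))⁻¹) hinj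
    rw [← h4]
    refine Finset.sum_le_sum_of_subset_of_nonneg ?_ fun m _ _ => by positivity
    intro m hm
    rw [mem_image] at hm
    obtain ⟨i, hi, rfl⟩ := hm
    rw [mem_filter, mem_range] at hi
    rw [mem_range]
    have := Nat.div_le_self (i + 1) (2 ^ a)
    omega
  refine (Finset.sum_le_sum h2).trans (le_of_eq ?_)
  rw [Finset.sum_const, card_range, nsmul_eq_mul]
  push_cast
  ring

open Classical in
/-- If the exponential sums are small then the points are equidistributed. -/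
theorem arc_disc_gen {N : ℕ} (hN : 1 ≤ N) (I : Finset ℕ) (y : ℕ → ℝ)
    (hE : EE ((10 * N) ^ 3) I y ≤ ww ((10 * N) ^ 3) ((10 * N) ^ 3) * ((I.card : ℝ) / (10 * N : ℕ)))
    {θ ℓ : ℝ} (h0 : 0 ≤ ℓ) (h1 : ℓ ≤ 1) :
    |((I.filter fun n => ∃ a : ℤ, θ ≤ y n - a ∧ y n - a ≤ θ + ℓ).card : ℝ) - ℓ * I.card| ≤ I.card / N := by
  set R : ℕ := 10 * N with hR
  have hR10 : 10 ≤ R := by omega
  have hR2 : 2 ≤ R := by omega
  have hRr : (10 : ℝ) ≤ R := by exact_mod_cast hR10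
  have hRp : (0 : ℝ) < R := by linarith
  have hNp : (0 : ℝ) < N := by
    have : 0 < N := by omega
    exact_mod_cast this
  have hRN : (R : ℝ) = 10 * N := by
    rw [hR]
    push_cast
    ring
  set L : ℝ := (I.card : ℝ) with hL
  have hL0 : (0 : ℝ) ≤ L := by positivity
  have hWp := ww_mid_pos hR2
  set W := ww (R ^ 3) (R ^ 3) with hW
  set arc : ℝ → ℝ → ℝ := fun θ ℓ => ((I.filter fun n => ∃ a : ℤ, θ ≤ y n - a ∧ y n - a ≤ θ + ℓ).card : ℝ)
    with harc
  have up : ∀ θ ℓ : ℝ, 0 ≤ ℓ → ℓ ≤ 1 → arc θ ℓ ≤ ℓ * L + L / N := by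
    intro θ ℓ h0 h1
    have h2 := arc_le hR2 I y θ ℓ h0
    rw [← hW, ← hL] at h2
    change W * ((1 - 1 / (R : ℝ)) * arc θ ℓ) ≤ W * ((ℓ + 3 / R) * L) + EE (R ^ 3) I y at h2
    have h3 : W * ((1 - 1 / (R : ℝ)) * arc θ ℓ) ≤ W * ((ℓ + 4 / R) * L) := by
      refine h2.trans ?_
      have e : W * ((ℓ + 4 / (R : ℝ)) * L) = W * ((ℓ + 3 / R) * L) + W * (L / R) := by ring
      rw [e]
      linarith
    have h4 := le_of_mul_le_mul_left h3 hWp
    have h5 : (ℓ + 4 / (R : ℝ)) * L ≤ (1 - 1 / R) * (ℓ * L + L / N) := by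
      have e1 : (L : ℝ) / N = 10 / R * L := by
        rw [hRN]
        field_simp
      rw [e1]
      set t := 1 / (R : ℝ) with ht
      have ht0 : 0 < t := by positivity
      have ht1 : t ≤ 1 / 10 := one_div_le_one_div_of_le (by norm_num) hRr
      have e2 : 4 / (R : ℝ) = 4 * t := by rw [ht]; ring
      have e3 : 10 / (R : ℝ) = 10 * t := by rw [ht]; ring
      rw [e2, e3]
      have e4 : (1 - t) * (ℓ * L + 10 * t * L) - (ℓ + 4 * t) * L = t * L * (6 - ℓ - 10 * t) := by ring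
      have h6 : 0 ≤ t * L * (6 - ℓ - 10 * t) := by
        apply mul_nonneg (mul_nonneg ht0.le hL0)
        linarith
      linarith
    have h6 := h4.trans h5
    have h7 : 0 < 1 - 1 / (R : ℝ) := by
      have ht1 : 1 / (R : ℝ) ≤ 1 / 10 := one_div_le_one_div_of_le (by norm_num) hRr
      linarith
    exact le_of_mul_le_mul_left h6 h7
  have h2 := up θ ℓ h0 h1
  have h3 := up (θ + ℓ) (1 - ℓ) (by linarith) (by linarith)
  have h4 : L ≤ arc θ ℓ + arc (θ + ℓ) (1 - ℓ) := by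
    have h5 : I ⊆
        (I.filter fun n => ∃ a : ℤ, θ ≤ y n - a ∧ y n - a ≤ θ + ℓ) ∪
        (I.filter fun n => ∃ a : ℤ, θ + ℓ ≤ y n - a ∧ y n - a ≤ θ + ℓ + (1 - ℓ)) := by
      intro n hn
      rw [mem_union, mem_filter, mem_filter]
      have h6 := Int.floor_le (y n - θ)
      have h7 := Int.lt_floor_add_one (y n - θ)
      rcases le_total (y n - ⌊y n - θ⌋) (θ + ℓ) with h | h
      · left
        exact ⟨hn, ⌊y n - θ⌋, by linarith, h⟩
      · right
        exact ⟨hn, ⌊y n - θ⌋, h, by linarith⟩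
    have h6 := (Finset.card_le_card h5).trans (Finset.card_union_le _ _)
    rw [hL, harc]
    dsimp only
    exact_mod_cast h6
  change |arc θ ℓ - ℓ * L| ≤ L / N
  rw [abs_le]
  constructor
  · linarith
  · linarith

end Pool.Agent.Lib.MP_de5eaa_nt.Near
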