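import Pool.Agent.Lib.MP_de5eaa_nt.Near.O2
import Pool.Agent.Lib.MP_de5eaa_nt.Near.O3

/-! The exceptional orders. -/

set_option autoImplicit false

namespace Pool.Agent.Lib.MP_de5eaa_nt.Near

open Finset Filter Topology

theorem not_dvd_int {j : ℤ} (hj : j ≠ 0) : ¬ (2 : ℤ) ^ (padicValNat 2 j.natAbs + 1) ∣ j := by
  intro h
  have h1 : 2 ^ (padicValNat 2 j.natAbs + 1) ∣ j.natAbs := by
    have h2 := Int.natAbs_dvd_natAbs.2 h
    rwa [Int.natAbs_pow] at h2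
  exact pow_succ_padicValNat_not_dvd (Int.natAbs_ne_zero.2 hj) h1

/-- the second moment over the orders of the weighted mean of the exponential sums -/
theorem EE_moment (K : ℕ) {F : Finset ℕ} (hF : ∀ n ∈ F, 1 ≤ n) :
    ∀ᶠ x : ℕ in atTop, ∑ n ∈ F, EE K (pr x) (fun p => yy p n) ^ 2 ≤
      (ww K K * ((harmonic K : ℚ) : ℝ)) *
        (9 * ww K K * (((Nat.log 2 K : ℕ) + 1) * ((harmonic K : ℚ) : ℝ)) * (ppi x : ℝ) ^ 2) := by
  set W := ww K K with hW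
  have hW0 : 0 ≤ W := ww_nonneg _ _
  set H := ((harmonic K : ℚ) : ℝ) with hH
  have hH0 : 0 ≤ H := by
    rw [hH, ← cc_sum]
    exact Finset.sum_nonneg fun k _ => cc_nonneg _ _
  set s := (range (2 * K + 1)).erase K with hs
  set g : ℕ → ℝ := fun i => (2 : ℝ) ^ padicValNat 2 i with hg
  have h1 : ∀ᶠ x : ℕ in atTop, ∀ k ∈ s, ∑ n ∈ F, ‖BB ((k : ℤ) - (K : ℕ)) n x‖ ^ 2 ≤
      (8 * g (((K : ℕ) : ℤ) - (k : ℤ)).natAbs + 1) * (ppi x : ℝ) ^ 2 := by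
    rw [Filter.eventually_all_finset]
    intro k hk
    rw [hs, mem_erase] at hk
    have hne : ((k : ℤ) - (K : ℕ) : ℤ) ≠ 0 := by
      have := hk.1
      omega
    have h2 := BB_moment (not_dvd_int hne) hF one_pos
    have e : ((k : ℤ) - (K : ℕ) : ℤ).natAbs = (((K : ℕ) : ℤ) - (k : ℤ)).natAbs := by omega
    rw [e] at h2
    exact h2
  filter_upwards [h1] with x hx
  have h2 : ∑ n ∈ F, EE K (pr x) (fun p => yy p n) ^ 2 ≤
      ∑ n ∈ F, (W * H) * ∑ k ∈ s, (ww K k * cc K k) * ‖BB ((k : ℤ) - (K : ℕ)) n x‖ ^ 2 :=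
    Finset.sum_le_sum fun n _ => EE_sq' K (pr x) (fun p => yy p n)
  refine h2.trans ?_
  rw [← Finset.mul_sum, Finset.sum_comm]
  apply mul_le_mul_of_nonneg_left _ (mul_nonneg hW0 hH0)
  have hP0 : (0 : ℝ) ≤ (ppi x : ℝ) ^ 2 := sq_nonneg _
  have h3 : ∀ k ∈ s, ∑ n ∈ F, (ww K k * cc K k) * ‖BB ((k : ℤ) - (K : ℕ)) n x‖ ^ 2 ≤
      (9 * W * (ppi x : ℝ) ^ 2) * (cc K k * g (((K : ℕ) : ℤ) - (k : ℤ)).natAbs) := by
    intro k hk
    rw [← Finset.mul_sum]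
    have h4 := mul_le_mul_of_nonneg_left (hx k hk) (mul_nonneg (ww_nonneg K k) (cc_nonneg K k))
    refine h4.trans ?_
    have hg1 : 1 ≤ g (((K : ℕ) : ℤ) - (k : ℤ)).natAbs := one_le_pow₀ (by norm_num)
    set G := g (((K : ℕ) : ℤ) - (k : ℤ)).natAbs with hG
    have h5 : (ww K k * cc K k) * ((8 * G + 1) * (ppi x : ℝ) ^ 2) ≤ (W * cc K k) * ((9 * G) * (ppi x : ℝ) ^ 2) := by
      have h6 : ww K k * cc K k ≤ W * cc K k := mul_le_mul_of_nonneg_right (ww_le K k) (cc_nonneg K k)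
      have h7 : (8 * G + 1) * (ppi x : ℝ) ^ 2 ≤ (9 * G) * (ppi x : ℝ) ^ 2 :=
        mul_le_mul_of_nonneg_right (by linarith) hP0
      exact mul_le_mul h6 h7 (by positivity) (mul_nonneg hW0 (cc_nonneg K k))
    refine h5.trans (le_of_eq ?_)
    ring
  refine (Finset.sum_le_sum h3).trans ?_
  rw [← Finset.mul_sum, cc_sum' K g]
  have h4 := two_sum K
  have h5 : ∑ i ∈ range K, g (i + 1) / ((i + 1 : ℕ) : ℝ) ≤ ((Nat.log 2 K : ℕ) + 1) * H := h4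
  have h6 := mul_le_mul_of_nonneg_left h5 (show 0 ≤ 9 * W * (ppi x : ℝ) ^ 2 by positivity)
  refine h6.trans (le_of_eq ?_)
  ring

open Classical in
/-- The number of the exceptional orders. -/
theorem exc_orders {R : ℕ} (hR : 2 ≤ R) {F : Finset ℕ} (hF : ∀ n ∈ F, 1 ≤ n) :
    ∀ᶠ x : ℕ in atTop, ((F.filter fun n => ww (R ^ 3) (R ^ 3) * ((ppi x : ℝ) / R) <
      EE (R ^ 3) (pr x) (fun p => yy p n)).card : ℝ) ≤
        9 * (R : ℝ) ^ 2 * ((harmonic (R ^ 3) : ℚ) : ℝ) ^ 2 * ((Nat.log 2 (R ^ 3) : ℕ) + 1) := by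
  set K := R ^ 3 with hK
  have hRp : (0 : ℝ) < R := by
    have : 0 < R := by omega
    exact_mod_cast this
  set W := ww K K with hW
  have hWp : 0 < W := ww_mid_pos hR
  set H := ((harmonic K : ℚ) : ℝ) with hH
  filter_upwards [EE_moment K hF, eventually_ge_atTop 2] with x hx hx2
  have hpi : 0 < ppi x := by
    unfold ppi
    rw [Finset.card_pos]
    exact ⟨2, by rw [mem_filter, mem_range]; exact ⟨by omega, Nat.prime_two⟩⟩
  have hpi' : (0 : ℝ) < ppi x := by exact_mod_cast hpi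
  set E := F.filter fun n => W * ((ppi x : ℝ) / R) < EE K (pr x) (fun p => yy p n) with hE
  have h1 : (E.card : ℝ) * (W * ((ppi x : ℝ) / R)) ^ 2 ≤ ∑ n ∈ F, EE K (pr x) (fun p => yy p n) ^ 2 := by
    rw [← nsmul_eq_mul, ← Finset.sum_const]
    have h2 : ∑ _n ∈ E, (W * ((ppi x : ℝ) / R)) ^ 2 ≤ ∑ n ∈ E, EE K (pr x) (fun p => yy p n) ^ 2 := by
      refine Finset.sum_le_sum fun n hn => ?_
      rw [hE, mem_filter] at hn
      exact pow_le_pow_left₀ (by positivity) hn.2.le 2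
    exact h2.trans (Finset.sum_le_sum_of_subset_of_nonneg (Finset.filter_subset _ _) fun n _ _ => sq_nonneg _)
  have h2 := h1.trans hx
  have e1 : (E.card : ℝ) * (W * ((ppi x : ℝ) / R)) ^ 2 = (E.card : ℝ) * (W ^ 2 * (ppi x : ℝ) ^ 2 / R ^ 2) := by
    ring
  have e2 : (W * H) * (9 * W * (((Nat.log 2 K : ℕ) + 1) * H) * (ppi x : ℝ) ^ 2) =
      (9 * (R : ℝ) ^ 2 * H ^ 2 * ((Nat.log 2 K : ℕ) + 1)) * (W ^ 2 * (ppi x : ℝ) ^ 2 / R ^ 2) := by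
    field_simp
  rw [e1, e2] at h2
  exact le_of_mul_le_mul_right h2 (by positivity)

/-- the constant -/
theorem const_le {N : ℕ} (hN : 1 ≤ N) :
    9 * (((10 * N : ℕ) : ℝ)) ^ 2 * ((harmonic ((10 * N) ^ 3) : ℚ) : ℝ) ^ 2 *
      ((Nat.log 2 ((10 * N) ^ 3) : ℕ) + 1) ≤ 700000 * ((N : ℝ) ^ 2 * (1 + Real.log N) ^ 3) := by
  have hNp : (1 : ℝ) ≤ N := by exact_mod_cast hN
  have hlN : 0 ≤ Real.log N := Real.log_nonneg hNp
  have hl2 : 0.6931 < Real.log 2 := by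
    have := Real.log_two_gt_d9
    linarith
  have hl2' : Real.log 2 < 0.6932 := by
    have := Real.log_two_lt_d9
    linarith
  have hl10 : 3 * Real.log 10 ≤ 10 * Real.log 2 := by
    have h1 : Real.log ((10 : ℝ) ^ 3) ≤ Real.log ((2 : ℝ) ^ 10) := Real.log_le_log (by norm_num) (by norm_num)
    rw [Real.log_pow, Real.log_pow] at h1
    push_cast at h1
    exact h1
  have hlK : Real.log (((10 * N) ^ 3 : ℕ) : ℝ) = 3 * Real.log 10 + 3 * Real.log N := by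
    push_cast
    rw [Real.log_pow, Real.log_mul (by norm_num) (by linarith)]
    push_cast
    ring
  have hH1 : ((harmonic ((10 * N) ^ 3) : ℚ) : ℝ) ≤ 8 * (1 + Real.log N) := by
    have h2 := harmonic_le_one_add_log ((10 * N) ^ 3)
    rw [hlK] at h2
    linarith
  have hH0 : 0 ≤ ((harmonic ((10 * N) ^ 3) : ℚ) : ℝ) := by
    rw [← cc_sum]
    exact Finset.sum_nonneg fun k _ => cc_nonneg _ _
  have hL1 : ((Nat.log 2 ((10 * N) ^ 3) : ℕ) : ℝ) + 1 ≤ 11 * (1 + Real.log N) := by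
    have h3 : 2 ^ Nat.log 2 ((10 * N) ^ 3) ≤ (10 * N) ^ 3 :=
      Nat.pow_log_le_self 2 (by positivity)
    have h4 : ((Nat.log 2 ((10 * N) ^ 3) : ℕ) : ℝ) * Real.log 2 ≤ Real.log (((10 * N) ^ 3 : ℕ) : ℝ) := by
      rw [← Real.log_pow]
      apply Real.log_le_log (by positivity)
      exact_mod_cast h3
    rw [hlK] at h4
    nlinarith
  have h5 : ((harmonic ((10 * N) ^ 3) : ℚ) : ℝ) ^ 2 ≤ (8 * (1 + Real.log N)) ^ 2 :=
    pow_le_pow_left₀ hH0 hH1 2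
  have h6 : ((harmonic ((10 * N) ^ 3) : ℚ) : ℝ) ^ 2 * (((Nat.log 2 ((10 * N) ^ 3) : ℕ) : ℝ) + 1) ≤
      (8 * (1 + Real.log N)) ^ 2 * (11 * (1 + Real.log N)) :=
    mul_le_mul h5 hL1 (by positivity) (by positivity)
  have h7 := mul_le_mul_of_nonneg_left h6 (show (0 : ℝ) ≤ 9 * (((10 * N : ℕ) : ℝ)) ^ 2 by positivity)
  have e1 : 9 * (((10 * N : ℕ) : ℝ)) ^ 2 * ((8 * (1 + Real.log N)) ^ 2 * (11 * (1 + Real.log N))) =
      633600 * ((N : ℝ) ^ 2 * (1 + Real.log N) ^ 3) := by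
    push_cast
    ring
  have h8 : 633600 * ((N : ℝ) ^ 2 * (1 + Real.log N) ^ 3) ≤ 700000 * ((N : ℝ) ^ 2 * (1 + Real.log N) ^ 3) :=
    mul_le_mul_of_nonneg_right (by norm_num) (by positivity)
  rw [e1] at h7
  calc _ = 9 * (((10 * N : ℕ) : ℝ)) ^ 2 * (((harmonic ((10 * N) ^ 3) : ℚ) : ℝ) ^ 2 *
        (((Nat.log 2 ((10 * N) ^ 3) : ℕ) : ℝ) + 1)) := by ring
    _ ≤ _ := h7
    _ ≤ _ := h8

open Classical in
/-- the number of the primes `p ≤ x` for which `wq n p / p` is in the arc `[θ, θ + ℓ]` modulo one -/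
theorem orders_main {N : ℕ} (hN : 1 ≤ N) {F : Finset ℕ} (hF : ∀ n ∈ F, 1 ≤ n) :
    ∀ᶠ x : ℕ in atTop, ((F.filter fun n => ∃ θ ℓ : ℝ, 0 ≤ ℓ ∧ ℓ ≤ 1 ∧ (ppi x : ℝ) / N <
      |(((pr x).filter fun p => ∃ a : ℤ, θ ≤ yy p n - a ∧ yy p n - a ≤ θ + ℓ).card : ℝ) - ℓ * ppi x|).card : ℝ) ≤
        10 ^ 6 * (N : ℝ) ^ 2 * (1 + Real.log N) ^ 3 := by
  filter_upwards [exc_orders (R := 10 * N) (by omega) hF] with x hx
  have hc : 700000 * ((N : ℝ) ^ 2 * (1 + Real.log N) ^ 3) ≤ 10 ^ 6 * (N : ℝ) ^ 2 * (1 + Real.log N) ^ 3 := by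
    have h1 : (0 : ℝ) ≤ (N : ℝ) ^ 2 * (1 + Real.log N) ^ 3 := by
      have : 0 ≤ Real.log N := Real.log_nonneg (by exact_mod_cast hN)
      positivity
    linarith
  refine le_trans ?_ (hx.trans ((const_le hN).trans hc))
  have h1 : (F.filter fun n => ∃ θ ℓ : ℝ, 0 ≤ ℓ ∧ ℓ ≤ 1 ∧ (ppi x : ℝ) / N <
      |(((pr x).filter fun p => ∃ a : ℤ, θ ≤ yy p n - a ∧ yy p n - a ≤ θ + ℓ).card : ℝ) - ℓ * ppi x|) ⊆
      F.filter fun n => ww ((10 * N) ^ 3) ((10 * N) ^ 3) * ((ppi x : ℝ) / (10 * N : ℕ)) <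
        EE ((10 * N) ^ 3) (pr x) (fun p => yy p n) := by
    intro n hn
    rw [mem_filter] at hn ⊢
    refine ⟨hn.1, ?_⟩
    obtain ⟨θ, ℓ, h0, h1, h2⟩ := hn.2
    by_contra hcon
    rw [not_lt] at hcon
    have h3 := arc_disc_gen hN (pr x) (fun p => yy p n) (by rw [pr_card]; exact hcon) (θ := θ) h0 h1
    rw [pr_card] at h3
    linarith
  exact_mod_cast Finset.card_le_card h1

end Pool.Agent.Lib.MP_de5eaa_nt.Near
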