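import Pool.Agent.Lib.MP_de5eaa_nt.Near.O4

/-! The exceptional primes, with the exact powers of two. -/

set_option autoImplicit false

namespace Pool.Agent.Lib.MP_de5eaa_nt.Near

open Finset Filter Topology
open Pool.Agent.Lib.MP_d9bc60_nt.TH (lam)

theorem moment_le' {j : ℤ} {t : ℕ} (hj : ¬ (2 : ℤ) ^ (t + 1) ∣ j) (M L : ℕ) :
    ∀ᶠ x : ℕ in atTop, (∑ p ∈ range (x + 1), lam p * ‖SS j M L p‖ ^ 2) / x ≤ (8 * 2 ^ t + 1) * L := by
  have hF : ∀ n ∈ Ioc M (M + L), 1 ≤ n := by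
    intro n hn
    rw [mem_Ioc] at hn
    omega
  filter_upwards [gram_row hj hF one_pos] with x hx
  have h2 := moment_eq j M L x
  have h3 : (∑ p ∈ range (x + 1), lam p * ‖SS j M L p‖ ^ 2) / x ≤
      ‖∑ n ∈ Ioc M (M + L), ∑ m ∈ Ioc M (M + L), TT j n m x‖ := by
    rw [← h2, Complex.norm_real, Real.norm_eq_abs]
    exact le_abs_self _
  refine h3.trans ((norm_sum_le _ _).trans ?_)
  have h4 : ∀ n ∈ Ioc M (M + L), ‖∑ m ∈ Ioc M (M + L), TT j n m x‖ ≤ 8 * 2 ^ t + 1 :=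
    fun n hn => (norm_sum_le _ _).trans (hx n hn)
  refine (Finset.sum_le_sum h4).trans (le_of_eq ?_)
  rw [Finset.sum_const, Nat.card_Ioc, Nat.add_sub_cancel_left, nsmul_eq_mul]
  ring

open Classical in
/-- The exceptional primes have small weight. -/
theorem exc_weight' {R : ℕ} (hR : 2 ≤ R) (M L : ℕ) (hL : 1 ≤ L) :
    ∀ᶠ x : ℕ in atTop, ∑ p ∈ (range (x + 1)).filter (fun p =>
        ww (R ^ 3) (R ^ 3) * (L / R) < EE (R ^ 3) (Ioc M (M + L)) (yy p)), lam p ≤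
      9 * (R : ℝ) ^ 2 * ((harmonic (R ^ 3) : ℚ) : ℝ) ^ 2 * ((Nat.log 2 (R ^ 3) : ℕ) + 1) / L * x := by
  set K := R ^ 3 with hK
  have hRp : (0 : ℝ) < R := by
    have : 0 < R := by omega
    exact_mod_cast this
  have hLp : (0 : ℝ) < L := by
    have : 0 < L := by omega
    exact_mod_cast this
  set W := ww K K with hW
  have hWp : 0 < W := ww_mid_pos hR
  set H := ((harmonic K : ℚ) : ℝ) with hH
  have hH0 : 0 ≤ H := by
    rw [hH, ← cc_sum]
    exact Finset.sum_nonneg fun k _ => cc_nonneg _ _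
  set s := (range (2 * K + 1)).erase K with hs
  set g : ℕ → ℝ := fun i => (2 : ℝ) ^ padicValNat 2 i with hg
  have h1 : ∀ᶠ x : ℕ in atTop, ∀ k ∈ s, (∑ p ∈ range (x + 1), lam p * ‖SS ((k : ℤ) - (K : ℕ)) M L p‖ ^ 2) / x ≤
      (8 * g (((K : ℕ) : ℤ) - (k : ℤ)).natAbs + 1) * L := by
    rw [Filter.eventually_all_finset]
    intro k hk
    rw [hs, mem_erase] at hk
    have hne : ((k : ℤ) - (K : ℕ) : ℤ) ≠ 0 := by
      have := hk.1
      omega
    have h2 := moment_le' (not_dvd_int hne) M L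
    have e : ((k : ℤ) - (K : ℕ) : ℤ).natAbs = (((K : ℕ) : ℤ) - (k : ℤ)).natAbs := by omega
    rw [e] at h2
    exact h2
  filter_upwards [h1, eventually_gt_atTop 0] with x hx hx0
  have hxp : (0 : ℝ) < x := by exact_mod_cast hx0
  set P := (range (x + 1)).filter (fun p => W * (L / R) < EE K (Ioc M (M + L)) (yy p)) with hP
  set X : ℝ := ∑ p ∈ P, lam p with hX
  have h2 : (W * (L / R)) ^ 2 * X ≤ ∑ p ∈ range (x + 1), lam p * EE K (Ioc M (M + L)) (yy p) ^ 2 := by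
    rw [hX, Finset.mul_sum]
    have h3 : ∑ p ∈ P, (W * (L / R)) ^ 2 * lam p ≤ ∑ p ∈ P, lam p * EE K (Ioc M (M + L)) (yy p) ^ 2 := by
      refine Finset.sum_le_sum fun p hp => ?_
      rw [hP, mem_filter] at hp
      rw [mul_comm]
      exact mul_le_mul_of_nonneg_left (pow_le_pow_left₀ (by positivity) hp.2.le 2) (lam_nonneg p)
    refine h3.trans (Finset.sum_le_sum_of_subset_of_nonneg (Finset.filter_subset _ _) fun p _ _ => ?_)
    exact mul_nonneg (lam_nonneg p) (sq_nonneg _)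
  have h3 : ∑ p ∈ range (x + 1), lam p * EE K (Ioc M (M + L)) (yy p) ^ 2 ≤
      (W * H) * (9 * W * (((Nat.log 2 K : ℕ) + 1) * H) * (L * x)) := by
    have h4 : ∑ p ∈ range (x + 1), lam p * EE K (Ioc M (M + L)) (yy p) ^ 2 ≤
        ∑ p ∈ range (x + 1), (W * H) *
          ∑ k ∈ s, (ww K k * cc K k) * (lam p * ‖SS ((k : ℤ) - (K : ℕ)) M L p‖ ^ 2) := by
      refine Finset.sum_le_sum fun p _ => ?_
      refine (mul_le_mul_of_nonneg_left (EE_sq K M L p) (lam_nonneg p)).trans (le_of_eq ?_)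
      rw [mul_left_comm, Finset.mul_sum]
      congr 1
      refine Finset.sum_congr rfl fun k _ => ?_
      ring
    refine h4.trans ?_
    rw [← Finset.mul_sum, Finset.sum_comm]
    apply mul_le_mul_of_nonneg_left _ (mul_nonneg hWp.le hH0)
    have h5 : ∀ k ∈ s, ∑ p ∈ range (x + 1), (ww K k * cc K k) * (lam p * ‖SS ((k : ℤ) - (K : ℕ)) M L p‖ ^ 2) ≤
        (9 * W * (L * x)) * (cc K k * g (((K : ℕ) : ℤ) - (k : ℤ)).natAbs) := by
      intro k hk
      rw [← Finset.mul_sum]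
      have h6 := hx k hk
      rw [div_le_iff₀ hxp] at h6
      have h7 := mul_le_mul_of_nonneg_left h6 (mul_nonneg (ww_nonneg K k) (cc_nonneg K k))
      refine h7.trans ?_
      have hg1 : 1 ≤ g (((K : ℕ) : ℤ) - (k : ℤ)).natAbs := one_le_pow₀ (by norm_num)
      set G := g (((K : ℕ) : ℤ) - (k : ℤ)).natAbs with hG
      have h8 : (ww K k * cc K k) * ((8 * G + 1) * L * x) ≤ (W * cc K k) * ((9 * G) * L * x) := by
        have h9 : ww K k * cc K k ≤ W * cc K k := mul_le_mul_of_nonneg_right (ww_le K k) (cc_nonneg K k)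
        have h10 : (8 * G + 1) * L * x ≤ (9 * G) * L * x :=
          mul_le_mul_of_nonneg_right (mul_le_mul_of_nonneg_right (by linarith) hLp.le) hxp.le
        exact mul_le_mul h9 h10 (by positivity) (mul_nonneg hWp.le (cc_nonneg K k))
      refine h8.trans (le_of_eq ?_)
      ring
    refine (Finset.sum_le_sum h5).trans ?_
    rw [← Finset.mul_sum, cc_sum' K g]
    have h6 : ∑ i ∈ range K, g (i + 1) / ((i + 1 : ℕ) : ℝ) ≤ ((Nat.log 2 K : ℕ) + 1) * H := two_sum K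
    have h7 := mul_le_mul_of_nonneg_left h6 (show 0 ≤ 9 * W * (L * x) by positivity)
    refine h7.trans (le_of_eq ?_)
    ring
  have h4 := h2.trans h3
  have e1 : (W * (L / R)) ^ 2 * X = X * (W ^ 2 * (L : ℝ) ^ 2 / R ^ 2) := by ring
  have e2 : (W * H) * (9 * W * (((Nat.log 2 K : ℕ) + 1) * H) * (L * x)) =
      (9 * (R : ℝ) ^ 2 * H ^ 2 * ((Nat.log 2 K : ℕ) + 1) / L * x) * (W ^ 2 * (L : ℝ) ^ 2 / R ^ 2) := by
    field_simp
  rw [e1, e2] at h4
  exact le_of_mul_le_mul_right h4 (by positivity)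

open Classical in
theorem count_of_weight' {P : ℕ → Prop} {C : ℝ} (hC : 0 < C)
    (h : ∀ᶠ x : ℕ in atTop, ∑ p ∈ (range (x + 1)).filter P, lam p ≤ C * x) :
    ∀ᶠ x : ℕ in atTop, ((((range (x + 1)).filter fun p => p.Prime ∧ P p).card : ℕ) : ℝ) ≤
      5 / 4 * C * ppi x := by
  have h1 : ∀ᶠ x : ℕ in atTop, (99 / 100 : ℝ) < th x / x := th_tendsto.eventually (lt_mem_nhds (by norm_num))
  have h2 : ∀ᶠ x : ℕ in atTop, (x : ℝ) ^ (9 / 10 : ℝ) * Real.log x ≤ C / 20 * x := by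
    have h3 := (isLittleO_log_rpow_atTop (r := 1 / 10) (by norm_num)).bound (show 0 < C / 20 by positivity)
    have h4 := (tendsto_natCast_atTop_atTop (R := ℝ)).eventually h3
    filter_upwards [h4, eventually_ge_atTop 1] with x hx hx1
    have hx1' : (1 : ℝ) ≤ x := by exact_mod_cast hx1
    rw [Real.norm_eq_abs, abs_of_nonneg (Real.log_nonneg hx1'), Real.norm_eq_abs,
      abs_of_nonneg (Real.rpow_nonneg (by positivity) _)] at hx
    have h5 := mul_le_mul_of_nonneg_left hx (Real.rpow_nonneg (show (0 : ℝ) ≤ x by positivity) (9 / 10))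
    refine h5.trans (le_of_eq ?_)
    rw [mul_left_comm, ← Real.rpow_add (by linarith)]
    norm_num
  filter_upwards [h, h1, h2, eventually_ge_atTop 2] with x hx1 hx2 hx3 hx4
  have hx4' : (2 : ℝ) ≤ x := by exact_mod_cast hx4
  have hlog : 0 < Real.log x := Real.log_pos (by linarith)
  set y : ℝ := (x : ℝ) ^ (9 / 10 : ℝ) with hy
  have hy0 : 0 ≤ y := Real.rpow_nonneg (by linarith) _
  have hlogy : Real.log y = 9 / 10 * Real.log x := Real.log_rpow (by linarith) _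
  set A := (range (x + 1)).filter fun p => p.Prime ∧ P p with hA
  -- the large ones
  have h3 : (A.card : ℝ) ≤ y + (A.filter fun p : ℕ => y < (p : ℝ)).card := by
    have h4 : A.card = (A.filter fun p : ℕ => y < (p : ℝ)).card + (A.filter fun p : ℕ => ¬ y < (p : ℝ)).card :=
      (Finset.card_filter_add_card_filter_not _).symm
    have h5 : (A.filter fun p : ℕ => ¬ y < (p : ℝ)).card ≤ ⌊y⌋₊ := by
      have h6 : (A.filter fun p : ℕ => ¬ y < (p : ℝ)) ⊆ Ioc 0 ⌊y⌋₊ := by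
        intro p hp
        rw [mem_filter, hA, mem_filter] at hp
        rw [mem_Ioc]
        exact ⟨hp.1.2.1.pos, Nat.le_floor (not_lt.1 hp.2)⟩
      have h7 := Finset.card_le_card h6
      rwa [Nat.card_Ioc, Nat.sub_zero] at h7
    have h6 : ((⌊y⌋₊ : ℕ) : ℝ) ≤ y := Nat.floor_le hy0
    have h7 : (((A.filter fun p : ℕ => ¬ y < (p : ℝ)).card : ℕ) : ℝ) ≤ ((⌊y⌋₊ : ℕ) : ℝ) := by exact_mod_cast h5
    rw [h4]
    push_cast
    linarith
  have h4 : ((A.filter fun p : ℕ => y < (p : ℝ)).card : ℝ) * (9 / 10 * Real.log x) ≤ C * x := by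
    refine le_trans ?_ hx1
    rw [← nsmul_eq_mul, ← Finset.sum_const]
    have h5 : ∑ _p ∈ A.filter (fun p : ℕ => y < (p : ℝ)), 9 / 10 * Real.log x ≤
        ∑ p ∈ A.filter (fun p : ℕ => y < (p : ℝ)), lam p := by
      refine Finset.sum_le_sum fun p hp => ?_
      rw [mem_filter, hA, mem_filter] at hp
      rw [lam_prime hp.1.2.1, ← hlogy]
      apply Real.log_le_log _ hp.2.le
      exact Real.rpow_pos_of_pos (by linarith) _
    refine h5.trans (Finset.sum_le_sum_of_subset_of_nonneg ?_ fun p _ _ => lam_nonneg p)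
    intro p hp
    rw [mem_filter, hA, mem_filter] at hp
    rw [mem_filter]
    exact ⟨hp.1.1, hp.1.2.2⟩
  have h5 : (99 / 100 : ℝ) * x < ppi x * Real.log x := by
    rw [lt_div_iff₀ (by linarith)] at hx2
    exact lt_of_lt_of_le hx2 (th_le x)
  have h6 : (A.card : ℝ) * Real.log x ≤ 5 / 4 * C * ppi x * Real.log x := by
    have h7 : (A.card : ℝ) * Real.log x ≤ (y + (A.filter fun p : ℕ => y < (p : ℝ)).card) * Real.log x :=
      mul_le_mul_of_nonneg_right h3 hlog.le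
    have h8 : C * ((99 / 100 : ℝ) * x) ≤ C * (ppi x * Real.log x) := mul_le_mul_of_nonneg_left h5.le hC.le
    nlinarith
  exact le_of_mul_le_mul_right h6 hlog

/-- **Theorem.** -/
theorem equidistribution' {N : ℕ} (hN : 1 ≤ N) (M : ℕ) {L : ℕ} (hL : 1 ≤ L) :
    ∃ X : ℕ, ∀ x, X ≤ x →
      (Nat.card {p : ℕ // p.Prime ∧ p ≤ x ∧ ∃ θ ℓ : ℝ, 0 ≤ ℓ ∧ ℓ ≤ 1 ∧ (L : ℝ) / N < |(arc M L p θ ℓ : ℝ) - ℓ * L|} : ℝ) ≤
        10 ^ 6 * (N : ℝ) ^ 2 * (1 + Real.log N) ^ 3 / L * (Nat.card {p : ℕ // p.Prime ∧ p ≤ x}) := by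
  classical
  have hLp : (0 : ℝ) < L := by
    have : 0 < L := by omega
    exact_mod_cast this
  have hNp : (1 : ℝ) ≤ N := by exact_mod_cast hN
  have hlN : 0 ≤ Real.log N := Real.log_nonneg hNp
  set C : ℝ := 700000 * ((N : ℝ) ^ 2 * (1 + Real.log N) ^ 3) / L with hC
  have h1 := exc_weight' (R := 10 * N) (by omega) M L hL
  have h2 := count_of_weight' (P := fun p => ww ((10 * N) ^ 3) ((10 * N) ^ 3) * (L / (10 * N : ℕ)) <
    EE ((10 * N) ^ 3) (Ioc M (M + L)) (yy p)) (C := C) (by positivity) (by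
      filter_upwards [h1] with x hx
      refine hx.trans ?_
      rw [hC]
      exact mul_le_mul_of_nonneg_right (div_le_div_of_nonneg_right (const_le hN) hLp.le) (Nat.cast_nonneg x))
  obtain ⟨X, hX⟩ := eventually_atTop.1 h2
  refine ⟨X, fun x hx => ?_⟩
  have h3 := hX x hx
  have e1 : Nat.card {p : ℕ // p.Prime ∧ p ≤ x} = ppi x := by
    unfold ppi
    refine Nat.subtype_card _ fun p => ?_
    rw [mem_filter, mem_range, Nat.lt_succ_iff, and_comm]
  have e2 : 5 / 4 * C ≤ 10 ^ 6 * (N : ℝ) ^ 2 * (1 + Real.log N) ^ 3 / L := by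
    rw [hC, ← mul_div_assoc]
    apply div_le_div_of_nonneg_right _ hLp.le
    have h4 : (0 : ℝ) ≤ (N : ℝ) ^ 2 * (1 + Real.log N) ^ 3 := by positivity
    linarith
  rw [e1]
  refine le_trans ?_ (h3.trans (mul_le_mul_of_nonneg_right e2 (Nat.cast_nonneg _)))
  set A := (range (x + 1)).filter fun p => p.Prime ∧ ww ((10 * N) ^ 3) ((10 * N) ^ 3) * (L / (10 * N : ℕ)) <
    EE ((10 * N) ^ 3) (Ioc M (M + L)) (yy p) with hA
  have h4 : Nat.card {p : ℕ // p.Prime ∧ p ≤ x ∧ ∃ θ ℓ : ℝ, 0 ≤ ℓ ∧ ℓ ≤ 1 ∧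
      (L : ℝ) / N < |(arc M L p θ ℓ : ℝ) - ℓ * L|} ≤ A.card := by
    have h5 : Nat.card {p : ℕ // p.Prime ∧ p ≤ x ∧ ∃ θ ℓ : ℝ, 0 ≤ ℓ ∧ ℓ ≤ 1 ∧
        (L : ℝ) / N < |(arc M L p θ ℓ : ℝ) - ℓ * L|} =
        ((range (x + 1)).filter fun p => p.Prime ∧ p ≤ x ∧ ∃ θ ℓ : ℝ, 0 ≤ ℓ ∧ ℓ ≤ 1 ∧
          (L : ℝ) / N < |(arc M L p θ ℓ : ℝ) - ℓ * L|).card := by
      refine Nat.subtype_card _ fun p => ?_
      rw [mem_filter, mem_range, Nat.lt_succ_iff]
      tauto
    rw [h5]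
    refine Finset.card_le_card fun p hp => ?_
    rw [mem_filter] at hp
    rw [hA, mem_filter]
    refine ⟨hp.1, hp.2.1, ?_⟩
    by_contra h6
    rw [not_lt] at h6
    obtain ⟨θ, ℓ, h7, h8, h9⟩ := hp.2.2.2
    exact absurd (arc_discrepancy hN h6 h7 h8) (not_le.2 h9)
  exact_mod_cast h4

end Pool.Agent.Lib.MP_de5eaa_nt.Near
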