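import Pool.Agent.Lib.MP_de5eaa_nt.Near.O2

/-! The large sieve inequality for the Wilson quotients: any set of primes. -/

set_option autoImplicit false

namespace Pool.Agent.Lib.MP_de5eaa_nt.Near

open Finset Filter Topology
open Pool.Agent.Lib.MP_d9bc60_nt.TH (lam)

/-- The duality principle with coefficients of modulus at most one. -/
theorem dual_bound_coeff {ι κ : Type*} (I : Finset ι) (P : Finset κ) (w : κ → ℝ) (hw : ∀ p ∈ P, 0 ≤ w p)
    (a : κ → ℂ) (ha : ∀ p ∈ P, ‖a p‖ ≤ 1) (b : ι → κ → ℂ) {C : ℝ} (hC0 : 0 ≤ C)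
    (hC : ∀ n ∈ I, ∑ m ∈ I, ‖∑ p ∈ P, (w p : ℂ) * (b n p * (starRingEnd ℂ) (b m p))‖ ≤ C) :
    ∑ n ∈ I, ‖∑ p ∈ P, (w p : ℂ) * (a p * b n p)‖ ^ 2 ≤ C * ∑ p ∈ P, w p := by
  set S : ι → ℂ := fun n => ∑ p ∈ P, (w p : ℂ) * (a p * b n p) with hS
  set Q : κ → ℂ := fun p => ∑ n ∈ I, (starRingEnd ℂ) (S n) * b n p with hQ
  set G : ι → ι → ℂ := fun n m => ∑ p ∈ P, (w p : ℂ) * (b n p * (starRingEnd ℂ) (b m p)) with hG
  set T : ℝ := ∑ n ∈ I, ‖S n‖ ^ 2 with hT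
  have hT0 : 0 ≤ T := Finset.sum_nonneg fun n _ => sq_nonneg _
  have hW0 : 0 ≤ ∑ p ∈ P, w p := Finset.sum_nonneg hw
  have nsq : ∀ z : ℂ, ((‖z‖ ^ 2 : ℝ) : ℂ) = (starRingEnd ℂ) z * z := by
    intro z
    rw [mul_comm, Complex.mul_conj, Complex.normSq_eq_norm_sq]
  have h1 : ((T : ℝ) : ℂ) = ∑ p ∈ P, (w p : ℂ) * (a p * Q p) := by
    rw [hT, Complex.ofReal_sum]
    have e1 : ∀ n ∈ I, ((‖S n‖ ^ 2 : ℝ) : ℂ) =
        ∑ p ∈ P, (w p : ℂ) * (a p * ((starRingEnd ℂ) (S n) * b n p)) := by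
      intro n _
      rw [nsq, hS]
      dsimp only
      rw [Finset.mul_sum]
      refine Finset.sum_congr rfl fun p _ => ?_
      ring
    rw [Finset.sum_congr rfl e1, Finset.sum_comm]
    refine Finset.sum_congr rfl fun p _ => ?_
    rw [hQ]
    dsimp only
    rw [Finset.mul_sum, Finset.mul_sum]
  have h2 : T ≤ ∑ p ∈ P, w p * ‖Q p‖ := by
    have e1 : T = ‖((T : ℝ) : ℂ)‖ := by rw [Complex.norm_real, Real.norm_eq_abs, abs_of_nonneg hT0]
    rw [e1, h1]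
    refine (norm_sum_le _ _).trans (Finset.sum_le_sum fun p hp => ?_)
    rw [norm_mul, norm_mul, Complex.norm_real, Real.norm_eq_abs, abs_of_nonneg (hw p hp)]
    apply mul_le_mul_of_nonneg_left _ (hw p hp)
    calc ‖a p‖ * ‖Q p‖ ≤ 1 * ‖Q p‖ := mul_le_mul_of_nonneg_right (ha p hp) (norm_nonneg _)
      _ = ‖Q p‖ := one_mul _
  have h3 : (∑ p ∈ P, w p * ‖Q p‖) ^ 2 ≤ (∑ p ∈ P, w p) * ∑ p ∈ P, w p * ‖Q p‖ ^ 2 := by
    have h4 := Finset.sum_mul_sq_le_sq_mul_sq P (fun p => Real.sqrt (w p)) (fun p => Real.sqrt (w p) * ‖Q p‖)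
    have e1 : ∑ p ∈ P, Real.sqrt (w p) * (Real.sqrt (w p) * ‖Q p‖) = ∑ p ∈ P, w p * ‖Q p‖ :=
      Finset.sum_congr rfl fun p hp => by rw [← mul_assoc, Real.mul_self_sqrt (hw p hp)]
    have e2 : ∑ p ∈ P, Real.sqrt (w p) ^ 2 = ∑ p ∈ P, w p :=
      Finset.sum_congr rfl fun p hp => Real.sq_sqrt (hw p hp)
    have e3 : ∑ p ∈ P, (Real.sqrt (w p) * ‖Q p‖) ^ 2 = ∑ p ∈ P, w p * ‖Q p‖ ^ 2 :=
      Finset.sum_congr rfl fun p hp => by rw [mul_pow, Real.sq_sqrt (hw p hp)]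
    rw [e1, e2, e3] at h4
    exact h4
  have h4 : ((∑ p ∈ P, w p * ‖Q p‖ ^ 2 : ℝ) : ℂ) =
      ∑ n ∈ I, ∑ m ∈ I, (starRingEnd ℂ) (S n) * S m * G n m := by
    rw [Complex.ofReal_sum]
    have e1 : ∀ p ∈ P, ((w p * ‖Q p‖ ^ 2 : ℝ) : ℂ) = ∑ n ∈ I, ∑ m ∈ I,
        (w p : ℂ) * ((starRingEnd ℂ) (S n) * S m * (b n p * (starRingEnd ℂ) (b m p))) := by
      intro p _
      have e2 : ((w p * ‖Q p‖ ^ 2 : ℝ) : ℂ) = (w p : ℂ) * ((‖Q p‖ ^ 2 : ℝ) : ℂ) := by push_cast; ring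
      rw [e2, nsq, hQ]
      dsimp only
      rw [map_sum, mul_comm (∑ n ∈ I, _), Finset.sum_mul_sum, Finset.mul_sum]
      refine Finset.sum_congr rfl fun n _ => ?_
      rw [Finset.mul_sum]
      refine Finset.sum_congr rfl fun m _ => ?_
      rw [map_mul, Complex.conj_conj]
      ring
    rw [Finset.sum_congr rfl e1, Finset.sum_comm]
    refine Finset.sum_congr rfl fun n _ => ?_
    rw [Finset.sum_comm]
    refine Finset.sum_congr rfl fun m _ => ?_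
    have e3 : (starRingEnd ℂ) (S n) * S m * G n m =
        ∑ p ∈ P, (starRingEnd ℂ) (S n) * S m * ((w p : ℂ) * (b n p * (starRingEnd ℂ) (b m p))) :=
      Finset.mul_sum _ _ _
    rw [e3]
    refine Finset.sum_congr rfl fun p _ => ?_
    ring
  have hsym : ∀ n m, ‖G n m‖ = ‖G m n‖ := by
    intro n m
    have e1 : G m n = (starRingEnd ℂ) (G n m) := by
      simp only [hG, map_sum, map_mul, Complex.conj_conj, Complex.conj_ofReal]
      refine Finset.sum_congr rfl fun p _ => ?_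
      ring
    rw [e1, RCLike.norm_conj]
  have h5 : ∑ p ∈ P, w p * ‖Q p‖ ^ 2 ≤ C * T := by
    have h0 : 0 ≤ ∑ p ∈ P, w p * ‖Q p‖ ^ 2 :=
      Finset.sum_nonneg fun p hp => mul_nonneg (hw p hp) (sq_nonneg _)
    have e1 : ∑ p ∈ P, w p * ‖Q p‖ ^ 2 = ‖((∑ p ∈ P, w p * ‖Q p‖ ^ 2 : ℝ) : ℂ)‖ := by
      rw [Complex.norm_real, Real.norm_eq_abs, abs_of_nonneg h0]
    rw [e1, h4]
    have h6 : ‖∑ n ∈ I, ∑ m ∈ I, (starRingEnd ℂ) (S n) * S m * G n m‖ ≤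
        ∑ n ∈ I, ∑ m ∈ I, (‖S n‖ ^ 2 * ‖G n m‖ / 2 + ‖S m‖ ^ 2 * ‖G m n‖ / 2) := by
      refine (norm_sum_le _ _).trans (Finset.sum_le_sum fun n _ => (norm_sum_le _ _).trans
        (Finset.sum_le_sum fun m _ => ?_))
      rw [norm_mul, norm_mul, RCLike.norm_conj, hsym m n]
      have h7 : ‖S n‖ * ‖S m‖ ≤ (‖S n‖ ^ 2 + ‖S m‖ ^ 2) / 2 := by
        nlinarith [sq_nonneg (‖S n‖ - ‖S m‖)]
      have h8 := mul_le_mul_of_nonneg_right h7 (norm_nonneg (G n m))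
      linarith
    refine h6.trans ?_
    have h7 : ∑ n ∈ I, ∑ m ∈ I, (‖S n‖ ^ 2 * ‖G n m‖ / 2 + ‖S m‖ ^ 2 * ‖G m n‖ / 2) =
        ∑ n ∈ I, ‖S n‖ ^ 2 * ∑ m ∈ I, ‖G n m‖ := by
      have e2 : ∀ n ∈ I, ∑ m ∈ I, (‖S n‖ ^ 2 * ‖G n m‖ / 2 + ‖S m‖ ^ 2 * ‖G m n‖ / 2) =
          ∑ m ∈ I, ‖S n‖ ^ 2 * ‖G n m‖ / 2 + ∑ m ∈ I, ‖S m‖ ^ 2 * ‖G m n‖ / 2 :=
        fun n _ => Finset.sum_add_distrib
      rw [Finset.sum_congr rfl e2, Finset.sum_add_distrib,
        Finset.sum_comm (f := fun n m => ‖S m‖ ^ 2 * ‖G m n‖ / 2), ← Finset.sum_add_distrib]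
      refine Finset.sum_congr rfl fun n _ => ?_
      rw [← Finset.sum_add_distrib, Finset.mul_sum]
      refine Finset.sum_congr rfl fun m _ => ?_
      ring
    rw [h7, hT, Finset.mul_sum]
    refine Finset.sum_le_sum fun n hn => ?_
    rw [mul_comm]
    exact mul_le_mul_of_nonneg_right (hC n hn) (sq_nonneg _)
  have h6 : T ^ 2 ≤ (∑ p ∈ P, w p) * (C * T) :=
    (pow_le_pow_left₀ hT0 h2 2).trans (h3.trans (mul_le_mul_of_nonneg_left h5 hW0))
  rcases hT0.eq_or_lt with h | h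
  · rw [← h]
    exact mul_nonneg hC0 hW0
  · have h7 : T * T ≤ T * (C * ∑ p ∈ P, w p) := by
      rw [sq] at h6
      linarith
    exact le_of_mul_le_mul_left h7 h

/-- exponential sum over a set of primes -/
noncomputable def BS (j : ℤ) (n : ℕ) (S : Finset ℕ) : ℂ := ∑ p ∈ S, e1 ((j : ℝ) * yy p n)

/-- weighted exponential sum over a set of primes up to `x` -/
noncomputable def AS (j : ℤ) (n x : ℕ) (S : Finset ℕ) : ℂ :=
  ∑ p ∈ range (x + 1), ((lam p : ℝ) : ℂ) * ((if p ∈ S then 1 else 0) * e1 ((j : ℝ) * yy p n))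

theorem norm_AS_le (j : ℤ) (n x : ℕ) (S : Finset ℕ) : ‖AS j n x S‖ ≤ th x := by
  unfold AS th
  refine (norm_sum_le _ _).trans (Finset.sum_le_sum fun p _ => ?_)
  rw [norm_mul, norm_mul, norm_e1, mul_one, Complex.norm_real, Real.norm_eq_abs, abs_of_nonneg (lam_nonneg p)]
  split_ifs
  · rw [norm_one, mul_one]
  · rw [norm_zero, mul_zero]
    exact lam_nonneg p

theorem AS_eq (j : ℤ) (n : ℕ) {x : ℕ} {S : Finset ℕ} (hS : S ⊆ pr x) :
    AS j n x S = ∑ p ∈ S, ((lam p : ℝ) : ℂ) * e1 ((j : ℝ) * yy p n) := by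
  unfold AS
  have h1 : S ⊆ range (x + 1) := hS.trans (Finset.filter_subset _ _)
  rw [← Finset.sum_subset h1 (f := fun p => ((lam p : ℝ) : ℂ) * ((if p ∈ S then 1 else 0) * e1 ((j : ℝ) * yy p n)))]
  · refine Finset.sum_congr rfl fun p hp => ?_
    rw [if_pos hp, one_mul]
  · intro p _ hp
    rw [if_neg hp, zero_mul, mul_zero]

/-- the weights are almost constant -/
theorem BS_le_AS (j : ℤ) (n : ℕ) {x : ℕ} (hx : 2 ≤ x) {S : Finset ℕ} (hS : S ⊆ pr x) :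
    ‖BS j n S‖ * Real.log x ≤ ‖AS j n x S‖ + (ppi x * Real.log x - th x) := by
  have hx' : (2 : ℝ) ≤ x := by exact_mod_cast hx
  have hlog : 0 < Real.log x := Real.log_pos (by linarith)
  have hlam : ∀ p ∈ pr x, 0 ≤ Real.log x - lam p := by
    intro p hp
    unfold pr at hp
    rw [mem_filter, mem_range] at hp
    have h4 : lam p ≤ Real.log x := by
      rw [lam_prime hp.2]
      apply Real.log_le_log
      · exact_mod_cast hp.2.pos
      · have : p ≤ x := by omega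
        exact_mod_cast this
    linarith
  have h1 : BS j n S * ((Real.log x : ℝ) : ℂ) - AS j n x S =
      ∑ p ∈ S, ((Real.log x - lam p : ℝ) : ℂ) * e1 ((j : ℝ) * yy p n) := by
    rw [AS_eq j n hS]
    unfold BS
    rw [Finset.sum_mul, ← Finset.sum_sub_distrib]
    refine Finset.sum_congr rfl fun p _ => ?_
    push_cast
    ring
  have h2 : ‖BS j n S * ((Real.log x : ℝ) : ℂ) - AS j n x S‖ ≤ ppi x * Real.log x - th x := by
    rw [h1]
    have h3 : ppi x * Real.log x - th x = ∑ p ∈ pr x, (Real.log x - lam p) := by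
      rw [Finset.sum_sub_distrib, Finset.sum_const, nsmul_eq_mul, pr_card]
      unfold th
      rw [sum_lam x _ (fun p hp => lam_not_prime hp)]
    rw [h3]
    refine (norm_sum_le _ _).trans ?_
    have h4 : ∀ p ∈ S, ‖((Real.log x - lam p : ℝ) : ℂ) * e1 ((j : ℝ) * yy p n)‖ ≤ Real.log x - lam p := by
      intro p hp
      rw [norm_mul, norm_e1, mul_one, Complex.norm_real, Real.norm_eq_abs, abs_of_nonneg (hlam p (hS hp))]
    refine (Finset.sum_le_sum h4).trans ?_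
    exact Finset.sum_le_sum_of_subset_of_nonneg hS fun p hp _ => hlam p hp
  have h3 : ‖BS j n S‖ * Real.log x = ‖BS j n S * ((Real.log x : ℝ) : ℂ)‖ := by
    rw [norm_mul, Complex.norm_real, Real.norm_eq_abs, abs_of_pos hlog]
  rw [h3]
  have h4 := norm_le_norm_add_norm_sub (AS j n x S) (BS j n S * ((Real.log x : ℝ) : ℂ))
  rw [norm_sub_rev] at h4
  linarith

/-- The second moment of the weighted sums. -/
theorem AS_moment {j : ℤ} {t : ℕ} (hj : ¬ (2 : ℤ) ^ (t + 1) ∣ j) {F : Finset ℕ} (hF : ∀ n ∈ F, 1 ≤ n)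
    {ε : ℝ} (hε : 0 < ε) : ∀ᶠ x : ℕ in atTop, ∀ S : Finset ℕ,
      ∑ n ∈ F, ‖AS j n x S‖ ^ 2 ≤ (x * (8 * 2 ^ t + ε)) * th x := by
  filter_upwards [gram_row hj hF hε, eventually_gt_atTop 0] with x hx hx0
  intro S
  have hxp : (0 : ℝ) < x := by exact_mod_cast hx0
  unfold AS th
  refine dual_bound_coeff F (range (x + 1)) lam (fun p _ => lam_nonneg p)
    (fun p => if p ∈ S then 1 else 0) (fun p _ => ?_) (fun n p => e1 ((j : ℝ) * yy p n))
    (by positivity) fun n hn => ?_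
  · split_ifs
    · rw [norm_one]
    · rw [norm_zero]
      exact zero_le_one
  have h1 : ∀ m ∈ F, ‖∑ p ∈ range (x + 1), ((lam p : ℝ) : ℂ) *
      (e1 ((j : ℝ) * yy p n) * (starRingEnd ℂ) (e1 ((j : ℝ) * yy p m)))‖ = x * ‖TT j n m x‖ := by
    intro m _
    rw [gram_eq j n m hx0, norm_mul]
    simp
  rw [Finset.sum_congr rfl h1, ← Finset.mul_sum]
  exact mul_le_mul_of_nonneg_left (hx n hn) hxp.le

/-- The second moment over the orders, for every set of primes. -/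
theorem BS_moment {j : ℤ} {t : ℕ} (hj : ¬ (2 : ℤ) ^ (t + 1) ∣ j) {F : Finset ℕ} (hF : ∀ n ∈ F, 1 ≤ n)
    {ε : ℝ} (hε : 0 < ε) : ∀ᶠ x : ℕ in atTop, ∀ S ⊆ pr x,
      ∑ n ∈ F, ‖BS j n S‖ ^ 2 ≤ (8 * 2 ^ t + ε) * (ppi x : ℝ) ^ 2 := by
  set f : ℝ := (F.card : ℝ) with hf
  have hf0 : 0 ≤ f := Nat.cast_nonneg _
  set a : ℕ → ℝ := fun x => (ppi x : ℝ) * Real.log x / (x : ℝ) with ha
  set ρ : ℕ → ℝ := fun x => th x / (x : ℝ) with hρ
  have ha1 : Tendsto a atTop (𝓝 1) := ppi_tendsto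
  have hρ1 : Tendsto ρ atTop (𝓝 1) := th_tendsto
  have hr : Tendsto (fun x => a x - ρ x) atTop (𝓝 0) := by
    have := ha1.sub hρ1
    simpa using this
  have hlim : Tendsto (fun x => (8 * 2 ^ t + ε / 2) * ρ x + 2 * (a x - ρ x) * (f * ρ x) + f * (a x - ρ x) ^ 2 -
      (8 * 2 ^ t + ε) * a x ^ 2) atTop (𝓝 ((8 * 2 ^ t + ε / 2) * 1 + 2 * 0 * (f * 1) + f * 0 ^ 2 -
        (8 * 2 ^ t + ε) * 1 ^ 2)) := by
    refine Tendsto.sub (Tendsto.add (Tendsto.add ?_ ?_) ?_) ?_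
    · exact hρ1.const_mul _
    · exact (hr.const_mul 2).mul (hρ1.const_mul f)
    · exact (hr.pow 2).const_mul f
    · exact (ha1.pow 2).const_mul _
  have hev : ∀ᶠ x : ℕ in atTop, (8 * 2 ^ t + ε / 2) * ρ x + 2 * (a x - ρ x) * (f * ρ x) + f * (a x - ρ x) ^ 2 -
      (8 * 2 ^ t + ε) * a x ^ 2 < 0 := by
    refine hlim.eventually (gt_mem_nhds ?_)
    linarith
  filter_upwards [AS_moment hj hF (half_pos hε), hev, eventually_ge_atTop 2] with x hx1 hx2 hx3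
  intro S hS
  have hx' : (2 : ℝ) ≤ x := by exact_mod_cast hx3
  have hxp : (0 : ℝ) < x := by linarith
  have hlog : 0 < Real.log x := Real.log_pos (by linarith)
  have hth0 : 0 ≤ th x := (norm_nonneg _).trans (norm_AS_le j 0 x ∅)
  set r : ℝ := ppi x * Real.log x - th x with hrr
  have hr0 : 0 ≤ r := by
    have := th_le x
    linarith
  have h1 : ∀ n ∈ F, (‖BS j n S‖ * Real.log x) ^ 2 ≤ ‖AS j n x S‖ ^ 2 + (2 * r * th x + r ^ 2) := by
    intro n _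
    have h2 := pow_le_pow_left₀ (by positivity) (BS_le_AS j n hx3 hS) 2
    have h3 := norm_AS_le j n x S
    rw [← hrr] at h2
    nlinarith [mul_le_mul_of_nonneg_left h3 hr0, norm_nonneg (AS j n x S)]
  have h2 : (∑ n ∈ F, ‖BS j n S‖ ^ 2) * Real.log x ^ 2 ≤
      (x * (8 * 2 ^ t + ε / 2)) * th x + f * (2 * r * th x + r ^ 2) := by
    have h3 := Finset.sum_le_sum h1
    rw [Finset.sum_add_distrib, Finset.sum_const, nsmul_eq_mul] at h3
    have e1 : ∑ n ∈ F, (‖BS j n S‖ * Real.log x) ^ 2 = (∑ n ∈ F, ‖BS j n S‖ ^ 2) * Real.log x ^ 2 := by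
      rw [Finset.sum_mul]
      exact Finset.sum_congr rfl fun n _ => mul_pow _ _ _
    rw [e1] at h3
    have h4 := hx1 S
    linarith
  have e2 : a x - ρ x = r / x := by
    rw [ha, hρ, hrr]
    dsimp only
    rw [sub_div]
  have h4 : (x * (8 * 2 ^ t + ε / 2)) * th x + f * (2 * r * th x + r ^ 2) ≤
      ((8 * 2 ^ t + ε) * (ppi x : ℝ) ^ 2) * Real.log x ^ 2 := by
    rw [e2] at hx2
    have e3 : ρ x = th x / x := rfl
    have e4 : a x = (ppi x : ℝ) * Real.log x / x := rfl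
    rw [e3, e4] at hx2
    have e5 : (8 * 2 ^ t + ε / 2) * (th x / x) + 2 * (r / x) * (f * (th x / x)) + f * (r / x) ^ 2 -
        (8 * 2 ^ t + ε) * ((ppi x : ℝ) * Real.log x / x) ^ 2 =
        ((x * (8 * 2 ^ t + ε / 2)) * th x + f * (2 * r * th x + r ^ 2) -
          ((8 * 2 ^ t + ε) * (ppi x : ℝ) ^ 2) * Real.log x ^ 2) / x ^ 2 := by
      field_simp
      ring
    rw [e5] at hx2
    have h5 : (x * (8 * 2 ^ t + ε / 2)) * th x + f * (2 * r * th x + r ^ 2) -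
          ((8 * 2 ^ t + ε) * (ppi x : ℝ) ^ 2) * Real.log x ^ 2 < 0 := by
      by_contra hcon
      rw [not_lt] at hcon
      have := div_nonneg hcon (sq_nonneg (x : ℝ))
      linarith
    linarith
  exact le_of_mul_le_mul_right (h2.trans h4) (by positivity)

end Pool.Agent.Lib.MP_de5eaa_nt.Near
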