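import Pool.Agent.Lib.MP_de5eaa_nt.Near.P2
import Pool.Agent.Lib.MP_de5eaa_nt.Near.O3
import Pool.Agent.Lib.MP_de5eaa_nt.Near.O4

/-! The exceptional orders, for every set of primes. -/

set_option autoImplicit false

namespace Pool.Agent.Lib.MP_de5eaa_nt.Near

open Finset Filter Topology

/-- the second moment over the orders of the weighted mean of the exponential sums -/
theorem EE_moment_sub (K : ℕ) {F : Finset ℕ} (hF : ∀ n ∈ F, 1 ≤ n) :
    ∀ᶠ x : ℕ in atTop, ∀ S ⊆ pr x, ∑ n ∈ F, EE K S (fun p => yy p n) ^ 2 ≤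
      (ww K K * ((harmonic K : ℚ) : ℝ)) *
        (9 * ww K K * (((Nat.log 2 K : ℕ) + 1) * ((harmonic K : ℚ) : ℝ)) * (ppi x : ℝ) ^ 2) := by
  set W := ww K K with hW
  have hW0 : 0 ≤ W := ww_nonneg _ _
  set H := ((harmonic K : ℚ) : ℝ) with hH
  have hH0 : 0 ≤ H := by
    rw [hH, ← cc_sum]
    exact Finset.sum_nonneg fun k _ => cc_nonneg _ _
  set s := (range (2 * K + 1)).erase K with hs
  set g : ℕ → ℝ := fun i => (2 : ℝ) ^ padicValNat 2 i with hg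
  have h1 : ∀ᶠ x : ℕ in atTop, ∀ k ∈ s, ∀ S ⊆ pr x, ∑ n ∈ F, ‖BS ((k : ℤ) - (K : ℕ)) n S‖ ^ 2 ≤
      (8 * g (((K : ℕ) : ℤ) - (k : ℤ)).natAbs + 1) * (ppi x : ℝ) ^ 2 := by
    rw [Filter.eventually_all_finset]
    intro k hk
    rw [hs, mem_erase] at hk
    have hne : ((k : ℤ) - (K : ℕ) : ℤ) ≠ 0 := by
      have := hk.1
      omega
    have h2 := BS_moment (not_dvd_int hne) hF one_pos
    have e : ((k : ℤ) - (K : ℕ) : ℤ).natAbs = (((K : ℕ) : ℤ) - (k : ℤ)).natAbs := by omega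
    rw [e] at h2
    exact h2
  filter_upwards [h1] with x hx
  intro S hS
  have h2 : ∑ n ∈ F, EE K S (fun p => yy p n) ^ 2 ≤
      ∑ n ∈ F, (W * H) * ∑ k ∈ s, (ww K k * cc K k) * ‖BS ((k : ℤ) - (K : ℕ)) n S‖ ^ 2 :=
    Finset.sum_le_sum fun n _ => EE_sq' K S (fun p => yy p n)
  refine h2.trans ?_
  rw [← Finset.mul_sum, Finset.sum_comm]
  apply mul_le_mul_of_nonneg_left _ (mul_nonneg hW0 hH0)
  have hP0 : (0 : ℝ) ≤ (ppi x : ℝ) ^ 2 := sq_nonneg _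
  have h3 : ∀ k ∈ s, ∑ n ∈ F, (ww K k * cc K k) * ‖BS ((k : ℤ) - (K : ℕ)) n S‖ ^ 2 ≤
      (9 * W * (ppi x : ℝ) ^ 2) * (cc K k * g (((K : ℕ) : ℤ) - (k : ℤ)).natAbs) := by
    intro k hk
    rw [← Finset.mul_sum]
    have h4 := mul_le_mul_of_nonneg_left (hx k hk S hS) (mul_nonneg (ww_nonneg K k) (cc_nonneg K k))
    refine h4.trans ?_
    have hg1 : 1 ≤ g (((K : ℕ) : ℤ) - (k : ℤ)).natAbs := one_le_pow₀ (by norm_num)
    set G := g (((K : ℕ) : ℤ) - (k : ℤ)).natAbs with hG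
    have h5 : (ww K k * cc K k) * ((8 * G + 1) * (ppi x : ℝ) ^ 2) ≤ (W * cc K k) * ((9 * G) * (ppi x : ℝ) ^ 2) := by
      have h6 : ww K k * cc K k ≤ W * cc K k := mul_le_mul_of_nonneg_right (ww_le K k) (cc_nonneg K k)
      have h7 : (8 * G + 1) * (ppi x : ℝ) ^ 2 ≤ (9 * G) * (ppi x : ℝ) ^ 2 :=
        mul_le_mul_of_nonneg_right (by linarith) hP0
      exact mul_le_mul h6 h7 (by positivity) (mul_nonneg hW0 (cc_nonneg K k))
    refine h5.trans (le_of_eq ?_)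
    ring
  refine (Finset.sum_le_sum h3).trans ?_
  rw [← Finset.mul_sum, cc_sum' K g]
  have h4 := two_sum K
  have h5 : ∑ i ∈ range K, g (i + 1) / ((i + 1 : ℕ) : ℝ) ≤ ((Nat.log 2 K : ℕ) + 1) * H := h4
  have h6 := mul_le_mul_of_nonneg_left h5 (show 0 ≤ 9 * W * (ppi x : ℝ) ^ 2 by positivity)
  refine h6.trans (le_of_eq ?_)
  ring

open Classical in
/-- The number of the exceptional orders. -/
theorem exc_orders_sub {R : ℕ} (hR : 2 ≤ R) {F : Finset ℕ} (hF : ∀ n ∈ F, 1 ≤ n) :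
    ∀ᶠ x : ℕ in atTop, ∀ S ⊆ pr x, ((F.filter fun n => ww (R ^ 3) (R ^ 3) * ((ppi x : ℝ) / R) <
      EE (R ^ 3) S (fun p => yy p n)).card : ℝ) ≤
        9 * (R : ℝ) ^ 2 * ((harmonic (R ^ 3) : ℚ) : ℝ) ^ 2 * ((Nat.log 2 (R ^ 3) : ℕ) + 1) := by
  set K := R ^ 3 with hK
  have hRp : (0 : ℝ) < R := by
    have : 0 < R := by omega
    exact_mod_cast this
  set W := ww K K with hW
  have hWp : 0 < W := ww_mid_pos hR
  set H := ((harmonic K : ℚ) : ℝ) with hH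
  filter_upwards [EE_moment_sub K hF, eventually_ge_atTop 2] with x hx hx2
  intro S hS
  have hpi : 0 < ppi x := by
    unfold ppi
    rw [Finset.card_pos]
    exact ⟨2, by rw [mem_filter, mem_range]; exact ⟨by omega, Nat.prime_two⟩⟩
  have hpi' : (0 : ℝ) < ppi x := by exact_mod_cast hpi
  set E := F.filter fun n => W * ((ppi x : ℝ) / R) < EE K S (fun p => yy p n) with hE
  have h1 : (E.card : ℝ) * (W * ((ppi x : ℝ) / R)) ^ 2 ≤ ∑ n ∈ F, EE K S (fun p => yy p n) ^ 2 := by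
    rw [← nsmul_eq_mul, ← Finset.sum_const]
    have h2 : ∑ _n ∈ E, (W * ((ppi x : ℝ) / R)) ^ 2 ≤ ∑ n ∈ E, EE K S (fun p => yy p n) ^ 2 := by
      refine Finset.sum_le_sum fun n hn => ?_
      rw [hE, mem_filter] at hn
      exact pow_le_pow_left₀ (by positivity) hn.2.le 2
    exact h2.trans (Finset.sum_le_sum_of_subset_of_nonneg (Finset.filter_subset _ _) fun n _ _ => sq_nonneg _)
  have h2 := h1.trans (hx S hS)
  have e1 : (E.card : ℝ) * (W * ((ppi x : ℝ) / R)) ^ 2 = (E.card : ℝ) * (W ^ 2 * (ppi x : ℝ) ^ 2 / R ^ 2) := by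
    ring
  have e2 : (W * H) * (9 * W * (((Nat.log 2 K : ℕ) + 1) * H) * (ppi x : ℝ) ^ 2) =
      (9 * (R : ℝ) ^ 2 * H ^ 2 * ((Nat.log 2 K : ℕ) + 1)) * (W ^ 2 * (ppi x : ℝ) ^ 2 / R ^ 2) := by
    field_simp
  rw [e1, e2] at h2
  exact le_of_mul_le_mul_right h2 (by positivity)

open Classical in
/-- If the exponential sums are small then the points are equidistributed. -/
theorem arc_disc_sub {N : ℕ} (hN : 1 ≤ N) (I : Finset ℕ) (y : ℕ → ℝ) {T : ℝ} (hT : (I.card : ℝ) ≤ T)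
    (hE : EE ((10 * N) ^ 3) I y ≤ ww ((10 * N) ^ 3) ((10 * N) ^ 3) * (T / (10 * N : ℕ)))
    {θ ℓ : ℝ} (h0 : 0 ≤ ℓ) (h1 : ℓ ≤ 1) :
    |((I.filter fun n => ∃ a : ℤ, θ ≤ y n - a ∧ y n - a ≤ θ + ℓ).card : ℝ) - ℓ * I.card| ≤ T / N := by
  set R : ℕ := 10 * N with hR
  have hR10 : 10 ≤ R := by omega
  have hR2 : 2 ≤ R := by omega
  have hRr : (10 : ℝ) ≤ R := by exact_mod_cast hR10
  have hRp : (0 : ℝ) < R := by linarith
  have hNp : (0 : ℝ) < N := by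
    have : 0 < N := by omega
    exact_mod_cast this
  have hRN : (R : ℝ) = 10 * N := by
    rw [hR]
    push_cast
    ring
  set L : ℝ := (I.card : ℝ) with hL
  have hL0 : (0 : ℝ) ≤ L := by positivity
  have hT0 : (0 : ℝ) ≤ T := hL0.trans hT
  have hWp := ww_mid_pos hR2
  set W := ww (R ^ 3) (R ^ 3) with hW
  set arc : ℝ → ℝ → ℝ := fun θ ℓ => ((I.filter fun n => ∃ a : ℤ, θ ≤ y n - a ∧ y n - a ≤ θ + ℓ).card : ℝ)
    with harc
  have up : ∀ θ ℓ : ℝ, 0 ≤ ℓ → ℓ ≤ 1 → arc θ ℓ ≤ ℓ * L + T / N := by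
    intro θ ℓ h0 h1
    have h2 := arc_le hR2 I y θ ℓ h0
    rw [← hW, ← hL] at h2
    change W * ((1 - 1 / (R : ℝ)) * arc θ ℓ) ≤ W * ((ℓ + 3 / R) * L) + EE (R ^ 3) I y at h2
    have h3 : W * ((1 - 1 / (R : ℝ)) * arc θ ℓ) ≤ W * ((ℓ + 3 / R) * L + T / R) := by
      refine h2.trans ?_
      rw [mul_add]
      linarith
    have h4 := le_of_mul_le_mul_left h3 hWp
    have h5 : (ℓ + 3 / (R : ℝ)) * L + T / R ≤ (1 - 1 / R) * (ℓ * L + T / N) := by
      have e1 : T / N = 10 / R * T := by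
        rw [hRN]
        field_simp
      rw [e1]
      set t := 1 / (R : ℝ) with ht
      have ht0 : 0 < t := by positivity
      have ht1 : t ≤ 1 / 10 := one_div_le_one_div_of_le (by norm_num) hRr
      have e2 : 3 / (R : ℝ) = 3 * t := by rw [ht]; ring
      have e3 : 10 / (R : ℝ) = 10 * t := by rw [ht]; ring
      have e5 : T / (R : ℝ) = T * t := by rw [ht]; ring
      rw [e2, e3, e5]
      have e4 : (1 - t) * (ℓ * L + 10 * t * T) - ((ℓ + 3 * t) * L + T * t) =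
          t * (9 * T - 10 * t * T - (3 + ℓ) * L) := by ring
      have h6 : 0 ≤ t * (9 * T - 10 * t * T - (3 + ℓ) * L) := by
        apply mul_nonneg ht0.le
        have h7 : 10 * t * T ≤ 1 * T := mul_le_mul_of_nonneg_right (by linarith) hT0
        have h8 : (3 + ℓ) * L ≤ 4 * T := mul_le_mul (by linarith) hT hL0 (by norm_num)
        linarith
      linarith
    have h6 := h4.trans h5
    have h7 : 0 < 1 - 1 / (R : ℝ) := by
      have ht1 : 1 / (R : ℝ) ≤ 1 / 10 := one_div_le_one_div_of_le (by norm_num) hRr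
      linarith
    exact le_of_mul_le_mul_left h6 h7
  have h2 := up θ ℓ h0 h1
  have h3 := up (θ + ℓ) (1 - ℓ) (by linarith) (by linarith)
  have h4 : L ≤ arc θ ℓ + arc (θ + ℓ) (1 - ℓ) := by
    have h5 : I ⊆
        (I.filter fun n => ∃ a : ℤ, θ ≤ y n - a ∧ y n - a ≤ θ + ℓ) ∪
        (I.filter fun n => ∃ a : ℤ, θ + ℓ ≤ y n - a ∧ y n - a ≤ θ + ℓ + (1 - ℓ)) := by
      intro n hn
      rw [mem_union, mem_filter, mem_filter]
      have h6 := Int.floor_le (y n - θ)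
      have h7 := Int.lt_floor_add_one (y n - θ)
      rcases le_total (y n - ⌊y n - θ⌋) (θ + ℓ) with h | h
      · left
        exact ⟨hn, ⌊y n - θ⌋, by linarith, h⟩
      · right
        exact ⟨hn, ⌊y n - θ⌋, h, by linarith⟩
    have h6 := (Finset.card_le_card h5).trans (Finset.card_union_le _ _)
    rw [hL, harc]
    dsimp only
    exact_mod_cast h6
  change |arc θ ℓ - ℓ * L| ≤ T / N
  rw [abs_le]
  constructor
  · linarith
  · linarith

open Classical in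
/-- The exceptional orders, for every set of primes. -/
theorem orders_main_sub {N : ℕ} (hN : 1 ≤ N) {F : Finset ℕ} (hF : ∀ n ∈ F, 1 ≤ n) :
    ∀ᶠ x : ℕ in atTop, ∀ S ⊆ pr x, ((F.filter fun n => ∃ θ ℓ : ℝ, 0 ≤ ℓ ∧ ℓ ≤ 1 ∧ (ppi x : ℝ) / N <
      |((S.filter fun p => ∃ a : ℤ, θ ≤ yy p n - a ∧ yy p n - a ≤ θ + ℓ).card : ℝ) - ℓ * S.card|).card : ℝ) ≤
        10 ^ 6 * (N : ℝ) ^ 2 * (1 + Real.log N) ^ 3 := by
  filter_upwards [exc_orders_sub (R := 10 * N) (by omega) hF] with x hx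
  intro S hS
  have hc : 700000 * ((N : ℝ) ^ 2 * (1 + Real.log N) ^ 3) ≤ 10 ^ 6 * (N : ℝ) ^ 2 * (1 + Real.log N) ^ 3 := by
    have h1 : (0 : ℝ) ≤ (N : ℝ) ^ 2 * (1 + Real.log N) ^ 3 := by
      have : 0 ≤ Real.log N := Real.log_nonneg (by exact_mod_cast hN)
      positivity
    linarith
  refine le_trans ?_ ((hx S hS).trans ((const_le hN).trans hc))
  have h1 : (F.filter fun n => ∃ θ ℓ : ℝ, 0 ≤ ℓ ∧ ℓ ≤ 1 ∧ (ppi x : ℝ) / N <
      |((S.filter fun p => ∃ a : ℤ, θ ≤ yy p n - a ∧ yy p n - a ≤ θ + ℓ).card : ℝ) - ℓ * S.card|) ⊆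
      F.filter fun n => ww ((10 * N) ^ 3) ((10 * N) ^ 3) * ((ppi x : ℝ) / (10 * N : ℕ)) <
        EE ((10 * N) ^ 3) S (fun p => yy p n) := by
    intro n hn
    rw [mem_filter] at hn ⊢
    refine ⟨hn.1, ?_⟩
    obtain ⟨θ, ℓ, h0, h1, h2⟩ := hn.2
    by_contra hcon
    rw [not_lt] at hcon
    have h4 : ((S.card : ℕ) : ℝ) ≤ (ppi x : ℝ) := by
      rw [← pr_card]
      exact_mod_cast Finset.card_le_card hS
    have h3 := arc_disc_sub hN S (fun p => yy p n) h4 hcon (θ := θ) h0 h1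
    linarith
  exact_mod_cast Finset.card_le_card h1

end Pool.Agent.Lib.MP_de5eaa_nt.Near
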