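import Pool.Agent.Lib.MP_de5eaa_nt.Near.Q1

/-! Small lemmas on `lcm (1, ..., L)` and on inverses modulo `Q` (copies of lemmas of `Poi/P4`, to keep the build short). -/

set_option autoImplicit false

namespace Pool.Agent.Lib.MP_de5eaa_nt.Near

open Finset Filter Topology
open Pool.Agent.Lib.MP_de5eaa_nt.Poi (UU QQ)

theorem QQ_dvd0 (L : ℕ) : QQ L ∣ L.factorial := by
  unfold QQ
  refine Finset.lcm_dvd fun i hi => ?_
  rw [mem_Icc] at hi
  exact Nat.dvd_factorial hi.1 hi.2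

theorem QQ_pos0 (L : ℕ) : 0 < QQ L :=
  Nat.pos_of_dvd_of_pos (QQ_dvd0 L) (Nat.factorial_pos L)

theorem inv0 {p Q : ℕ} (hQ : 0 < Q) (h : p.Coprime Q) : ∃ u ∈ UU Q, u * p ≡ 1 [MOD Q] := by
  have : NeZero Q := ⟨hQ.ne'⟩
  have h1 := ZMod.coe_mul_inv_eq_one p h
  refine ⟨((p : ZMod Q)⁻¹).val, ?_, ?_⟩
  · unfold UU
    rw [mem_filter, mem_range]
    refine ⟨ZMod.val_lt _, ?_⟩
    have h2 : IsUnit ((((p : ZMod Q)⁻¹).val : ℕ) : ZMod Q) := by
      rw [ZMod.natCast_val, ZMod.cast_id']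
      exact IsUnit.of_mul_eq_one _ (by rw [id, mul_comm]; exact h1)
    exact ((ZMod.isUnit_iff_coprime _ _).1 h2).symm
  · rw [← ZMod.natCast_eq_natCast_iff]
    push_cast
    rw [ZMod.natCast_val, ZMod.cast_id', id, mul_comm]
    exact h1

theorem log_pow_le {K : ℝ} (hK : 0 < K) (m : ℕ) : ∀ᶠ x : ℕ in atTop, K * Real.log x ^ m ≤ Real.sqrt x := by
  have h1 : ∀ᶠ x : ℝ in atTop, ‖Real.log x ^ m‖ ≤ 1 / K * ‖x ^ (1 / 2 : ℝ)‖ := by
    have h2 := (isLittleO_log_rpow_rpow_atTop (s := 1 / 2) (m : ℝ) (by norm_num)).bound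
      (show 0 < 1 / K by positivity)
    filter_upwards [h2] with x hx
    rwa [Real.rpow_natCast] at hx
  filter_upwards [(tendsto_natCast_atTop_atTop (R := ℝ)).eventually h1, eventually_ge_atTop 2] with x h3 h5
  have hx2 : (2 : ℝ) ≤ x := by exact_mod_cast h5
  have hlog : 0 < Real.log x := Real.log_pos (by linarith)
  rw [← Real.sqrt_eq_rpow, Real.norm_eq_abs, abs_of_pos (pow_pos hlog m), Real.norm_eq_abs,
    abs_of_nonneg (Real.sqrt_nonneg _), div_mul_eq_mul_div, one_mul, le_div_iff₀ hK] at h3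
  linarith

end Pool.Agent.Lib.MP_de5eaa_nt.Near
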