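import Pool.Agent.Lib.MP_de5eaa_nt.Poi.U1
import Pool.Agent.Lib.MP_de5eaa_nt.Near.P4

/-! Duality and averages over the units. -/

set_option autoImplicit false

namespace Pool.Agent.Lib.MP_de5eaa_nt.Near

open Finset Filter Topology
open Pool.Agent.Lib.MP_de5eaa_nt.Poi (UU QQ YY)

theorem nsq' (z : ℂ) : ((‖z‖ ^ 2 : ℝ) : ℂ) = (starRingEnd ℂ) z * z := by
  rw [mul_comm, Complex.mul_conj, Complex.normSq_eq_norm_sq]

/-- The Gram bound. -/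
theorem gram_bound {ι κ : Type*} (I : Finset ι) (P : Finset κ) (b : ι → κ → ℂ) {C : ℝ}
    (hC : ∀ n ∈ I, ∑ m ∈ I, ‖∑ p ∈ P, b n p * (starRingEnd ℂ) (b m p)‖ ≤ C) (c : ι → ℂ) :
    ∑ p ∈ P, ‖∑ n ∈ I, c n * b n p‖ ^ 2 ≤ C * ∑ n ∈ I, ‖c n‖ ^ 2 := by
  set G : ι → ι → ℂ := fun n m => ∑ p ∈ P, b n p * (starRingEnd ℂ) (b m p) with hG
  have hsym : ∀ n m, ‖G n m‖ = ‖G m n‖ := by
    intro n m
    have e1 : G m n = (starRingEnd ℂ) (G n m) := by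
      simp only [hG, map_sum, map_mul, Complex.conj_conj]
      refine Finset.sum_congr rfl fun p _ => ?_
      ring
    rw [e1, RCLike.norm_conj]
  have h4 : ((∑ p ∈ P, ‖∑ n ∈ I, c n * b n p‖ ^ 2 : ℝ) : ℂ) =
      ∑ n ∈ I, ∑ m ∈ I, c n * (starRingEnd ℂ) (c m) * G n m := by
    rw [Complex.ofReal_sum]
    have e1 : ∀ p ∈ P, ((‖∑ n ∈ I, c n * b n p‖ ^ 2 : ℝ) : ℂ) = ∑ n ∈ I, ∑ m ∈ I,
        c n * (starRingEnd ℂ) (c m) * (b n p * (starRingEnd ℂ) (b m p)) := by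
      intro p _
      rw [nsq', map_sum, mul_comm, Finset.sum_mul_sum]
      refine Finset.sum_congr rfl fun n _ => Finset.sum_congr rfl fun m _ => ?_
      rw [map_mul]
      ring
    rw [Finset.sum_congr rfl e1, Finset.sum_comm]
    refine Finset.sum_congr rfl fun n _ => ?_
    rw [Finset.sum_comm]
    refine Finset.sum_congr rfl fun m _ => ?_
    rw [hG]
    dsimp only
    rw [Finset.mul_sum]
  have h0 : 0 ≤ ∑ p ∈ P, ‖∑ n ∈ I, c n * b n p‖ ^ 2 := Finset.sum_nonneg fun p _ => sq_nonneg _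
  have e1 : ∑ p ∈ P, ‖∑ n ∈ I, c n * b n p‖ ^ 2 = ‖((∑ p ∈ P, ‖∑ n ∈ I, c n * b n p‖ ^ 2 : ℝ) : ℂ)‖ := by
    rw [Complex.norm_real, Real.norm_eq_abs, abs_of_nonneg h0]
  rw [e1, h4]
  have h6 : ‖∑ n ∈ I, ∑ m ∈ I, c n * (starRingEnd ℂ) (c m) * G n m‖ ≤
      ∑ n ∈ I, ∑ m ∈ I, (‖c n‖ ^ 2 * ‖G n m‖ / 2 + ‖c m‖ ^ 2 * ‖G m n‖ / 2) := by
    refine (norm_sum_le _ _).trans (Finset.sum_le_sum fun n _ => (norm_sum_le _ _).trans
      (Finset.sum_le_sum fun m _ => ?_))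
    rw [norm_mul, norm_mul, RCLike.norm_conj, hsym m n]
    have h7 : ‖c n‖ * ‖c m‖ ≤ (‖c n‖ ^ 2 + ‖c m‖ ^ 2) / 2 := by
      nlinarith [sq_nonneg (‖c n‖ - ‖c m‖)]
    have h8 := mul_le_mul_of_nonneg_right h7 (norm_nonneg (G n m))
    linarith
  refine h6.trans ?_
  have h7 : ∑ n ∈ I, ∑ m ∈ I, (‖c n‖ ^ 2 * ‖G n m‖ / 2 + ‖c m‖ ^ 2 * ‖G m n‖ / 2) =
      ∑ n ∈ I, ‖c n‖ ^ 2 * ∑ m ∈ I, ‖G n m‖ := by
    have e2 : ∀ n ∈ I, ∑ m ∈ I, (‖c n‖ ^ 2 * ‖G n m‖ / 2 + ‖c m‖ ^ 2 * ‖G m n‖ / 2) =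
        ∑ m ∈ I, ‖c n‖ ^ 2 * ‖G n m‖ / 2 + ∑ m ∈ I, ‖c m‖ ^ 2 * ‖G m n‖ / 2 :=
      fun n _ => Finset.sum_add_distrib
    rw [Finset.sum_congr rfl e2, Finset.sum_add_distrib,
      Finset.sum_comm (f := fun n m => ‖c m‖ ^ 2 * ‖G m n‖ / 2), ← Finset.sum_add_distrib]
    refine Finset.sum_congr rfl fun n _ => ?_
    rw [← Finset.sum_add_distrib, Finset.mul_sum]
    refine Finset.sum_congr rfl fun m _ => ?_
    ring
  rw [h7, Finset.mul_sum]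
  refine Finset.sum_le_sum fun n hn => ?_
  rw [mul_comm]
  exact mul_le_mul_of_nonneg_right (hC n hn) (sq_nonneg _)

/-- The duality principle. -/
theorem duality {ι κ : Type*} (I : Finset ι) (P : Finset κ) (b : ι → κ → ℂ) {C : ℝ}
    (h : ∀ c : ι → ℂ, ∑ p ∈ P, ‖∑ n ∈ I, c n * b n p‖ ^ 2 ≤ C * ∑ n ∈ I, ‖c n‖ ^ 2) (hC0 : 0 ≤ C) (a : κ → ℂ) :
    ∑ n ∈ I, ‖∑ p ∈ P, a p * b n p‖ ^ 2 ≤ C * ∑ p ∈ P, ‖a p‖ ^ 2 := by
  set S : ι → ℂ := fun n => ∑ p ∈ P, a p * b n p with hS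
  set Q : κ → ℂ := fun p => ∑ n ∈ I, (starRingEnd ℂ) (S n) * b n p with hQ
  set T : ℝ := ∑ n ∈ I, ‖S n‖ ^ 2 with hT
  have hT0 : 0 ≤ T := Finset.sum_nonneg fun n _ => sq_nonneg _
  have hA0 : 0 ≤ ∑ p ∈ P, ‖a p‖ ^ 2 := Finset.sum_nonneg fun p _ => sq_nonneg _
  have h1 : ((T : ℝ) : ℂ) = ∑ p ∈ P, a p * Q p := by
    rw [hT, Complex.ofReal_sum]
    have e1 : ∀ n ∈ I, ((‖S n‖ ^ 2 : ℝ) : ℂ) = ∑ p ∈ P, a p * ((starRingEnd ℂ) (S n) * b n p) := by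
      intro n _
      rw [nsq']
      conv_lhs => rw [show S n = ∑ p ∈ P, a p * b n p from rfl]
      rw [Finset.mul_sum]
      refine Finset.sum_congr rfl fun p _ => ?_
      ring
    rw [Finset.sum_congr rfl e1, Finset.sum_comm]
    refine Finset.sum_congr rfl fun p _ => ?_
    rw [hQ]
    dsimp only
    rw [Finset.mul_sum]
  have h2 : T ≤ ∑ p ∈ P, ‖a p‖ * ‖Q p‖ := by
    have e1 : T = ‖((T : ℝ) : ℂ)‖ := by rw [Complex.norm_real, Real.norm_eq_abs, abs_of_nonneg hT0]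
    rw [e1, h1]
    refine (norm_sum_le _ _).trans (le_of_eq ?_)
    exact Finset.sum_congr rfl fun p _ => norm_mul _ _
  have h3 : (∑ p ∈ P, ‖a p‖ * ‖Q p‖) ^ 2 ≤ (∑ p ∈ P, ‖a p‖ ^ 2) * ∑ p ∈ P, ‖Q p‖ ^ 2 :=
    Finset.sum_mul_sq_le_sq_mul_sq P _ _
  have h4 : ∑ p ∈ P, ‖Q p‖ ^ 2 ≤ C * T := by
    have h5 := h (fun n => (starRingEnd ℂ) (S n))
    have e1 : ∑ n ∈ I, ‖(starRingEnd ℂ) (S n)‖ ^ 2 = T :=
      Finset.sum_congr rfl fun n _ => by rw [RCLike.norm_conj]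
    rw [e1] at h5
    exact h5
  have h6 : T ^ 2 ≤ (∑ p ∈ P, ‖a p‖ ^ 2) * (C * T) :=
    (pow_le_pow_left₀ hT0 h2 2).trans (h3.trans (mul_le_mul_of_nonneg_left h4 hA0))
  rcases hT0.eq_or_lt with h | h
  · rw [← h]
    exact mul_nonneg hC0 hA0
  · have h7 : T * T ≤ T * (C * ∑ p ∈ P, ‖a p‖ ^ 2) := by
      rw [sq] at h6
      linarith
    exact le_of_mul_le_mul_left h7 h

theorem e1_half {z : ℤ} (hz : ¬ (2 : ℤ) ∣ z) : e1 ((z : ℝ) / 2) = -1 := by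
  obtain ⟨w, hw⟩ : ∃ w : ℤ, z = 2 * w + 1 := ⟨z / 2, by omega⟩
  rw [show ((z : ℤ) : ℝ) / 2 = ((w : ℤ) : ℝ) + 1 / 2 by rw [hw]; push_cast; ring, e1_add, e1_int, one_mul]
  unfold e1
  rw [show (2 * Real.pi * ((1 / 2 : ℝ) : ℂ) * Complex.I : ℂ) = Real.pi * Complex.I by push_cast; ring]
  exact Complex.exp_pi_mul_I

/-- The sum over the units vanishes. -/
theorem unit_sum_zero {Q : ℕ} (hQ : 0 < Q) {q : ℚ} (hd : q.den ∣ Q) (h4 : 4 ∣ q.den) :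
    ∑ u ∈ UU Q, e1 ((u : ℝ) * ((q : ℚ) : ℝ)) = 0 := by
  obtain ⟨k, m, hm, hQm⟩ := Nat.exists_eq_two_pow_mul_odd hQ.ne'
  obtain ⟨i, b, hb, hdb⟩ := Nat.exists_eq_two_pow_mul_odd q.den_nz
  have hi : 2 ≤ i := by
    by_contra hcon
    have h1 : (2 : ℕ) ^ 2 ∣ 2 ^ i * b := by
      rw [← hdb]
      exact h4
    have h2 : Nat.Coprime (2 ^ 2) b := Nat.Coprime.pow_left 2 (Nat.coprime_two_left.2 hb)
    have h3 := h2.dvd_of_dvd_mul_right h1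
    have h5 := (Nat.pow_dvd_pow_iff_le_right (by norm_num : 1 < 2)).1 h3
    omega
  have hbm : b ∣ m := by
    have h1 : b ∣ 2 ^ k * m := by
      rw [← hQm]
      exact (Dvd.intro_left (2 ^ i) hdb.symm).trans hd
    exact (Nat.Coprime.pow_right k (Nat.coprime_two_right.2 hb)).dvd_of_dvd_mul_left h1
  obtain ⟨d, hd'⟩ := hbm
  have hdodd : Odd d := by
    rw [hd'] at hm
    exact Nat.Odd.of_mul_left (by rwa [mul_comm] at hm)
  set s : ℕ := 2 ^ (i - 1) * m with hs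
  -- the shift changes the sign
  have hsq : e1 ((s : ℝ) * ((q : ℚ) : ℝ)) = -1 := by
    have hnum : ¬ (2 : ℤ) ∣ q.num := num_odd h4
    have h1 : (s : ℝ) * ((q : ℚ) : ℝ) = (((d : ℤ) * q.num : ℤ) : ℝ) / 2 := by
      have h2 : ((q : ℚ) : ℝ) = (q.num : ℝ) / (q.den : ℝ) := Rat.cast_def _
      have hbr : (b : ℝ) ≠ 0 := by
        have : b ≠ 0 := by rintro rfl; simp at hb
        exact_mod_cast this
      rw [h2, hs, hdb, hd']
      push_cast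
      have h3 : (2 : ℝ) ^ i = 2 ^ (i - 1) * 2 := by
        rw [← pow_succ]
        congr 1
        omega
      rw [h3]
      field_simp
    rw [h1]
    refine e1_half ?_
    intro h
    rcases Int.prime_two.dvd_or_dvd h with h3 | h3
    · have : 2 ∣ d := by exact_mod_cast h3
      rw [← even_iff_two_dvd] at this
      exact (Nat.not_even_iff_odd.2 hdodd) this
    · exact hnum h3
  -- periodicity
  have hper : ∀ u : ℕ, e1 (((u % Q : ℕ) : ℝ) * ((q : ℚ) : ℝ)) = e1 ((u : ℝ) * ((q : ℚ) : ℝ)) := by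
    intro u
    obtain ⟨w, hw⟩ := hd
    have h1 : (Q : ℝ) * ((q : ℚ) : ℝ) = (((w : ℤ) * q.num : ℤ) : ℝ) := by
      have h2 : ((q : ℚ) : ℝ) = (q.num : ℝ) / (q.den : ℝ) := Rat.cast_def _
      have hdr : (q.den : ℝ) ≠ 0 := by exact_mod_cast q.den_nz
      rw [h2, hw]
      push_cast
      field_simp
    have h3 : (u : ℝ) * ((q : ℚ) : ℝ) = ((u % Q : ℕ) : ℝ) * ((q : ℚ) : ℝ) +
        ((((u / Q : ℕ) : ℤ) * ((w : ℤ) * q.num) : ℤ) : ℝ) := by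
      have h5 : (u : ℝ) = ((u % Q : ℕ) : ℝ) + (Q : ℝ) * ((u / Q : ℕ) : ℝ) := by
        exact_mod_cast (Nat.mod_add_div u Q).symm
      have h6 : ((((u / Q : ℕ) : ℤ) * ((w : ℤ) * q.num) : ℤ) : ℝ) =
          ((u / Q : ℕ) : ℝ) * (((w : ℤ) * q.num : ℤ) : ℝ) := by
        rw [Int.cast_mul, Int.cast_natCast]
      rw [h6, ← h1]
      conv_lhs => rw [h5]
      ring
    rw [h3, e1_add, e1_int, mul_one]
  have hsh : ∀ u : ℕ, e1 ((((u + s) % Q : ℕ) : ℝ) * ((q : ℚ) : ℝ)) = -e1 ((u : ℝ) * ((q : ℚ) : ℝ)) := by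
    intro u
    rw [hper]
    push_cast
    rw [add_mul, e1_add, hsq]
    ring
  -- the bijection
  have hmap : ∀ u ∈ UU Q, (u + s) % Q ∈ UU Q := by
    intro u hu
    unfold UU at hu ⊢
    rw [mem_filter, mem_range] at hu ⊢
    refine ⟨Nat.mod_lt _ hQ, ?_⟩
    refine Nat.coprime_of_dvd fun l hl hlQ hlu => ?_
    have h1 : l ∣ s := by
      rw [hQm] at hlQ
      rcases (Nat.Prime.dvd_mul hl).1 hlQ with h2 | h2
      · have h3 : l ∣ 2 := hl.dvd_of_dvd_pow h2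
        exact (h3.trans (dvd_pow_self 2 (by omega))).trans (Dvd.intro _ rfl)
      · exact h2.trans (Dvd.intro_left _ rfl)
    have h2 : l ∣ u + s := by
      rw [← Nat.mod_add_div (u + s) Q]
      exact dvd_add hlu (hlQ.trans (Dvd.intro _ rfl))
    have h3 : l ∣ u := (Nat.dvd_add_left h1).1 h2
    have h5 := Nat.dvd_gcd hlQ h3
    rw [hu.2.gcd_eq_one] at h5
    exact hl.one_lt.ne' (Nat.dvd_one.1 h5)
  have hinj : Set.InjOn (fun u => (u + s) % Q) (UU Q : Set ℕ) := by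
    intro u hu v hv huv
    rw [Finset.mem_coe] at hu hv
    unfold UU at hu hv
    rw [mem_filter, mem_range] at hu hv
    have h1 : u + s ≡ v + s [MOD Q] := huv
    have h2 : u ≡ v [MOD Q] := Nat.ModEq.add_right_cancel' s h1
    exact Nat.ModEq.eq_of_lt_of_lt h2 hu.1 hv.1
  have himg : (UU Q).image (fun u => (u + s) % Q) = UU Q := by
    refine Finset.eq_of_subset_of_card_le (fun v hv => ?_) ?_
    · rw [mem_image] at hv
      obtain ⟨u, hu, rfl⟩ := hv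
      exact hmap u hu
    · rw [Finset.card_image_of_injOn hinj]
  have h1 : ∑ u ∈ UU Q, e1 ((u : ℝ) * ((q : ℚ) : ℝ)) = -∑ u ∈ UU Q, e1 ((u : ℝ) * ((q : ℚ) : ℝ)) := by
    conv_lhs => rw [← himg]
    rw [Finset.sum_image (fun u hu v hv h => hinj hu hv h), ← Finset.sum_neg_distrib]
    exact Finset.sum_congr rfl fun u _ => hsh u
  have h2 : (2 : ℂ) * ∑ u ∈ UU Q, e1 ((u : ℝ) * ((q : ℚ) : ℝ)) = 0 := by linear_combination h1
  exact (mul_eq_zero.1 h2).resolve_left two_ne_zero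

end Pool.Agent.Lib.MP_de5eaa_nt.Near
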