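import Pool.Agent.Lib.MP_de5eaa_nt.Near.Q9

/-! An upper bound for `lcm (M + 1, ..., M + w)` (by helper88, `Win/X1`, here for `LW`). -/

set_option autoImplicit false

namespace Pool.Agent.Lib.MP_de5eaa_nt.Near

open Finset Filter Topology
open Pool.Agent.Lib.MP_de5eaa_nt.Poi (QQ UU)

theorem LW_term {M w n : ℕ} (hn : M < n) (hn2 : n ≤ M + w) : n ∣ QQ w * (M + w).choose w := by
  have hQ : QQ w ≠ 0 := (QQ_pos0 w).ne'
  have hC : (M + w).choose w ≠ 0 := (Nat.choose_pos (by omega)).ne'
  have hn0 : n ≠ 0 := by omega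
  rw [← Nat.factorization_prime_le_iff_dvd hn0 (mul_ne_zero hQ hC)]
  intro p hp
  rw [Nat.factorization_mul hQ hC, Finsupp.add_apply]
  set e := n.factorization p with he
  have h1 : Nat.log p w ≤ (QQ w).factorization p := by
    rcases Nat.eq_zero_or_pos w with h0 | h0
    · rw [h0]
      simp
    · rw [← hp.pow_dvd_iff_le_factorization hQ]
      unfold QQ
      refine Finset.dvd_lcm (f := id) (mem_Icc.2 ⟨Nat.one_le_pow _ _ hp.pos, ?_⟩)
      exact Nat.pow_log_le_self p (by omega)
  have h2 : e - Nat.log p w ≤ ((M + w).choose w).factorization p := by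
    have h3 := Nat.factorization_choose' (p := p) (n := M) (k := w)
      (b := Nat.log p (M + w) + 1 + (e + 1)) hp (by omega)
    rw [h3]
    have h4 : Ico (Nat.log p w + 1) (e + 1) ⊆ (Ico 1 (Nat.log p (M + w) + 1 + (e + 1))).filter
        fun i => p ^ i ≤ w % p ^ i + M % p ^ i := by
      intro i hi
      rw [mem_Ico] at hi
      rw [mem_filter, mem_Ico]
      refine ⟨⟨by omega, by omega⟩, ?_⟩
      have h5 : w < p ^ i := Nat.lt_pow_of_log_lt hp.one_lt (by omega)
      have h6 : p ^ i ∣ n := (hp.pow_dvd_iff_le_factorization hn0).2 (by omega)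
      rw [Nat.mod_eq_of_lt h5]
      obtain ⟨c, hc⟩ := h6
      have h7 := Nat.div_add_mod M (p ^ i)
      set q := p ^ i with hq
      set a := M / q with ha
      have h8 : M % q < q := Nat.mod_lt _ (by omega)
      -- `q c = n > M ≥ q a`, so `c ≥ a + 1`
      have h9 : a < c := by
        by_contra hcon
        push Not at hcon
        have : q * c ≤ q * a := Nat.mul_le_mul_left q hcon
        omega
      have h10 : q * (a + 1) ≤ q * c := Nat.mul_le_mul_left q h9
      have h11 : q * (a + 1) = q * a + q := by ring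
      omega
    have h5 := Finset.card_le_card h4
    rw [Nat.card_Ico] at h5
    omega
  omega

theorem LW_dvd (M w : ℕ) : LW M w ∣ QQ w * (M + w).choose w := by
  unfold LW
  refine Finset.lcm_dvd fun i hi => ?_
  rw [mem_Icc] at hi
  exact LW_term (by simp only [id]; omega) (by simp only [id]; omega)

theorem log_QQ_le6 (w : ℕ) : Real.log (QQ w : ℝ) ≤ 6 * w := by
  have e : Real.log (QQ w : ℝ) = Chebyshev.psi w := (Chebyshev.psi_eq_log_lcmUpto w).symm
  rw [e]
  have h1 := Chebyshev.psi_le_const_mul_self (x := (w : ℝ)) (Nat.cast_nonneg w)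
  refine h1.trans ?_
  apply mul_le_mul_of_nonneg_right _ (Nat.cast_nonneg w)
  have h2 : Real.log 4 = 2 * Real.log 2 := by
    rw [show (4 : ℝ) = 2 ^ 2 by norm_num, Real.log_pow]
    norm_num
  have h3 := Real.log_two_lt_d9
  rw [h2]
  linarith

theorem log_choose_le {M w : ℕ} (hw : 1 ≤ w) :
    Real.log ((M + w).choose w : ℝ) ≤ w * (1 + Real.log (((M + w : ℕ) : ℝ) / w)) := by
  have hw0 : (0 : ℝ) < w := by exact_mod_cast hw
  have hT0 : (0 : ℝ) < ((M + w : ℕ) : ℝ) := by
    have : 0 < M + w := by omega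
    exact_mod_cast this
  have hC : (0 : ℝ) < ((M + w).choose w : ℝ) := by
    exact_mod_cast Nat.choose_pos (by omega)
  have h1 : ((M + w).choose w : ℝ) ≤ (((M + w : ℕ) : ℝ) ^ w) / (Nat.factorial w : ℝ) :=
    Nat.choose_le_pow_div w (M + w)
  have h2 := Real.pow_div_factorial_le_exp (x := (w : ℝ)) hw0.le w
  have h3 : (((M + w : ℕ) : ℝ) ^ w) / (Nat.factorial w : ℝ) =
      (((M + w : ℕ) : ℝ) / w) ^ w * ((w : ℝ) ^ w / (Nat.factorial w : ℝ)) := by
    rw [div_pow]
    have : (0 : ℝ) < (w : ℝ) ^ w := by positivity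
    field_simp
  have h4 : ((M + w).choose w : ℝ) ≤ (((M + w : ℕ) : ℝ) / w) ^ w * Real.exp w := by
    rw [h3] at h1
    exact h1.trans (mul_le_mul_of_nonneg_left h2 (by positivity))
  have h5 := Real.log_le_log hC h4
  rw [Real.log_mul (by positivity) (Real.exp_ne_zero _), Real.log_pow, Real.log_exp] at h5
  linarith

/-- the length of the pieces -/
noncomputable def wlen (l T : ℝ) : ℝ := l / (64 * Real.log (2 + T / l))

theorem LW_log {M w : ℕ} {l T : ℝ} (hl : 0 < l) (hw : 1 ≤ w) (hT : ((M + w : ℕ) : ℝ) ≤ T) (hwl : (w : ℝ) ≤ wlen l T) :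
    Real.log (LW M w : ℝ) ≤ l / 2 := by
  have hw0 : (1 : ℝ) ≤ w := by exact_mod_cast hw
  have hwT : (w : ℝ) ≤ ((M + w : ℕ) : ℝ) := by exact_mod_cast Nat.le_add_left w M
  have hT0 : 0 < T := by linarith
  have hTl : 0 < T / l := by positivity
  set B := 2 + T / l with hB
  have hB2 : 2 ≤ B := by linarith
  have hl2 : 0.69 < Real.log 2 := by
    have := Real.log_two_gt_d9
    linarith
  have hlB : Real.log 2 ≤ Real.log B := Real.log_le_log (by norm_num) hB2
  have hlB0 : 0 < Real.log B := by linarith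
  have h1 : (w : ℝ) * Real.log B ≤ l / 64 := by
    unfold wlen at hwl
    rw [le_div_iff₀ (by positivity)] at hwl
    linarith
  have h2 : (w : ℝ) ≤ l / 44 := by
    have : (w : ℝ) * 0.69 ≤ w * Real.log B := mul_le_mul_of_nonneg_left (by linarith) (by linarith)
    linarith
  have hQr : (0 : ℝ) < QQ w := by exact_mod_cast QQ_pos0 w
  have hC : (0 : ℝ) < ((M + w).choose w : ℝ) := by
    exact_mod_cast Nat.choose_pos (by omega)
  have hLr : (0 : ℝ) < LW M w := by exact_mod_cast LW_pos M w
  have h3 : (LW M w : ℝ) ≤ (QQ w : ℝ) * ((M + w).choose w : ℝ) := by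
    have : LW M w ≤ QQ w * (M + w).choose w :=
      Nat.le_of_dvd (Nat.mul_pos (QQ_pos0 w) (Nat.choose_pos (by omega)))
        (LW_dvd M w)
    exact_mod_cast this
  have h4 := Real.log_le_log hLr h3
  rw [Real.log_mul hQr.ne' hC.ne'] at h4
  have h5 := log_QQ_le6 w
  have h6 := log_choose_le (M := M) hw
  have h7 : Real.log (((M + w : ℕ) : ℝ) / w) ≤ Real.log (T / w) := by
    apply Real.log_le_log
    · apply div_pos _ (by linarith)
      linarith
    · exact div_le_div_of_nonneg_right hT (by linarith)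
  -- `w log (T / w) ≤ T / K + w log K`, `K = 8 B`
  have h8 : (w : ℝ) * Real.log (T / w) ≤ l / 8 + w * (3 * Real.log 2 + Real.log B) := by
    have e1 : T / w = (T / (w * (8 * B))) * (8 * B) := by
      field_simp
    have h9 : 0 < T / (w * (8 * B)) := by positivity
    rw [e1, Real.log_mul h9.ne' (by positivity), Real.log_mul (by norm_num) (by positivity)]
    have h10 : Real.log (T / (w * (8 * B))) ≤ T / (w * (8 * B)) := (Real.log_le_sub_one_of_pos h9).trans (by linarith)
    have h11 : Real.log 8 = 3 * Real.log 2 := by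
      rw [show (8 : ℝ) = 2 ^ 3 by norm_num, Real.log_pow]
      norm_num
    rw [h11]
    have h12 : (w : ℝ) * (T / (w * (8 * B))) ≤ l / 8 := by
      have e2 : (w : ℝ) * (T / (w * (8 * B))) = T / (8 * B) := by
        field_simp
      rw [e2, div_le_div_iff₀ (by positivity) (by norm_num)]
      have h13 : T ≤ l * B := by
        rw [hB]
        have : l * (2 + T / l) = 2 * l + T := by field_simp
        rw [this]
        linarith
      nlinarith
    have h13 : (w : ℝ) * Real.log (T / (w * (8 * B))) ≤ w * (T / (w * (8 * B))) :=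
      mul_le_mul_of_nonneg_left h10 (by linarith)
    have e3 : (w : ℝ) * (Real.log (T / (w * (8 * B))) + (3 * Real.log 2 + Real.log B)) =
      w * Real.log (T / (w * (8 * B))) + w * (3 * Real.log 2 + Real.log B) := by ring
    rw [e3]
    linarith
  have h9 : (w : ℝ) * Real.log (((M + w : ℕ) : ℝ) / w) ≤ w * Real.log (T / w) :=
    mul_le_mul_of_nonneg_left h7 (by linarith)
  have hl2' : Real.log 2 < 0.7 := by
    have := Real.log_two_lt_d9
    linarith
  have h10 : (w : ℝ) * (3 * Real.log 2) ≤ w * 2.1 := mul_le_mul_of_nonneg_left (by linarith) (by linarith)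
  have h11 : (w : ℝ) * (1 + Real.log (((M + w : ℕ) : ℝ) / w)) = w + w * Real.log (((M + w : ℕ) : ℝ) / w) := by ring
  have h12 : (w : ℝ) * (3 * Real.log 2 + Real.log B) = w * (3 * Real.log 2) + w * Real.log B := by ring
  linarith

end Pool.Agent.Lib.MP_de5eaa_nt.Near
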