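import Pool.Agent.Lib.MP_de5eaa_nt.Near.Q10

/-! The large sieve inequality for the Wilson quotients, for every window. -/

set_option autoImplicit false

namespace Pool.Agent.Lib.MP_de5eaa_nt.Near

open Finset Filter Topology

theorem sum_Ioc_add {E : Type*} [AddCommMonoid E] (f : ℕ → E) (M a b : ℕ) :
    ∑ n ∈ Ioc M (M + (a + b)), f n = ∑ n ∈ Ioc M (M + a), f n + ∑ n ∈ Ioc (M + a) (M + a + b), f n := by
  rw [← Finset.sum_union]
  · congr 1
    ext n
    rw [mem_union, mem_Ioc, mem_Ioc, mem_Ioc]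
    omega
  · rw [Finset.disjoint_left]
    intro n h1 h2
    rw [mem_Ioc] at h1 h2
    omega

theorem pieces_c (P : Finset ℕ) (c : ℕ → ℂ) (Y : ℕ → ℕ → ℝ) {B : ℝ} (hB : 0 ≤ B) {w T : ℕ} (hw : 1 ≤ w)
    (h : ∀ M L : ℕ, 1 ≤ L → L ≤ w → M + L ≤ T →
      ∑ p ∈ P, ‖∑ n ∈ Ioc M (M + L), c n * e1 (Y p n)‖ ^ 2 ≤ B * ∑ n ∈ Ioc M (M + L), ‖c n‖ ^ 2) :
    ∀ k M L : ℕ, L ≤ (k + 1) * w → M + L ≤ T → ∑ p ∈ P, ‖∑ n ∈ Ioc M (M + L), c n * e1 (Y p n)‖ ^ 2 ≤
      ((k : ℝ) + 1) * B * ∑ n ∈ Ioc M (M + L), ‖c n‖ ^ 2 := by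
  intro k
  induction k with
  | zero =>
    intro M L hL hT
    rcases Nat.eq_zero_or_pos L with h0 | h0
    · rw [h0]
      simp
    · have := h M L h0 (by omega) hT
      push_cast
      linarith
  | succ k ih =>
    intro M L hL hT
    have hS0 : ∀ M L : ℕ, 0 ≤ ∑ n ∈ Ioc M (M + L), ‖c n‖ ^ 2 := fun M L => Finset.sum_nonneg fun n _ => sq_nonneg _
    by_cases hs : L ≤ (k + 1) * w
    · have h1 := ih M L hs hT
      refine h1.trans ?_
      push_cast
      have : 0 ≤ B * ∑ n ∈ Ioc M (M + L), ‖c n‖ ^ 2 := mul_nonneg hB (hS0 M L)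
      nlinarith
    · push Not at hs
      obtain ⟨b, hb⟩ : ∃ b, L = (k + 1) * w + b := ⟨L - (k + 1) * w, by omega⟩
      set a := (k + 1) * w with ha
      have hb1 : 1 ≤ b := by omega
      have hbw : b ≤ w := by
        have : (k + 1 + 1) * w = (k + 1) * w + w := by ring
        rw [this] at hL
        omega
      have h1 := ih M a le_rfl (by omega)
      have h2 := h (M + a) b hb1 hbw (by omega)
      have hk : (0 : ℝ) < (k : ℝ) + 1 := by positivity
      have h3 : ∀ p ∈ P, ‖∑ n ∈ Ioc M (M + L), c n * e1 (Y p n)‖ ^ 2 ≤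
          (1 + 1 / ((k : ℝ) + 1)) * ‖∑ n ∈ Ioc M (M + a), c n * e1 (Y p n)‖ ^ 2 +
          (1 + ((k : ℝ) + 1)) * ‖∑ n ∈ Ioc (M + a) (M + a + b), c n * e1 (Y p n)‖ ^ 2 := by
        intro p _
        rw [hb, sum_Ioc_add]
        have h4 := norm_add_le (∑ n ∈ Ioc M (M + a), c n * e1 (Y p n)) (∑ n ∈ Ioc (M + a) (M + a + b), c n * e1 (Y p n))
        have h5 := pow_le_pow_left₀ (norm_nonneg _) h4 2
        refine h5.trans ?_
        set u := ‖∑ n ∈ Ioc M (M + a), c n * e1 (Y p n)‖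
        set v := ‖∑ n ∈ Ioc (M + a) (M + a + b), c n * e1 (Y p n)‖
        have h6 : (1 + 1 / ((k : ℝ) + 1)) * u ^ 2 + (1 + ((k : ℝ) + 1)) * v ^ 2 - (u + v) ^ 2 =
            (u - ((k : ℝ) + 1) * v) ^ 2 / ((k : ℝ) + 1) := by
          field_simp
          ring
        have h7 : 0 ≤ (u - ((k : ℝ) + 1) * v) ^ 2 / ((k : ℝ) + 1) := by positivity
        linarith
      refine (Finset.sum_le_sum h3).trans ?_
      rw [Finset.sum_add_distrib, ← Finset.mul_sum, ← Finset.mul_sum, hb, sum_Ioc_add]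
      set U := ∑ n ∈ Ioc M (M + a), ‖c n‖ ^ 2
      set V := ∑ n ∈ Ioc (M + a) (M + a + b), ‖c n‖ ^ 2
      have h4 : (1 + 1 / ((k : ℝ) + 1)) * ∑ p ∈ P, ‖∑ n ∈ Ioc M (M + a), c n * e1 (Y p n)‖ ^ 2 ≤
          (1 + 1 / ((k : ℝ) + 1)) * (((k : ℝ) + 1) * B * U) := mul_le_mul_of_nonneg_left h1 (by positivity)
      have h5 : (1 + ((k : ℝ) + 1)) * ∑ p ∈ P, ‖∑ n ∈ Ioc (M + a) (M + a + b), c n * e1 (Y p n)‖ ^ 2 ≤
          (1 + ((k : ℝ) + 1)) * (B * V) := mul_le_mul_of_nonneg_left h2 (by positivity)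
      have h6 : (1 + 1 / ((k : ℝ) + 1)) * (((k : ℝ) + 1) * B * U) = (1 + ((k : ℝ) + 1)) * (B * U) := by
        field_simp
        ring
      rw [h6] at h4
      push_cast
      linarith

/-- **the large sieve inequality for the Wilson quotients** -/
theorem mom_all : ∃ C : ℝ, 0 < C ∧ ∃ x0 : ℕ, 2 ≤ x0 ∧ ∀ x M L : ℕ, x0 ≤ x → ∀ (j : ℤ) (t : ℕ), ¬ (2 : ℤ) ^ (t + 1) ∣ j →
    (j : ℝ) ^ 2 ≤ 10 ^ 6 * Real.log x ^ 3 → ∀ c : ℕ → ℂ,
    ∑ p ∈ pr x, ‖∑ n ∈ Ioc M (M + L), c n * e1 ((j : ℝ) * yy p n)‖ ^ 2 ≤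
      C * (1 + L * (Real.log (2 + ((M : ℝ) + L) / Real.log x) / Real.log x)) * 2 ^ t * ppi x *
        ∑ n ∈ Ioc M (M + L), ‖c n‖ ^ 2 := by
  obtain ⟨C0, hC0, x1, hmom⟩ := mom_w (δ := 1 / 2) (by norm_num) le_rfl
  refine ⟨128 * C0 + 64, by positivity, max x1 2, le_max_right _ _, fun x M L hx j t hj hj2 c => ?_⟩
  have hxx1 : x1 ≤ x := (le_max_left _ _).trans hx
  have hxx2 : 2 ≤ x := (le_max_right _ _).trans hx
  have hx2r : (2 : ℝ) ≤ x := by exact_mod_cast hxx2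
  have hx0 : (0 : ℝ) < x := by linarith
  have hl : 0 < Real.log (x : ℝ) := Real.log_pos (by linarith)
  rcases Nat.eq_zero_or_pos L with hL0 | hL1
  · subst hL0
    simp
  have hLr : (1 : ℝ) ≤ L := by exact_mod_cast hL1
  have hM0 : (0 : ℝ) ≤ M := Nat.cast_nonneg M
  set l := Real.log (x : ℝ) with hldef
  set T : ℝ := (M : ℝ) + L with hT
  have hT0 : 0 < T := by linarith
  set b : ℝ := Real.log (2 + T / l) with hb
  have hl2 : 0.69 < Real.log 2 := by
    have := Real.log_two_gt_d9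
    linarith
  have hb2 : Real.log 2 ≤ b := Real.log_le_log (by norm_num) (by linarith [div_pos hT0 hl])
  have hb0 : 0 < b := by linarith
  set Sc := ∑ n ∈ Ioc M (M + L), ‖c n‖ ^ 2 with hSc
  have hSc0 : 0 ≤ Sc := Finset.sum_nonneg fun n _ => sq_nonneg _
  have hpp : (0 : ℝ) ≤ ppi x := Nat.cast_nonneg _
  have ht1 : (1 : ℝ) ≤ 2 ^ t := one_le_pow₀ (by norm_num)
  have hbl : 0 < b / l := by positivity
  have hPS : 0 ≤ 2 ^ t * (ppi x : ℝ) * Sc := by positivity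
  by_cases hw : 1 ≤ wlen l T
  · set w := ⌊wlen l T⌋₊ with hwdef
    have hwl : (w : ℝ) ≤ wlen l T := Nat.floor_le (by linarith)
    have hw1 : 1 ≤ w := by
      rw [hwdef, Nat.one_le_floor_iff]
      exact hw
    have hwg : wlen l T / 2 ≤ w := by
      have h1 : wlen l T < (w : ℝ) + 1 := Nat.lt_floor_add_one _
      have h2 : (1 : ℝ) ≤ w := by exact_mod_cast hw1
      linarith
    have hB : 0 ≤ C0 * 2 ^ t * (ppi x : ℝ) := by positivity
    have h1 := pieces_c (pr x) c (fun p n => (j : ℝ) * yy p n) hB (w := w) (T := M + L) hw1 (by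
      intro M' L' hL' hLw hTT
      have hc : (LW M' L' : ℝ) ≤ (x : ℝ) ^ (1 - 1 / 2 : ℝ) := by
        have h1 : Real.log (LW M' L' : ℝ) ≤ l / 2 := by
          apply LW_log hl hL' (T := T)
          · rw [hT]
            exact_mod_cast hTT
          · refine le_trans ?_ hwl
            exact_mod_cast hLw
        have hLr : (0 : ℝ) < LW M' L' := by exact_mod_cast LW_pos M' L'
        rw [← Real.exp_log hLr, ← Real.exp_log (Real.rpow_pos_of_pos hx0 _), Real.log_rpow hx0]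
        apply Real.exp_le_exp.2
        linarith
      exact hmom x M' L' hxx1 hc j t hj hj2 c) (L / w) M L (by
        have h3 := Nat.lt_div_mul_add (a := L) (b := w) (by omega)
        have h4 : (L / w + 1) * w = L / w * w + w := by ring
        omega) le_rfl
    refine h1.trans ?_
    have h2 : ((L / w : ℕ) : ℝ) + 1 ≤ 128 * (1 + L * (b / l)) := by
      have h3 : ((L / w : ℕ) : ℝ) ≤ (L : ℝ) / w := Nat.cast_div_le
      have hw0 : (0 : ℝ) < w := by exact_mod_cast hw1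
      have h4 : (L : ℝ) / w ≤ L / (wlen l T / 2) := by
        apply div_le_div_of_nonneg_left (by linarith) (by linarith) hwg
      have h5 : (L : ℝ) / (wlen l T / 2) = 128 * (L * (b / l)) := by
        unfold wlen
        rw [← hb]
        field_simp
        norm_num
      linarith
    have h3 : (((L / w : ℕ) : ℝ) + 1) * (C0 * 2 ^ t * (ppi x : ℝ)) * Sc ≤
        (128 * (1 + L * (b / l))) * (C0 * 2 ^ t * (ppi x : ℝ)) * Sc :=
      mul_le_mul_of_nonneg_right (mul_le_mul_of_nonneg_right h2 hB) hSc0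
    refine h3.trans ?_
    have h4 : (128 * (1 + L * (b / l))) * (C0 * 2 ^ t * (ppi x : ℝ)) * Sc =
        (128 * C0) * ((1 + L * (b / l)) * (2 ^ t * ppi x * Sc)) := by ring
    have h5 : (128 * C0 + 64) * (1 + L * (b / l)) * 2 ^ t * (ppi x : ℝ) * Sc =
        (128 * C0 + 64) * ((1 + L * (b / l)) * (2 ^ t * ppi x * Sc)) := by ring
    rw [h4, h5]
    apply mul_le_mul_of_nonneg_right (by linarith)
    positivity
  · push Not at hw
    have hbl1 : 1 ≤ 64 * (b / l) := by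
      unfold wlen at hw
      rw [← hb, div_lt_one (by positivity)] at hw
      rw [← mul_div_assoc, le_div_iff₀ hl]
      linarith
    have h1 : ∀ p ∈ pr x, ‖∑ n ∈ Ioc M (M + L), c n * e1 ((j : ℝ) * yy p n)‖ ^ 2 ≤ L * Sc := by
      intro p _
      have h1 : ‖∑ n ∈ Ioc M (M + L), c n * e1 ((j : ℝ) * yy p n)‖ ^ 2 ≤ (∑ n ∈ Ioc M (M + L), ‖c n‖) ^ 2 := by
        refine pow_le_pow_left₀ (norm_nonneg _) ?_ 2
        refine (norm_sum_le _ _).trans (le_of_eq (Finset.sum_congr rfl fun n _ => ?_))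
        rw [norm_mul, norm_e1, mul_one]
      refine h1.trans ?_
      have h3 := sq_sum_le_card_mul_sum_sq (s := Ioc M (M + L)) (f := fun n => ‖c n‖)
      rw [Nat.card_Ioc, Nat.add_sub_cancel_left] at h3
      exact h3
    refine (Finset.sum_le_sum h1).trans ?_
    rw [Finset.sum_const, nsmul_eq_mul, pr_card]
    have h2 : (L : ℝ) ≤ 64 * (1 + L * (b / l)) := by
      have h3 : (L : ℝ) * 1 ≤ L * (64 * (b / l)) := mul_le_mul_of_nonneg_left hbl1 (by linarith)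
      linarith
    have hV0 : 0 ≤ (1 + L * (b / l)) := by positivity
    have h3 : (L : ℝ) ≤ (128 * C0 + 64) * (1 + L * (b / l)) * 2 ^ t := by
      have h4 : 64 * (1 + L * (b / l)) ≤ (128 * C0 + 64) * (1 + L * (b / l)) :=
        mul_le_mul_of_nonneg_right (by linarith) hV0
      have h5 : (128 * C0 + 64) * (1 + L * (b / l)) ≤ (128 * C0 + 64) * (1 + L * (b / l)) * 2 ^ t :=
        le_mul_of_one_le_right (by positivity) ht1
      linarith
    have h4 : (ppi x : ℝ) * (L * Sc) = L * (ppi x * Sc) := by ring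
    have h5 : (128 * C0 + 64) * (1 + L * (b / l)) * 2 ^ t * (ppi x : ℝ) * Sc =
        ((128 * C0 + 64) * (1 + L * (b / l)) * 2 ^ t) * (ppi x * Sc) := by ring
    rw [h4, h5]
    exact mul_le_mul_of_nonneg_right h3 (by positivity)

end Pool.Agent.Lib.MP_de5eaa_nt.Near
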