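import Pool.Agent.Lib.MP_de5eaa_nt.Near.Q11

/-! The trivial bound for the length of a window. -/

set_option autoImplicit false

namespace Pool.Agent.Lib.MP_de5eaa_nt.Near

open Finset Filter Topology

/-- the bound of the length of the window if `N` is large or `x` small -/
theorem L_le_V {x M L x0 N : ℕ} (hx : 2 ≤ x) (hN : 1 ≤ N)
    (h : ¬ (x0 ≤ x ∧ (N : ℝ) ^ 2 ≤ Real.log x)) :
    (L : ℝ) ≤ (2 * x0 + 2) * ((N : ℝ) ^ 2 * (1 + Real.log N) ^ 3) *
      (1 + L * (Real.log (2 + ((M : ℝ) + L) / Real.log x) / Real.log x)) := by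
  have hNp : (1 : ℝ) ≤ N := by exact_mod_cast hN
  have hlN : 0 ≤ Real.log N := Real.log_nonneg hNp
  set X := (N : ℝ) ^ 2 * (1 + Real.log N) ^ 3 with hX
  have hX1 : (N : ℝ) ^ 2 ≤ X := by
    rw [hX]
    have h1 : (1 : ℝ) ≤ (1 + Real.log N) ^ 3 := one_le_pow₀ (by linarith)
    nlinarith [sq_nonneg (N : ℝ)]
  have hX1' : 1 ≤ X := by nlinarith
  have hx2r : (2 : ℝ) ≤ x := by exact_mod_cast hx
  have hx0 : (0 : ℝ) < x := by linarith
  have hl : 0 < Real.log (x : ℝ) := Real.log_pos (by linarith)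
  set l := Real.log (x : ℝ) with hldef
  set T : ℝ := (M : ℝ) + L with hT
  have hM0 : (0 : ℝ) ≤ M := Nat.cast_nonneg M
  have hL0 : (0 : ℝ) ≤ L := Nat.cast_nonneg L
  have hT0 : 0 ≤ T := by linarith
  set b : ℝ := Real.log (2 + T / l) with hb
  have hl2 : 0.5 < Real.log 2 := by
    have := Real.log_two_gt_d9
    linarith
  have hb2 : Real.log 2 ≤ b := Real.log_le_log (by norm_num) (by linarith [div_nonneg hT0 hl.le])
  have hb0 : 0.5 < b := by linarith
  have h0 : (0 : ℝ) ≤ x0 := Nat.cast_nonneg _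
  have hlX : l ≤ (x0 + 1) * X := by
    by_cases h1 : x0 ≤ x
    · have h2 : l < (N : ℝ) ^ 2 := by
        by_contra hcon
        exact h ⟨h1, not_lt.1 hcon⟩
      nlinarith
    · have h2 : (x : ℝ) ≤ x0 := by exact_mod_cast (not_le.1 h1).le
      have h3 : l ≤ x := (Real.log_le_sub_one_of_pos hx0).trans (by linarith)
      nlinarith
  have h1 : (L : ℝ) * l ≤ L * (2 * b * ((x0 + 1) * X)) := by
    apply mul_le_mul_of_nonneg_left _ hL0
    have h2 : (1 : ℝ) ≤ 2 * b := by linarith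
    have h3 : 0 ≤ ((x0 : ℝ) + 1) * X := by positivity
    nlinarith
  have h2 : (L : ℝ) ≤ L * (2 * b * ((x0 + 1) * X)) / l := by
    rw [le_div_iff₀ hl]
    exact h1
  refine h2.trans ?_
  have h3 : (L : ℝ) * (2 * b * ((x0 + 1) * X)) / l = (2 * x0 + 2) * X * (L * (b / l)) := by
    field_simp
  rw [h3]
  apply mul_le_mul_of_nonneg_left (by linarith)
  positivity

end Pool.Agent.Lib.MP_de5eaa_nt.Near
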