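import Pool.Agent.Lib.MP_de5eaa_nt.Near.Q12

/-! Independence of given data: finite families of sets that approximate all sets `{p ∈ S | Y_i p ≤ t_i}`. -/

set_option autoImplicit false

namespace Pool.Agent.Lib.MP_de5eaa_nt.Near

open Finset Filter Topology

open Classical in
/-- a finite family approximating the lower sets of one function -/
theorem lower_family (S : Finset ℕ) (Y : ℕ → ℝ) {R : ℕ} (hR : 1 ≤ R) :
    ∃ 𝒯 : Finset (Finset ℕ), 𝒯.card ≤ 2 * (R + 1) ∧ (∀ B ∈ 𝒯, B ⊆ S) ∧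
      ∀ t : ℝ, ∃ B₁ ∈ 𝒯, ∃ B₂ ∈ 𝒯, B₁ ⊆ S.filter (fun p => Y p ≤ t) ∧ S.filter (fun p => Y p ≤ t) ⊆ B₂ ∧
        ((B₂.card : ℝ) - B₁.card) ≤ (S.card : ℝ) / R := by
  set U : ℝ → Finset ℕ := fun t => S.filter (fun p => Y p ≤ t) with hU
  set 𝒰 : Finset (Finset ℕ) := S.powerset.filter (fun B => ∃ t, B = U t) with h𝒰
  have hchain : ∀ B ∈ 𝒰, ∀ B' ∈ 𝒰, B.card ≤ B'.card → B ⊆ B' := by
    intro B hB B' hB' hc
    rw [h𝒰, mem_filter] at hB hB'
    obtain ⟨t, ht⟩ := hB.2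
    obtain ⟨t', ht'⟩ := hB'.2
    rcases le_total t t' with h | h
    · rw [ht, ht']
      intro p hp
      rw [hU] at hp ⊢
      simp only [mem_filter] at hp ⊢
      exact ⟨hp.1, hp.2.trans h⟩
    · have h1 : B' ⊆ B := by
        rw [ht, ht']
        intro p hp
        rw [hU] at hp ⊢
        simp only [mem_filter] at hp ⊢
        exact ⟨hp.1, hp.2.trans h⟩
      have h2 : B' = B := Finset.eq_of_subset_of_card_le h1 hc
      rw [h2]
  set cl : Finset ℕ → ℕ := fun B => B.card * R / S.card with hcl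
  set 𝒰j : ℕ → Finset (Finset ℕ) := fun j => 𝒰.filter (fun B => cl B = j) with h𝒰j
  have hmin : ∀ j, (𝒰j j).Nonempty → ∃ B ∈ 𝒰j j, ∀ B' ∈ 𝒰j j, B.card ≤ B'.card :=
    fun j hj => Finset.exists_min_image (𝒰j j) Finset.card hj
  have hmax : ∀ j, (𝒰j j).Nonempty → ∃ B ∈ 𝒰j j, ∀ B' ∈ 𝒰j j, B'.card ≤ B.card :=
    fun j hj => Finset.exists_max_image (𝒰j j) Finset.card hj
  choose! mn hmn1 hmn2 using hmin
  choose! mx hmx1 hmx2 using hmax
  have hS𝒰 : ∀ B ∈ 𝒰, B ⊆ S := by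
    intro B hB
    rw [h𝒰, mem_filter, mem_powerset] at hB
    exact hB.1
  refine ⟨(range (R + 1)).biUnion (fun j => if (𝒰j j).Nonempty then {mn j, mx j} else ∅), ?_, ?_, ?_⟩
  · refine Finset.card_biUnion_le.trans ?_
    have h1 : ∀ j ∈ range (R + 1), (if (𝒰j j).Nonempty then ({mn j, mx j} : Finset (Finset ℕ)) else ∅).card ≤ 2 := by
      intro j _
      split_ifs
      · exact Finset.card_le_two
      · simp
    refine (Finset.sum_le_sum h1).trans ?_
    rw [Finset.sum_const, card_range, smul_eq_mul]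
    omega
  · intro B hB
    rw [mem_biUnion] at hB
    obtain ⟨j, _, hj⟩ := hB
    split_ifs at hj with h
    · rw [mem_insert, mem_singleton] at hj
      rcases hj with hj | hj
      · rw [hj]
        exact hS𝒰 _ (mem_filter.1 (hmn1 j h)).1
      · rw [hj]
        exact hS𝒰 _ (mem_filter.1 (hmx1 j h)).1
    · simp at hj
  · intro t
    set B := U t with hB
    have hBS : B ⊆ S := by
      rw [hB, hU]
      exact Finset.filter_subset _ _
    have hB𝒰 : B ∈ 𝒰 := by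
      rw [h𝒰, mem_filter, mem_powerset]
      exact ⟨hBS, t, hB⟩
    set j := cl B with hj
    have hBj : B ∈ 𝒰j j := by
      rw [h𝒰j]
      simp only [mem_filter]
      exact ⟨hB𝒰, hj.symm⟩
    have hne : (𝒰j j).Nonempty := ⟨B, hBj⟩
    have hBc := Finset.card_le_card hBS
    have hjR : j ≤ R := by
      rw [hj, hcl]
      dsimp only
      rcases Nat.eq_zero_or_pos S.card with h0 | h0
      · rw [h0, Nat.div_zero]
        exact Nat.zero_le _
      · refine Nat.div_le_of_le_mul ?_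
        exact Nat.mul_le_mul_right _ hBc
    have hmem : ∀ B' ∈ ({mn j, mx j} : Finset (Finset ℕ)),
        B' ∈ (range (R + 1)).biUnion (fun j => if (𝒰j j).Nonempty then {mn j, mx j} else ∅) := by
      intro B' hB'
      rw [mem_biUnion]
      refine ⟨j, mem_range.2 (by omega), ?_⟩
      rw [if_pos hne]
      exact hB'
    have hm1 := hmn1 j hne
    have hm2 := hmx1 j hne
    rw [h𝒰j] at hm1 hm2
    simp only [mem_filter] at hm1 hm2
    refine ⟨mn j, hmem _ (by simp), mx j, hmem _ (by simp), hchain _ hm1.1 _ hB𝒰 (hmn2 j hne B hBj),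
      hchain _ hB𝒰 _ hm2.1 (hmx2 j hne B hBj), ?_⟩
    have hRp : (0 : ℝ) < R := by exact_mod_cast hR
    rw [le_div_iff₀ hRp]
    rcases Nat.eq_zero_or_pos S.card with h0 | h0
    · have h1 : (mx j).card = 0 := by
        have := Finset.card_le_card (hS𝒰 _ hm2.1)
        omega
      rw [h1, h0]
      push_cast
      have : (0 : ℝ) ≤ (mn j).card := Nat.cast_nonneg _
      nlinarith
    · have h1 : (mx j).card * R < (j + 1) * S.card := by
        have h2 : (mx j).card * R / S.card = j := hm2.2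
        have h3 : (mx j).card * R < (((mx j).card * R / S.card) + 1) * S.card := by
          have h4 := Nat.lt_mul_div_succ ((mx j).card * R) h0
          rw [mul_comm (((mx j).card * R / S.card) + 1)]
          exact h4
        rw [h2] at h3
        exact h3
      have h2 : j * S.card ≤ (mn j).card * R := by
        have h2 : (mn j).card * R / S.card = j := hm1.2
        have h3 := Nat.div_mul_le_self ((mn j).card * R) S.card
        rw [h2] at h3
        exact h3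
      have h3 : ((mx j).card : ℝ) * R < ((j : ℝ) + 1) * S.card := by exact_mod_cast h1
      have h4 : (j : ℝ) * S.card ≤ ((mn j).card : ℝ) * R := by exact_mod_cast h2
      linarith

open Classical in
/-- a finite family approximating the sets cut out of `S` by several functions -/
theorem box_family (S : Finset ℕ) {r : ℕ} (Y : Fin r → ℕ → ℝ) {R : ℕ} (hR : 1 ≤ R) :
    ∃ 𝒯 : Finset (Finset ℕ), 𝒯.card ≤ (2 * (R + 1)) ^ r ∧ (∀ B ∈ 𝒯, B ⊆ S) ∧
      ∀ t : Fin r → ℝ, ∃ B₁ ∈ 𝒯, ∃ B₂ ∈ 𝒯, B₁ ⊆ S.filter (fun p => ∀ i, Y i p ≤ t i) ∧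
        S.filter (fun p => ∀ i, Y i p ≤ t i) ⊆ B₂ ∧ ((B₂.card : ℝ) - B₁.card) ≤ r * ((S.card : ℝ) / R) := by
  choose 𝒯 h1 h2 h3 using fun i => lower_family S (Y i) hR
  refine ⟨(Fintype.piFinset 𝒯).image (fun f => S.filter (fun p => ∀ i, p ∈ f i)), ?_, ?_, ?_⟩
  · refine Finset.card_image_le.trans ?_
    rw [Fintype.card_piFinset]
    refine (Finset.prod_le_pow_card _ _ _ fun i _ => h1 i).trans ?_
    rw [Finset.card_univ, Fintype.card_fin]
  · intro B hB
    rw [mem_image] at hB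
    obtain ⟨f, _, hf⟩ := hB
    rw [← hf]
    exact Finset.filter_subset _ _
  · intro t
    choose B₁ g1 B₂ g2 g3 g4 g5 using fun i => h3 i (t i)
    refine ⟨S.filter (fun p => ∀ i, p ∈ B₁ i), mem_image.2 ⟨B₁, Fintype.mem_piFinset.2 g1, rfl⟩,
      S.filter (fun p => ∀ i, p ∈ B₂ i), mem_image.2 ⟨B₂, Fintype.mem_piFinset.2 g2, rfl⟩, ?_, ?_, ?_⟩
    · intro p hp
      rw [mem_filter] at hp ⊢
      exact ⟨hp.1, fun i => (mem_filter.1 (g3 i (hp.2 i))).2⟩
    · intro p hp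
      rw [mem_filter] at hp ⊢
      exact ⟨hp.1, fun i => g4 i (mem_filter.2 ⟨hp.1, hp.2 i⟩)⟩
    · have hsub : S.filter (fun p => ∀ i, p ∈ B₁ i) ⊆ S.filter (fun p => ∀ i, p ∈ B₂ i) := by
        intro p hp
        rw [mem_filter] at hp ⊢
        exact ⟨hp.1, fun i => g4 i (g3 i (hp.2 i))⟩
      have hcard := Finset.card_sdiff_add_card_eq_card hsub
      have hdiff : (S.filter (fun p => ∀ i, p ∈ B₂ i)) \ (S.filter (fun p => ∀ i, p ∈ B₁ i)) ⊆
          Finset.univ.biUnion (fun i => B₂ i \ B₁ i) := by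
        intro p hp
        rw [Finset.mem_sdiff, mem_filter, mem_filter] at hp
        rw [mem_biUnion]
        have h4 : ¬ ∀ i, p ∈ B₁ i := fun h => hp.2 ⟨hp.1.1, h⟩
        push Not at h4
        obtain ⟨i, hi⟩ := h4
        exact ⟨i, mem_univ _, Finset.mem_sdiff.2 ⟨hp.1.2 i, hi⟩⟩
      have h5 := (Finset.card_le_card hdiff).trans Finset.card_biUnion_le
      have h6 : ((∑ i : Fin r, (B₂ i \ B₁ i).card : ℕ) : ℝ) ≤ r * ((S.card : ℝ) / R) := by
        push_cast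
        have h7 : ∀ i ∈ (Finset.univ : Finset (Fin r)), (((B₂ i \ B₁ i).card : ℕ) : ℝ) ≤ (S.card : ℝ) / R := by
          intro i _
          have h8 : B₁ i ⊆ B₂ i := (g3 i).trans (g4 i)
          have h9 := Finset.card_sdiff_add_card_eq_card h8
          have h10 : (((B₂ i \ B₁ i).card : ℕ) : ℝ) + ((B₁ i).card : ℝ) = (B₂ i).card := by exact_mod_cast h9
          have h11 := g5 i
          linarith
        refine (Finset.sum_le_sum h7).trans ?_
        rw [Finset.sum_const, Finset.card_univ, Fintype.card_fin, nsmul_eq_mul]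
      have h7 : (((S.filter (fun p => ∀ i, p ∈ B₂ i)) \ (S.filter (fun p => ∀ i, p ∈ B₁ i))).card : ℝ) +
          ((S.filter (fun p => ∀ i, p ∈ B₁ i)).card : ℝ) = ((S.filter (fun p => ∀ i, p ∈ B₂ i)).card : ℝ) := by
        exact_mod_cast hcard
      have h8 : (((S.filter (fun p => ∀ i, p ∈ B₂ i)) \ (S.filter (fun p => ∀ i, p ∈ B₁ i))).card : ℝ) ≤
          ((∑ i : Fin r, (B₂ i \ B₁ i).card : ℕ) : ℝ) := by exact_mod_cast h5
      linarith

open Classical in
/-- the number of the exceptions, from the second moments: any upper bound `T` of the number of the points -/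
theorem exc_T {N : ℕ} (hN : 1 ≤ N) (F : Finset ℕ) (Y : ℕ → ℕ → ℝ) {B T : ℝ} (hB : 0 ≤ B) {S : Finset ℕ}
    (hTp : 0 < T) (hST : (S.card : ℝ) ≤ T)
    (h : ∀ j : ℤ, j ≠ 0 → |j| ≤ ((10 * N) ^ 3 : ℕ) →
      ∑ n ∈ F, ‖∑ p ∈ S, e1 ((j : ℝ) * Y n p)‖ ^ 2 ≤ B * 2 ^ padicValNat 2 j.natAbs) :
    ((F.filter fun n => ∃ θ ℓ : ℝ, 0 ≤ ℓ ∧ ℓ ≤ 1 ∧ T / N <
      |((S.filter fun p => ∃ a : ℤ, θ ≤ Y n p - a ∧ Y n p - a ≤ θ + ℓ).card : ℝ) - ℓ * S.card|).card : ℝ) ≤
        100000 * (B / T ^ 2) * ((N : ℝ) ^ 2 * (1 + Real.log N) ^ 3) := by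
  set R : ℕ := 10 * N with hR
  have hR2 : 2 ≤ R := by omega
  set K := R ^ 3 with hK
  have hRp : (0 : ℝ) < R := by
    have : 0 < R := by omega
    exact_mod_cast this
  set W := ww K K with hW
  have hWp : 0 < W := ww_mid_pos hR2
  set H := ((harmonic K : ℚ) : ℝ) with hH
  set E := F.filter fun n => W * (T / R) < EE K S (Y n) with hE
  have h1 : (E.card : ℝ) * (W * (T / R)) ^ 2 ≤ ∑ n ∈ F, EE K S (Y n) ^ 2 := by
    rw [← nsmul_eq_mul, ← Finset.sum_const]
    have h2 : ∑ _n ∈ E, (W * (T / R)) ^ 2 ≤ ∑ n ∈ E, EE K S (Y n) ^ 2 := by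
      refine Finset.sum_le_sum fun n hn => ?_
      rw [hE, mem_filter] at hn
      exact pow_le_pow_left₀ (by positivity) hn.2.le 2
    exact h2.trans (Finset.sum_le_sum_of_subset_of_nonneg (Finset.filter_subset _ _) fun n _ _ => sq_nonneg _)
  have h2 := h1.trans (EE_ab K F Y hB h)
  rw [← hW, ← hH] at h2
  have e1 : (E.card : ℝ) * (W * (T / R)) ^ 2 = (E.card : ℝ) * (W ^ 2 * T ^ 2 / R ^ 2) := by
    ring
  have e2 : (W * H) * (B * W * (((Nat.log 2 K : ℕ) + 1) * H)) =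
      (B / T ^ 2 * (R : ℝ) ^ 2 * H ^ 2 * ((Nat.log 2 K : ℕ) + 1)) * (W ^ 2 * T ^ 2 / R ^ 2) := by
    field_simp
  rw [e1, e2] at h2
  have h3 : (E.card : ℝ) ≤ B / T ^ 2 * (R : ℝ) ^ 2 * H ^ 2 * ((Nat.log 2 K : ℕ) + 1) :=
    le_of_mul_le_mul_right h2 (by positivity)
  have h4 := const_le hN
  rw [← hR, ← hK, ← hH] at h4
  have hX0 : (0 : ℝ) ≤ (N : ℝ) ^ 2 * (1 + Real.log N) ^ 3 := by
    have : 0 ≤ Real.log N := Real.log_nonneg (by exact_mod_cast hN)
    positivity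
  have h5 : B / T ^ 2 * (R : ℝ) ^ 2 * H ^ 2 * ((Nat.log 2 K : ℕ) + 1) ≤
      100000 * (B / T ^ 2) * ((N : ℝ) ^ 2 * (1 + Real.log N) ^ 3) := by
    have h6 : (R : ℝ) ^ 2 * H ^ 2 * ((Nat.log 2 K : ℕ) + 1) ≤ 100000 * ((N : ℝ) ^ 2 * (1 + Real.log N) ^ 3) := by
      linarith
    have h7 := mul_le_mul_of_nonneg_left h6 (show 0 ≤ B / T ^ 2 by positivity)
    linarith
  refine le_trans ?_ (h3.trans h5)
  have h6 : (F.filter fun n => ∃ θ ℓ : ℝ, 0 ≤ ℓ ∧ ℓ ≤ 1 ∧ T / N <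
      |((S.filter fun p => ∃ a : ℤ, θ ≤ Y n p - a ∧ Y n p - a ≤ θ + ℓ).card : ℝ) - ℓ * S.card|) ⊆ E := by
    intro n hn
    rw [mem_filter] at hn
    rw [hE, mem_filter]
    refine ⟨hn.1, ?_⟩
    obtain ⟨θ, ℓ, h0, h1, h2⟩ := hn.2
    by_contra hcon
    rw [not_lt] at hcon
    have h3 := arc_disc_sub hN S (Y n) (T := T) hST hcon (θ := θ) h0 h1
    linarith
  exact_mod_cast Finset.card_le_card h6

end Pool.Agent.Lib.MP_de5eaa_nt.Near
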