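import Pool.Agent.Lib.MP_de5eaa_nt.Near.Q13

/-! Independence of given data: the exceptional orders and the exceptional primes. -/

set_option autoImplicit false

namespace Pool.Agent.Lib.MP_de5eaa_nt.Near

open Finset Filter Topology

theorem const_r (r : ℕ) {N : ℕ} (hN : 1 ≤ N) :
    (((2 * (2 * (r + 1) * N + 1)) ^ r : ℕ) : ℝ) *
      ((((2 * N : ℕ) : ℝ)) ^ 2 * (1 + Real.log ((2 * N : ℕ) : ℝ)) ^ 3) ≤
      32 * (8 * ((r : ℝ) + 1)) ^ r * ((N : ℝ) ^ (r + 2) * (1 + Real.log N) ^ 3) := by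
  have hNp : (1 : ℝ) ≤ N := by exact_mod_cast hN
  have hlN : 0 ≤ Real.log N := Real.log_nonneg hNp
  have h1 : (((2 * (2 * (r + 1) * N + 1)) ^ r : ℕ) : ℝ) ≤ (8 * ((r : ℝ) + 1)) ^ r * (N : ℝ) ^ r := by
    rw [← mul_pow]
    have h2 : 2 * (2 * (r + 1) * N + 1) ≤ 8 * (r + 1) * N := by nlinarith
    have h3 : ((2 * (2 * (r + 1) * N + 1) : ℕ) : ℝ) ≤ 8 * ((r : ℝ) + 1) * N := by exact_mod_cast h2
    rw [Nat.cast_pow]
    exact pow_le_pow_left₀ (Nat.cast_nonneg _) h3 r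
  have h4 : 1 + Real.log ((2 * N : ℕ) : ℝ) ≤ 2 * (1 + Real.log N) := by
    push_cast
    rw [Real.log_mul (by norm_num) (by linarith)]
    have := Real.log_two_lt_d9
    linarith
  have h5 : (0 : ℝ) ≤ 1 + Real.log ((2 * N : ℕ) : ℝ) := by
    have : 0 ≤ Real.log ((2 * N : ℕ) : ℝ) := Real.log_natCast_nonneg _
    linarith
  have h6 : (1 + Real.log ((2 * N : ℕ) : ℝ)) ^ 3 ≤ 8 * (1 + Real.log N) ^ 3 := by
    have h7 := pow_le_pow_left₀ h5 h4 3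
    refine h7.trans (le_of_eq ?_)
    ring
  have h7 : (((2 * N : ℕ) : ℝ)) ^ 2 * (1 + Real.log ((2 * N : ℕ) : ℝ)) ^ 3 ≤
      32 * ((N : ℝ) ^ 2 * (1 + Real.log N) ^ 3) := by
    have h8 := mul_le_mul_of_nonneg_left h6 (show 0 ≤ (((2 * N : ℕ) : ℝ)) ^ 2 by positivity)
    refine h8.trans (le_of_eq ?_)
    push_cast
    ring
  have h8 := mul_le_mul h1 h7 (by positivity) (by positivity)
  refine h8.trans (le_of_eq ?_)
  ring

open Classical in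
/-- the exceptions for a family of sets with data -/
theorem exc_data (r : ℕ) {N : ℕ} (hN : 1 ≤ N) (F : Finset ℕ) (Y : ℕ → ℕ → ℝ) {D : ℝ} (hD : 0 ≤ D) {S : Finset ℕ}
    (hSne : S.Nonempty) (Z : Fin r → ℕ → ℝ)
    (h : ∀ B ⊆ S, ∀ j : ℤ, j ≠ 0 → |j| ≤ ((10 * (2 * N)) ^ 3 : ℕ) →
      ∑ n ∈ F, ‖∑ p ∈ B, e1 ((j : ℝ) * Y n p)‖ ^ 2 ≤ (D * B.card) * 2 ^ padicValNat 2 j.natAbs) :
    ((F.filter fun n => ∃ (t : Fin r → ℝ) (θ ℓ : ℝ), 0 ≤ ℓ ∧ ℓ ≤ 1 ∧ (S.card : ℝ) / N <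
      |(((S.filter fun p => ∀ i, Z i p ≤ t i).filter fun p => ∃ a : ℤ, θ ≤ Y n p - a ∧ Y n p - a ≤ θ + ℓ).card : ℝ) -
        ℓ * (S.filter fun p => ∀ i, Z i p ≤ t i).card|).card : ℝ) ≤
        3200000 * (8 * ((r : ℝ) + 1)) ^ r * ((N : ℝ) ^ (r + 2) * (1 + Real.log N) ^ 3) * (D / S.card) := by
  have hSc : (0 : ℝ) < S.card := by exact_mod_cast Finset.card_pos.2 hSne
  have hNp : (1 : ℝ) ≤ N := by exact_mod_cast hN
  have hN0 : (0 : ℝ) < N := by linarith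
  have hR : 1 ≤ 2 * (r + 1) * N := by nlinarith
  obtain ⟨𝒯, h1, h2, h3⟩ := box_family S Z hR
  set Ex : Finset ℕ → Finset ℕ := fun B => F.filter fun n => ∃ θ ℓ : ℝ, 0 ≤ ℓ ∧ ℓ ≤ 1 ∧
    (S.card : ℝ) / (2 * N : ℕ) < |((B.filter fun p => ∃ a : ℤ, θ ≤ Y n p - a ∧ Y n p - a ≤ θ + ℓ).card : ℝ) -
      ℓ * B.card| with hEx
  set X := ((((2 * N : ℕ) : ℝ)) ^ 2 * (1 + Real.log ((2 * N : ℕ) : ℝ)) ^ 3) with hX
  have hX0 : 0 ≤ X := by
    have : 0 ≤ Real.log ((2 * N : ℕ) : ℝ) := Real.log_natCast_nonneg _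
    positivity
  have hexc : ∀ B ∈ 𝒯, ((Ex B).card : ℝ) ≤ 100000 * (D / S.card) * X := by
    intro B hB
    have hBS : (B.card : ℝ) ≤ S.card := by exact_mod_cast Finset.card_le_card (h2 B hB)
    have h4 := exc_T (N := 2 * N) (by omega) F Y (B := D * B.card) (T := S.card) (by positivity) (S := B) hSc hBS
      (h B (h2 B hB))
    refine h4.trans ?_
    rw [← hX]
    have h5 : D * (B.card : ℝ) / (S.card : ℝ) ^ 2 ≤ D / S.card := by
      rw [div_le_div_iff₀ (by positivity) hSc]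
      have h6 : D * (B.card : ℝ) * S.card ≤ D * S.card * S.card := by
        apply mul_le_mul_of_nonneg_right _ hSc.le
        exact mul_le_mul_of_nonneg_left hBS hD
      nlinarith
    have h6 := mul_le_mul_of_nonneg_right h5 hX0
    nlinarith
  have hsub : (F.filter fun n => ∃ (t : Fin r → ℝ) (θ ℓ : ℝ), 0 ≤ ℓ ∧ ℓ ≤ 1 ∧ (S.card : ℝ) / N <
      |(((S.filter fun p => ∀ i, Z i p ≤ t i).filter fun p => ∃ a : ℤ, θ ≤ Y n p - a ∧ Y n p - a ≤ θ + ℓ).card : ℝ) -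
        ℓ * (S.filter fun p => ∀ i, Z i p ≤ t i).card|) ⊆ 𝒯.biUnion Ex := by
    intro n hn
    rw [mem_filter] at hn
    obtain ⟨hnF, t, θ, ℓ, h0, h1', hlt⟩ := hn
    by_contra hcon
    rw [mem_biUnion] at hcon
    push Not at hcon
    have hgood : ∀ B ∈ 𝒯, |((B.filter fun p => ∃ a : ℤ, θ ≤ Y n p - a ∧ Y n p - a ≤ θ + ℓ).card : ℝ) -
        ℓ * B.card| ≤ (S.card : ℝ) / (2 * N : ℕ) := by
      intro B hB
      by_contra hc
      rw [not_le] at hc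
      apply hcon B hB
      rw [hEx]
      simp only [mem_filter]
      exact ⟨hnF, θ, ℓ, h0, h1', hc⟩
    obtain ⟨B₁, hB₁, B₂, hB₂, h4, h5, h6⟩ := h3 t
    set B0 := S.filter (fun p => ∀ i, Z i p ≤ t i) with hB0
    have g1 := abs_le.1 (hgood B₁ hB₁)
    have g2 := abs_le.1 (hgood B₂ hB₂)
    have c1 : ((B₁.filter fun p => ∃ a : ℤ, θ ≤ Y n p - a ∧ Y n p - a ≤ θ + ℓ).card : ℝ) ≤
        ((B0.filter fun p => ∃ a : ℤ, θ ≤ Y n p - a ∧ Y n p - a ≤ θ + ℓ).card : ℝ) := by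
      exact_mod_cast Finset.card_le_card (Finset.filter_subset_filter _ h4)
    have c2 : ((B0.filter fun p => ∃ a : ℤ, θ ≤ Y n p - a ∧ Y n p - a ≤ θ + ℓ).card : ℝ) ≤
        ((B₂.filter fun p => ∃ a : ℤ, θ ≤ Y n p - a ∧ Y n p - a ≤ θ + ℓ).card : ℝ) := by
      exact_mod_cast Finset.card_le_card (Finset.filter_subset_filter _ h5)
    have k1 : (B₁.card : ℝ) ≤ B0.card := by exact_mod_cast Finset.card_le_card h4
    have k2 : (B0.card : ℝ) ≤ B₂.card := by exact_mod_cast Finset.card_le_card h5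
    have h7 : (r : ℝ) * ((S.card : ℝ) / ((2 * (r + 1) * N : ℕ) : ℝ)) ≤ (S.card : ℝ) / (2 * N : ℕ) := by
      push_cast
      have hr0 : (0 : ℝ) ≤ r := Nat.cast_nonneg r
      rw [← mul_div_assoc, div_le_div_iff₀ (by positivity) (by positivity)]
      have : (0 : ℝ) ≤ (S.card : ℝ) * N := by positivity
      nlinarith
    have h8 : (S.card : ℝ) / (2 * N : ℕ) + (S.card : ℝ) / (2 * N : ℕ) = (S.card : ℝ) / N := by
      push_cast
      field_simp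
      ring
    have h9 : (B₂.card : ℝ) - B₁.card ≤ (S.card : ℝ) / (2 * N : ℕ) := h6.trans h7
    have h10 : ℓ * ((B₂.card : ℝ) - B0.card) ≤ (S.card : ℝ) / (2 * N : ℕ) := by
      have : ℓ * ((B₂.card : ℝ) - B0.card) ≤ 1 * ((B₂.card : ℝ) - B0.card) :=
        mul_le_mul_of_nonneg_right h1' (by linarith)
      linarith
    have h11 : ℓ * ((B0.card : ℝ) - B₁.card) ≤ (S.card : ℝ) / (2 * N : ℕ) := by
      have : ℓ * ((B0.card : ℝ) - B₁.card) ≤ 1 * ((B0.card : ℝ) - B₁.card) :=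
        mul_le_mul_of_nonneg_right h1' (by linarith)
      linarith
    have h12 : |((B0.filter fun p => ∃ a : ℤ, θ ≤ Y n p - a ∧ Y n p - a ≤ θ + ℓ).card : ℝ) - ℓ * B0.card| ≤
        (S.card : ℝ) / N := by
      rw [abs_le]
      constructor
      · linarith [g1.1, g1.2]
      · linarith [g2.1, g2.2]
    linarith
  have h4 := (Finset.card_le_card hsub).trans Finset.card_biUnion_le
  have h5 : ((∑ B ∈ 𝒯, (Ex B).card : ℕ) : ℝ) ≤ (𝒯.card : ℝ) * (100000 * (D / S.card) * X) := by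
    push_cast
    refine (Finset.sum_le_sum hexc).trans ?_
    rw [Finset.sum_const, nsmul_eq_mul]
  have h6 : ((F.filter fun n => ∃ (t : Fin r → ℝ) (θ ℓ : ℝ), 0 ≤ ℓ ∧ ℓ ≤ 1 ∧ (S.card : ℝ) / N <
      |(((S.filter fun p => ∀ i, Z i p ≤ t i).filter fun p => ∃ a : ℤ, θ ≤ Y n p - a ∧ Y n p - a ≤ θ + ℓ).card : ℝ) -
        ℓ * (S.filter fun p => ∀ i, Z i p ≤ t i).card|).card : ℝ) ≤ ((∑ B ∈ 𝒯, (Ex B).card : ℕ) : ℝ) := by
    exact_mod_cast h4
  refine (h6.trans h5).trans ?_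
  have hDS : 0 ≤ D / S.card := by positivity
  have h7 : (𝒯.card : ℝ) ≤ (((2 * (2 * (r + 1) * N + 1)) ^ r : ℕ) : ℝ) := by exact_mod_cast h1
  have h8 := const_r r hN
  rw [← hX] at h8
  have h9 : (𝒯.card : ℝ) * X ≤ 32 * (8 * ((r : ℝ) + 1)) ^ r * ((N : ℝ) ^ (r + 2) * (1 + Real.log N) ^ 3) :=
    (mul_le_mul_of_nonneg_right h7 hX0).trans h8
  have h10 := mul_le_mul_of_nonneg_right h9 (show 0 ≤ 100000 * (D / S.card) by positivity)
  refine le_trans (le_of_eq ?_) (h10.trans (le_of_eq ?_))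
  · ring
  · ring

theorem V_nonneg {x : ℕ} (M L : ℕ) (hx : 2 ≤ x) :
    0 < 1 + L * (Real.log (2 + ((M : ℝ) + L) / Real.log x) / Real.log x) := by
  have hx2r : (2 : ℝ) ≤ x := by exact_mod_cast hx
  have hl : 0 < Real.log (x : ℝ) := Real.log_pos (by linarith)
  have h1 : 0 ≤ ((M : ℝ) + L) / Real.log x := by positivity
  have h2 : 0 ≤ Real.log (2 + ((M : ℝ) + L) / Real.log x) := Real.log_nonneg (by linarith)
  positivity

theorem j_bound {N x : ℕ} (hNx : ((2 * N : ℕ) : ℝ) ^ 2 ≤ Real.log x) {j : ℤ} (hjK : |j| ≤ ((10 * (2 * N)) ^ 3 : ℕ)) :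
    (j : ℝ) ^ 2 ≤ 10 ^ 6 * Real.log x ^ 3 := by
  have h2 : |(j : ℝ)| ≤ (10 * ((2 * N : ℕ) : ℝ)) ^ 3 := by
    have h3 : ((|j| : ℤ) : ℝ) ≤ ((((10 * (2 * N)) ^ 3 : ℕ) : ℤ) : ℝ) := by exact_mod_cast hjK
    rw [Int.cast_abs] at h3
    push_cast at h3 ⊢
    exact h3
  have h3 : (j : ℝ) ^ 2 ≤ ((10 * ((2 * N : ℕ) : ℝ)) ^ 3) ^ 2 := by
    rw [← sq_abs]
    exact pow_le_pow_left₀ (abs_nonneg _) h2 2
  have h4 : ((10 * ((2 * N : ℕ) : ℝ)) ^ 3) ^ 2 = 10 ^ 6 * (((2 * N : ℕ) : ℝ) ^ 2) ^ 3 := by ring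
  have h5 : (((2 * N : ℕ) : ℝ) ^ 2) ^ 3 ≤ Real.log x ^ 3 := pow_le_pow_left₀ (sq_nonneg _) hNx 3
  rw [h4] at h3
  linarith

theorem X2N_le {N : ℕ} (r : ℕ) (hN : 1 ≤ N) : ((2 * N : ℕ) : ℝ) ^ 2 * (1 + Real.log ((2 * N : ℕ) : ℝ)) ^ 3 ≤
    32 * ((N : ℝ) ^ (r + 2) * (1 + Real.log N) ^ 3) := by
  have h1 := const_r 0 hN
  have hNp : (1 : ℝ) ≤ N := by exact_mod_cast hN
  have hlN : 0 ≤ Real.log N := Real.log_nonneg hNp
  simp only [pow_zero, Nat.cast_one, one_mul, mul_one, zero_add] at h1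
  refine h1.trans ?_
  have h2 : (N : ℝ) ^ 2 ≤ (N : ℝ) ^ (r + 2) := pow_le_pow_right₀ hNp (by omega)
  have h3 : 0 ≤ (1 + Real.log N) ^ 3 := by positivity
  have h4 := mul_le_mul_of_nonneg_right h2 h3
  linarith

open Classical in
/-- **the exceptional orders, for every window, every set of primes and any data** -/
theorem orders_data (r : ℕ) : ∃ C : ℝ, 0 < C ∧ ∀ x N : ℕ, 1 ≤ N → ∀ S ⊆ pr x, ∀ Z : Fin r → ℕ → ℝ, ∀ M L : ℕ,
    (((Ioc M (M + L)).filter fun n => ∃ (t : Fin r → ℝ) (θ ℓ : ℝ), 0 ≤ ℓ ∧ ℓ ≤ 1 ∧ (S.card : ℝ) / N <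
      |(((S.filter fun p => ∀ i, Z i p ≤ t i).filter fun p => ∃ a : ℤ, θ ≤ yy p n - a ∧ yy p n - a ≤ θ + ℓ).card : ℝ) -
        ℓ * (S.filter fun p => ∀ i, Z i p ≤ t i).card|).card : ℝ) ≤
        C * (N : ℝ) ^ (r + 2) * (1 + Real.log N) ^ 3 *
          (1 + L * (Real.log (2 + ((M : ℝ) + L) / Real.log x) / Real.log x)) * ((ppi x : ℝ) / S.card) := by
  obtain ⟨C, hC, x0, hx02, hmom⟩ := mom_all
  set c0 : ℝ := 3200000 * (8 * ((r : ℝ) + 1)) ^ r with hc0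
  have hc0p : 0 < c0 := by positivity
  refine ⟨c0 * C + 32 * (2 * x0 + 2), by positivity, fun x N hN S hS Z M L => ?_⟩
  rcases Finset.eq_empty_or_nonempty S with hSe | hSne
  · subst hSe
    simp
  have hx2 : 2 ≤ x := by
    obtain ⟨p, hp⟩ := hSne
    have h1 := hS hp
    unfold pr at h1
    rw [mem_filter, mem_range] at h1
    have := h1.2.two_le
    omega
  have hSc : (0 : ℝ) < S.card := by exact_mod_cast Finset.card_pos.2 hSne
  have hSp : (1 : ℝ) ≤ (ppi x : ℝ) / S.card := by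
    rw [le_div_iff₀ hSc, one_mul, ← pr_card]
    exact_mod_cast Finset.card_le_card hS
  have hNp : (1 : ℝ) ≤ N := by exact_mod_cast hN
  have hlN : 0 ≤ Real.log N := Real.log_nonneg hNp
  rw [mul_assoc _ ((N : ℝ) ^ (r + 2))]
  have hX2 := X2N_le r hN
  set X := (N : ℝ) ^ (r + 2) * (1 + Real.log N) ^ 3 with hX
  have hX0 : 0 ≤ X := by positivity
  have hVp := V_nonneg M L hx2
  set V := (1 + L * (Real.log (2 + ((M : ℝ) + L) / Real.log x) / Real.log x)) with hV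
  have hXV : 0 ≤ X * V := mul_nonneg hX0 hVp.le
  have h0 : (0 : ℝ) ≤ x0 := Nat.cast_nonneg _
  have hpp : (0 : ℝ) ≤ ppi x := Nat.cast_nonneg _
  by_cases hcase : x0 ≤ x ∧ ((2 * N : ℕ) : ℝ) ^ 2 ≤ Real.log x
  · obtain ⟨hx, hNx⟩ := hcase
    have h1 := exc_data r hN (Ioc M (M + L)) (fun n p => yy p n) (D := C * V * ppi x) (by positivity) hSne Z
      (fun B hB j hj hjK => by
        exact BS_sp (mul_pos hC hVp) _ (hmom x M L hx j _ (not_dvd_int hj) (j_bound hNx hjK)) (hB.trans hS))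
    refine h1.trans ?_
    rw [← hX, ← hc0]
    have e3 : c0 * X * (C * V * (ppi x : ℝ) / S.card) = c0 * C * (X * V) * ((ppi x : ℝ) / S.card) := by
      ring
    rw [e3]
    apply mul_le_mul_of_nonneg_right _ (by linarith)
    nlinarith
  · have htriv : (((Ioc M (M + L)).filter fun n => ∃ (t : Fin r → ℝ) (θ ℓ : ℝ), 0 ≤ ℓ ∧ ℓ ≤ 1 ∧ (S.card : ℝ) / N <
        |(((S.filter fun p => ∀ i, Z i p ≤ t i).filter fun p => ∃ a : ℤ, θ ≤ yy p n - a ∧ yy p n - a ≤ θ + ℓ).card : ℝ) -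
          ℓ * (S.filter fun p => ∀ i, Z i p ≤ t i).card|).card : ℝ) ≤ L := by
      have h1 := Finset.card_le_card (Finset.filter_subset (fun n => ∃ (t : Fin r → ℝ) (θ ℓ : ℝ), 0 ≤ ℓ ∧ ℓ ≤ 1 ∧
        (S.card : ℝ) / N <
        |(((S.filter fun p => ∀ i, Z i p ≤ t i).filter fun p => ∃ a : ℤ, θ ≤ yy p n - a ∧ yy p n - a ≤ θ + ℓ).card : ℝ) -
          ℓ * (S.filter fun p => ∀ i, Z i p ≤ t i).card|) (Ioc M (M + L)))
      rw [Nat.card_Ioc, Nat.add_sub_cancel_left] at h1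
      exact_mod_cast h1
    refine htriv.trans ?_
    have h1 := L_le_V (M := M) (L := L) (N := 2 * N) hx2 (by omega) hcase
    rw [← hV] at h1
    have h2 : (2 * (x0 : ℝ) + 2) * (((2 * N : ℕ) : ℝ) ^ 2 * (1 + Real.log ((2 * N : ℕ) : ℝ)) ^ 3) * V ≤
        (2 * (x0 : ℝ) + 2) * (32 * X) * V := by
      apply mul_le_mul_of_nonneg_right _ hVp.le
      exact mul_le_mul_of_nonneg_left hX2 (by positivity)
    have h3 : (2 * (x0 : ℝ) + 2) * (32 * X) * V ≤ (c0 * C + 32 * (2 * x0 + 2)) * X * V := by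
      have : 0 ≤ c0 * C * (X * V) := by positivity
      nlinarith
    refine ((h1.trans h2).trans h3).trans ?_
    exact le_mul_of_one_le_right (by positivity) hSp

open Classical in
/-- **the exceptional primes, for every window, every set of orders in it and any data** -/
theorem primes_data (r : ℕ) : ∃ C : ℝ, 0 < C ∧ ∀ x N : ℕ, 1 ≤ N → ∀ M L : ℕ, ∀ A ⊆ Ioc M (M + L), A.Nonempty →
    ∀ Z : Fin r → ℕ → ℝ,
    (((pr x).filter fun p => ∃ (t : Fin r → ℝ) (θ ℓ : ℝ), 0 ≤ ℓ ∧ ℓ ≤ 1 ∧ (A.card : ℝ) / N <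
      |(((A.filter fun n => ∀ i, Z i n ≤ t i).filter fun n => ∃ a : ℤ, θ ≤ yy p n - a ∧ yy p n - a ≤ θ + ℓ).card : ℝ) -
        ℓ * (A.filter fun n => ∀ i, Z i n ≤ t i).card|).card : ℝ) ≤
        C * (N : ℝ) ^ (r + 2) * (1 + Real.log N) ^ 3 *
          (1 + L * (Real.log (2 + ((M : ℝ) + L) / Real.log x) / Real.log x)) / A.card * ppi x := by
  obtain ⟨C, hC, x0, hx02, hmom⟩ := mom_all
  set c0 : ℝ := 3200000 * (8 * ((r : ℝ) + 1)) ^ r with hc0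
  have hc0p : 0 < c0 := by positivity
  refine ⟨c0 * C + 32 * (2 * x0 + 2), by positivity, fun x N hN M L A hA hAne Z => ?_⟩
  have hAc : (0 : ℝ) < A.card := by exact_mod_cast Finset.card_pos.2 hAne
  have hAL : (A.card : ℝ) ≤ L := by
    have h1 := Finset.card_le_card hA
    rw [Nat.card_Ioc, Nat.add_sub_cancel_left] at h1
    exact_mod_cast h1
  have hpp : (0 : ℝ) ≤ ppi x := Nat.cast_nonneg _
  have htriv : (((pr x).filter fun p => ∃ (t : Fin r → ℝ) (θ ℓ : ℝ), 0 ≤ ℓ ∧ ℓ ≤ 1 ∧ (A.card : ℝ) / N <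
      |(((A.filter fun n => ∀ i, Z i n ≤ t i).filter fun n => ∃ a : ℤ, θ ≤ yy p n - a ∧ yy p n - a ≤ θ + ℓ).card : ℝ) -
        ℓ * (A.filter fun n => ∀ i, Z i n ≤ t i).card|).card : ℝ) ≤ ppi x := by
    rw [← pr_card]
    exact_mod_cast Finset.card_le_card (Finset.filter_subset _ _)
  rcases Nat.lt_or_ge x 2 with hx2 | hx2
  · have h0 : ppi x = 0 := by
      unfold ppi
      rw [Finset.card_eq_zero, Finset.filter_eq_empty_iff]
      intro p hp hpp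
      rw [mem_range] at hp
      have := hpp.two_le
      omega
    rw [h0] at htriv ⊢
    simpa using htriv
  have hNp : (1 : ℝ) ≤ N := by exact_mod_cast hN
  have hlN : 0 ≤ Real.log N := Real.log_nonneg hNp
  rw [mul_assoc _ ((N : ℝ) ^ (r + 2))]
  have hX2 := X2N_le r hN
  set X := (N : ℝ) ^ (r + 2) * (1 + Real.log N) ^ 3 with hX
  have hX0 : 0 ≤ X := by positivity
  have hVp := V_nonneg M L hx2
  set V := (1 + L * (Real.log (2 + ((M : ℝ) + L) / Real.log x) / Real.log x)) with hV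
  have hXV : 0 ≤ X * V := mul_nonneg hX0 hVp.le
  have h0 : (0 : ℝ) ≤ x0 := Nat.cast_nonneg _
  by_cases hcase : x0 ≤ x ∧ ((2 * N : ℕ) : ℝ) ^ 2 ≤ Real.log x
  · obtain ⟨hx, hNx⟩ := hcase
    have h1 := exc_data r hN (pr x) (fun p n => yy p n) (D := C * V * ppi x) (by positivity) hAne Z
      (fun B hB j hj hjK => by
        exact mom_A (hmom x M L hx j _ (not_dvd_int hj) (j_bound hNx hjK)) (hB.trans hA))
    refine h1.trans ?_
    rw [← hX, ← hc0]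
    have e3 : c0 * X * (C * V * (ppi x : ℝ) / A.card) = c0 * C * (X * V) / A.card * ppi x := by
      ring
    rw [e3]
    apply mul_le_mul_of_nonneg_right _ hpp
    apply div_le_div_of_nonneg_right _ hAc.le
    nlinarith
  · refine htriv.trans ?_
    have h1 := L_le_V (M := M) (L := L) (N := 2 * N) hx2 (by omega) hcase
    rw [← hV] at h1
    have h2 : (2 * (x0 : ℝ) + 2) * (((2 * N : ℕ) : ℝ) ^ 2 * (1 + Real.log ((2 * N : ℕ) : ℝ)) ^ 3) * V ≤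
        (2 * (x0 : ℝ) + 2) * (32 * X) * V := by
      apply mul_le_mul_of_nonneg_right _ hVp.le
      exact mul_le_mul_of_nonneg_left hX2 (by positivity)
    have h3 : (2 * (x0 : ℝ) + 2) * (32 * X) * V ≤ (c0 * C + 32 * (2 * x0 + 2)) * X * V := by
      have : 0 ≤ c0 * C * (X * V) := by positivity
      nlinarith
    have h4 : (1 : ℝ) ≤ (c0 * C + 32 * (2 * x0 + 2)) * X * V / A.card := by
      rw [le_div_iff₀ hAc, one_mul]
      exact hAL.trans ((h1.trans h2).trans h3)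
    exact le_mul_of_one_le_left hpp h4

end Pool.Agent.Lib.MP_de5eaa_nt.Near
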