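import Pool.Agent.Lib.MP_de5eaa_nt.Near.Q0

/-! The points of the orders in a window `(M, M + L]` modulo `lcm (M + 1, ..., M + L)` (with helper88): averages over the
units, with coefficients. -/

set_option autoImplicit false

namespace Pool.Agent.Lib.MP_de5eaa_nt.Near

open Finset Filter Topology
open Pool.Agent.Lib.MP_de5eaa_nt.Poi (UU QQ)

/-- `lcm (M + 1, ..., M + L)` -/
def LW (M L : ℕ) : ℕ := (Icc (M + 1) (M + L)).lcm id

/-- the points -/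
noncomputable def ZW (M u n : ℕ) : ℝ := -((u : ℝ) * ((hs (M + 1) n : ℚ) : ℝ))

theorem LW_dvd_fac (M L : ℕ) : LW M L ∣ (M + L).factorial := by
  unfold LW
  refine Finset.lcm_dvd fun i hi => ?_
  rw [mem_Icc] at hi
  exact Nat.dvd_factorial (by simp only [id]; omega) (by simp only [id]; omega)

theorem LW_pos (M L : ℕ) : 0 < LW M L := Nat.pos_of_dvd_of_pos (LW_dvd_fac M L) (Nat.factorial_pos _)

theorem LW_dvd_QQ (M L : ℕ) : LW M L ∣ QQ (M + L) := by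
  unfold LW QQ
  refine Finset.lcm_dvd fun i hi => ?_
  rw [mem_Icc] at hi
  exact Finset.dvd_lcm (f := id) (mem_Icc.2 ⟨by omega, by omega⟩)

theorem QQ_dvd_LW (M L : ℕ) : QQ L ∣ LW M L := by
  unfold QQ
  refine Finset.lcm_dvd fun q hq => ?_
  rw [mem_Icc] at hq
  have h1 : q * ((M + L) / q) + (M + L) % q = M + L := Nat.div_add_mod _ _
  have h2 : (M + L) % q < q := Nat.mod_lt _ (by omega)
  have h3 : q * ((M + L) / q) ∈ Icc (M + 1) (M + L) := mem_Icc.2 ⟨by omega, by omega⟩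
  have h4 : q * ((M + L) / q) ∣ LW M L := by
    unfold LW
    exact Finset.dvd_lcm (f := id) h3
  exact (Dvd.intro _ rfl).trans h4

theorem le_LW {M L : ℕ} (hL : 1 ≤ L) : M + L ≤ LW M L := by
  apply Nat.le_of_dvd (LW_pos M L)
  unfold LW
  exact Finset.dvd_lcm (f := id) (mem_Icc.2 ⟨by omega, le_rfl⟩)

theorem den_dvd_LW {M L n m : ℕ} (hn : M < n) (hm : m ≤ M + L + 1) : (hs n m).den ∣ LW M L := by
  have hpos : LW M L ≠ 0 := (LW_pos M L).ne'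
  have hq : (LW M L : ℚ) ≠ 0 := Nat.cast_ne_zero.2 hpos
  have h1 : hs n m = ((∑ k ∈ Ico n m, ((LW M L / k : ℕ) : ℤ) : ℤ) : ℚ) / ((LW M L : ℤ) : ℚ) := by
    unfold hs
    push_cast
    rw [Finset.sum_div]
    refine Finset.sum_congr rfl fun k hk => ?_
    have hk1 := Finset.mem_Ico.1 hk
    have hd : k ∣ LW M L := by
      unfold LW
      exact Finset.dvd_lcm (f := id) (Finset.mem_Icc.2 ⟨by omega, by omega⟩)
    have hk0 : (k : ℚ) ≠ 0 := Nat.cast_ne_zero.2 (by omega)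
    have hc : (((LW M L : ℤ) / (k : ℤ) : ℤ) : ℚ) = (LW M L : ℚ) / (k : ℚ) := by
      rw [Int.cast_div (Int.natCast_dvd_natCast.2 hd) (by exact_mod_cast hk0)]
      push_cast
      rfl
    rw [hc]
    field_simp
  have h2 := Rat.den_dvd (∑ k ∈ Ico n m, ((LW M L / k : ℕ) : ℤ)) (LW M L : ℤ)
  rw [Rat.divInt_eq_div, ← h1] at h2
  exact Int.natCast_dvd_natCast.1 h2

theorem ZW_sub {M n m : ℕ} (hn : M < n) (hnm : n ≤ m) (u : ℕ) :
    ZW M u n - ZW M u m = (u : ℝ) * ((hs n m : ℚ) : ℝ) := by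
  have h : hs (M + 1) n + hs n m = hs (M + 1) m := by
    unfold hs
    exact Finset.sum_Ico_consecutive _ hn hnm
  unfold ZW
  rw [← h]
  push_cast
  ring

theorem den_dvd_w {M L n m : ℕ} (hn : M < n) (hm : m ≤ M + L) (j : ℤ) : ((j : ℚ) * hs n m).den ∣ LW M L := by
  have h1 : ((j : ℚ) * hs n m).den ∣ (j : ℚ).den * (hs n m).den := Rat.mul_den_dvd _ _
  rw [Rat.den_intCast, one_mul] at h1
  exact h1.trans (den_dvd_LW hn (by omega))

theorem W_point' {p M L u n : ℕ} (hp : p.Prime) (hL : M + L < p) (hu : u * p ≡ 1 [MOD LW M L]) (hn : M < n)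
    (hnL : n ≤ M + L) :
    ∃ a : ℤ, (wq n p : ℝ) / p = (wq (M + 1) p : ℝ) / p + ((hs (M + 1) n : ℚ) : ℝ) / p + ZW M u n + a := by
  have h1 := Pool.Agent.Lib.MP_de5eaa_nt.Near.wq_rat hp (show 1 ≤ M + 1 by omega) hn (by omega : n ≤ p) 1
  rw [Int.cast_one, one_mul, one_mul] at h1
  obtain ⟨v, hv⟩ := h1
  have hB : (hs (M + 1) n).den ∣ LW M L := den_dvd_LW (Nat.lt_succ_self M) (by omega)
  have h2 : ((hs (M + 1) n).den : ℤ) ∣ (u : ℤ) * p - 1 := by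
    have h3 : u * p ≡ 1 [MOD (hs (M + 1) n).den] := hu.of_dvd hB
    have h4 := (Nat.modEq_iff_dvd.1 h3.symm)
    push_cast at h4
    exact h4
  obtain ⟨w, hw⟩ := h2
  set W : ℤ := wq n p - wq (M + 1) p with hW
  refine ⟨u * W - w * v, ?_⟩
  have hp0 : (p : ℝ) ≠ 0 := Nat.cast_ne_zero.2 hp.ne_zero
  have hB0 : ((hs (M + 1) n).den : ℝ) ≠ 0 := Nat.cast_ne_zero.2 (hs (M + 1) n).den_nz
  have hs1 : ((hs (M + 1) n : ℚ) : ℝ) = ((hs (M + 1) n).num : ℝ) / ((hs (M + 1) n).den : ℝ) := Rat.cast_def _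
  have hvR : (W : ℝ) * ((hs (M + 1) n).den : ℝ) - ((hs (M + 1) n).num : ℝ) = p * v := by exact_mod_cast hv
  have hwR : (u : ℝ) * p - 1 = ((hs (M + 1) n).den : ℝ) * w := by exact_mod_cast hw
  have hWR : (W : ℝ) = (wq n p : ℝ) - (wq (M + 1) p : ℝ) := by rw [hW]; push_cast; ring
  unfold ZW
  rw [hs1]
  push_cast
  have hnum : ((hs (M + 1) n).num : ℝ) = (W : ℝ) * ((hs (M + 1) n).den : ℝ) - p * v := by linarith
  rw [hnum]
  have hwq : (wq n p : ℝ) = (wq (M + 1) p : ℝ) + W := by rw [hWR]; ring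
  rw [hwq]
  field_simp
  linear_combination (-(p : ℝ) * v) * hwR

theorem hs_nonneg_w (M n : ℕ) : (0 : ℚ) ≤ hs (M + 1) n := by
  unfold hs
  exact Finset.sum_nonneg fun k _ => by positivity

theorem hs_le_w {M L n : ℕ} (h : n ≤ M + L) : hs (M + 1) n ≤ (L : ℚ) := by
  unfold hs
  calc ∑ k ∈ Ico (M + 1) n, 1 / (k : ℚ) ≤ ∑ _k ∈ Ico (M + 1) n, (1 : ℚ) := by
        refine Finset.sum_le_sum fun k hk => ?_
        have h1 : 1 ≤ k := by
          have := (Finset.mem_Ico.1 hk).1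
          omega
        have h2 : (1 : ℚ) ≤ k := by exact_mod_cast h1
        rw [div_le_one (by linarith)]
        exact h2
    _ = ((n - (M + 1) : ℕ) : ℚ) := by simp
    _ ≤ (L : ℚ) := by
      exact_mod_cast (by omega : n - (M + 1) ≤ L)

/-- the average over the units -/
theorem avg_w (M L : ℕ) {j : ℤ} {t : ℕ} (hj : ¬ (2 : ℤ) ^ (t + 1) ∣ j) (c : ℕ → ℂ) :
    ∑ u ∈ UU (LW M L), ‖∑ n ∈ Ioc M (M + L), c n * e1 ((j : ℝ) * ZW M u n)‖ ^ 2 ≤
      (8 * 2 ^ t * ((LW M L).totient : ℝ)) * ∑ n ∈ Ioc M (M + L), ‖c n‖ ^ 2 := by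
  have hQ : 0 < LW M L := LW_pos M L
  refine gram_bound (Ioc M (M + L)) (UU (LW M L)) (fun n u => e1 ((j : ℝ) * ZW M u n)) (fun n hn => ?_) c
  rw [mem_Ioc] at hn
  set d := 2 ^ (t + 2) with hd
  have hd1 : 1 ≤ d := Nat.one_le_two_pow
  have hterm : ∀ m ∈ Ioc M (M + L), ‖∑ u ∈ UU (LW M L), e1 ((j : ℝ) * ZW M u n) *
      (starRingEnd ℂ) (e1 ((j : ℝ) * ZW M u m))‖ ≤
      if ¬ (n + d ≤ m ∨ m + d ≤ n) then ((LW M L).totient : ℝ) else 0 := by
    intro m hm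
    rw [mem_Ioc] at hm
    by_cases h : ¬ (n + d ≤ m ∨ m + d ≤ n)
    · rw [if_pos h]
      refine (norm_sum_le _ _).trans ?_
      have h1 : ∀ u ∈ UU (LW M L), ‖e1 ((j : ℝ) * ZW M u n) * (starRingEnd ℂ) (e1 ((j : ℝ) * ZW M u m))‖ = 1 := by
        intro u _
        rw [norm_mul, RCLike.norm_conj, norm_e1, norm_e1, one_mul]
      rw [Finset.sum_congr rfl h1, Finset.sum_const, nsmul_eq_mul, mul_one]
      unfold Pool.Agent.Lib.MP_de5eaa_nt.Poi.UU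
      rw [Nat.totient_eq_card_coprime]
    · rw [if_neg h]
      rw [not_not] at h
      rcases h with h | h
      · have h4 := four_dvd_den (show 1 ≤ n by omega) h hj
        have h5 := unit_sum_zero hQ (den_dvd_w hn.1 hm.2 j) h4
        have h6 : ∀ u ∈ UU (LW M L), e1 ((j : ℝ) * ZW M u n) * (starRingEnd ℂ) (e1 ((j : ℝ) * ZW M u m)) =
            e1 ((u : ℝ) * ((((j : ℚ) * hs n m : ℚ)) : ℝ)) := by
          intro u _
          rw [e1_conj, ← e1_add]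
          congr 1
          have h7 := ZW_sub hn.1 (by omega : n ≤ m) u
          push_cast
          linear_combination (j : ℝ) * h7
        rw [Finset.sum_congr rfl h6, h5, norm_zero]
      · have hj' : ¬ (2 : ℤ) ^ (t + 1) ∣ -j := by rwa [dvd_neg]
        have h4 := four_dvd_den (show 1 ≤ m by omega) h hj'
        have h5 := unit_sum_zero hQ (den_dvd_w hm.1 hn.2 (-j)) h4
        have h6 : ∀ u ∈ UU (LW M L), e1 ((j : ℝ) * ZW M u n) * (starRingEnd ℂ) (e1 ((j : ℝ) * ZW M u m)) =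
            e1 ((u : ℝ) * (((((-j : ℤ) : ℚ)) * hs m n : ℚ) : ℝ)) := by
          intro u _
          rw [e1_conj, ← e1_add]
          congr 1
          have h7 := ZW_sub hm.1 (by omega : m ≤ n) u
          push_cast
          linear_combination (-(j : ℝ)) * h7
        rw [Finset.sum_congr rfl h6, h5, norm_zero]
  refine (Finset.sum_le_sum hterm).trans ?_
  rw [← Finset.sum_filter, Finset.sum_const, nsmul_eq_mul]
  have h1 := close_card' (Ioc M (M + L)) d n hd1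
  have h2 : (((Ioc M (M + L)).filter fun m => ¬ (n + d ≤ m ∨ m + d ≤ n)).card : ℝ) ≤ 8 * 2 ^ t := by
    have h3 : (((Ioc M (M + L)).filter fun m => ¬ (n + d ≤ m ∨ m + d ≤ n)).card : ℝ) ≤ ((2 * d : ℕ) : ℝ) := by
      exact_mod_cast h1
    refine h3.trans (le_of_eq ?_)
    rw [hd]
    push_cast
    ring
  exact mul_le_mul_of_nonneg_right h2 (Nat.cast_nonneg _)

/-- one prime -/
theorem prime_term_w {p M L u : ℕ} (hp : p.Prime) (hL : M + L < p) (hu : u * p ≡ 1 [MOD LW M L]) (j : ℤ) (c : ℕ → ℂ) :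
    ‖∑ n ∈ Ioc M (M + L), c n * e1 ((j : ℝ) * yy p n)‖ ^ 2 ≤
      2 * ‖∑ n ∈ Ioc M (M + L), c n * e1 ((j : ℝ) * ZW M u n)‖ ^ 2 +
        2 * (2 * Real.pi * |(j : ℝ)| * L / p) ^ 2 * L * ∑ n ∈ Ioc M (M + L), ‖c n‖ ^ 2 := by
  have hp0 : (0 : ℝ) < p := by exact_mod_cast hp.pos
  have e1' : ∑ n ∈ Ioc M (M + L), c n * e1 ((j : ℝ) * yy p n) = e1 ((j : ℝ) * ((wq (M + 1) p : ℝ) / p)) *
      (∑ n ∈ Ioc M (M + L), c n * e1 ((j : ℝ) * ZW M u n) +
        ∑ n ∈ Ioc M (M + L), c n * e1 ((j : ℝ) * ZW M u n) *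
          (e1 ((j : ℝ) * (((hs (M + 1) n : ℚ) : ℝ) / p)) - 1)) := by
    rw [← Finset.sum_add_distrib, Finset.mul_sum]
    refine Finset.sum_congr rfl fun n hn => ?_
    rw [mem_Ioc] at hn
    obtain ⟨a, ha⟩ := W_point' hp hL hu hn.1 hn.2
    have h1 : (j : ℝ) * yy p n = (j : ℝ) * ((wq (M + 1) p : ℝ) / p) + ((j : ℝ) * (((hs (M + 1) n : ℚ) : ℝ) / p) +
        ((j : ℝ) * ZW M u n + ((j * a : ℤ) : ℝ))) := by
      unfold yy
      rw [ha]
      push_cast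
      ring
    rw [h1, e1_add, e1_add, e1_add, e1_int]
    ring
  rw [e1', norm_mul, norm_e1, one_mul]
  set A := ∑ n ∈ Ioc M (M + L), c n * e1 ((j : ℝ) * ZW M u n) with hA
  set B := ∑ n ∈ Ioc M (M + L), c n * e1 ((j : ℝ) * ZW M u n) *
    (e1 ((j : ℝ) * (((hs (M + 1) n : ℚ) : ℝ) / p)) - 1) with hB
  have hB1 : ‖B‖ ≤ (2 * Real.pi * |(j : ℝ)| * L / p) * ∑ n ∈ Ioc M (M + L), ‖c n‖ := by
    rw [hB, Finset.mul_sum]
    refine (norm_sum_le _ _).trans (Finset.sum_le_sum fun n hn => ?_)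
    rw [mem_Ioc] at hn
    rw [norm_mul, norm_mul, norm_e1, mul_one]
    have h5 : (0 : ℝ) ≤ ((hs (M + 1) n : ℚ) : ℝ) := by exact_mod_cast hs_nonneg_w M n
    have h6 : ((hs (M + 1) n : ℚ) : ℝ) ≤ (L : ℝ) := by exact_mod_cast hs_le_w hn.2
    have h8 : ‖e1 ((j : ℝ) * (((hs (M + 1) n : ℚ) : ℝ) / p)) - 1‖ ≤ 2 * Real.pi * |(j : ℝ)| * L / p := by
      refine (norm_e1_sub_one _).trans ?_
      rw [abs_mul, abs_of_nonneg (div_nonneg h5 hp0.le)]
      have h9 : ((hs (M + 1) n : ℚ) : ℝ) / p ≤ (L : ℝ) / p := div_le_div_of_nonneg_right h6 hp0.le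
      have h10 : 2 * Real.pi * (|(j : ℝ)| * (((hs (M + 1) n : ℚ) : ℝ) / p)) ≤
          2 * Real.pi * (|(j : ℝ)| * ((L : ℝ) / p)) := by
        apply mul_le_mul_of_nonneg_left _ (by positivity)
        exact mul_le_mul_of_nonneg_left h9 (abs_nonneg _)
      refine h10.trans (le_of_eq ?_)
      ring
    rw [mul_comm]
    exact mul_le_mul_of_nonneg_right h8 (norm_nonneg _)
  have h2 : (∑ n ∈ Ioc M (M + L), ‖c n‖) ^ 2 ≤ L * ∑ n ∈ Ioc M (M + L), ‖c n‖ ^ 2 := by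
    have h3 := sq_sum_le_card_mul_sum_sq (s := Ioc M (M + L)) (f := fun n => ‖c n‖)
    rw [Nat.card_Ioc, Nat.add_sub_cancel_left] at h3
    exact h3
  have h3 : ‖B‖ ^ 2 ≤ (2 * Real.pi * |(j : ℝ)| * L / p) ^ 2 * (L * ∑ n ∈ Ioc M (M + L), ‖c n‖ ^ 2) := by
    have h4 := pow_le_pow_left₀ (norm_nonneg B) hB1 2
    rw [mul_pow] at h4
    exact h4.trans (mul_le_mul_of_nonneg_left h2 (sq_nonneg _))
  have h4 : ‖A + B‖ ^ 2 ≤ 2 * ‖A‖ ^ 2 + 2 * ‖B‖ ^ 2 := by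
    have h5 := pow_le_pow_left₀ (norm_nonneg _) (norm_add_le A B) 2
    nlinarith [sq_nonneg (‖A‖ - ‖B‖)]
  nlinarith

/-- the length of the window -/
theorem L_le_log_LW : ∃ K0 : ℝ, 0 ≤ K0 ∧ ∀ M L : ℕ, (L : ℝ) ≤ 2 * Real.log (LW M L : ℝ) + K0 := by
  have h1 : ∀ᶠ L : ℕ in atTop, (1 / 2 : ℝ) < Chebyshev.theta L / (L : ℝ) :=
    Pool.Agent.Lib.MP_de5eaa_nt.Poi.theta_tendsto.eventually (lt_mem_nhds (by norm_num))
  obtain ⟨L1, hL1⟩ := eventually_atTop.1 (h1.and (eventually_gt_atTop 0))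
  refine ⟨L1, Nat.cast_nonneg _, fun M L => ?_⟩
  have hLW : (1 : ℝ) ≤ LW M L := by exact_mod_cast LW_pos M L
  have hlog : 0 ≤ Real.log (LW M L : ℝ) := Real.log_nonneg hLW
  rcases Nat.lt_or_ge L L1 with h | h
  · have h2 : (L : ℝ) ≤ L1 := by exact_mod_cast h.le
    linarith
  · obtain ⟨h2, h3⟩ := hL1 L h
    have hL : (0 : ℝ) < L := by exact_mod_cast h3
    rw [lt_div_iff₀ hL] at h2
    have h4 : Chebyshev.theta L ≤ Chebyshev.psi L := Chebyshev.theta_le_psi _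
    have e : Real.log (QQ L : ℝ) = Chebyshev.psi L := (Chebyshev.psi_eq_log_lcmUpto L).symm
    have h5 : Real.log (QQ L : ℝ) ≤ Real.log (LW M L : ℝ) := by
      apply Real.log_le_log
      · exact_mod_cast QQ_pos0 L
      · exact_mod_cast Nat.le_of_dvd (LW_pos M L) (QQ_dvd_LW M L)
    have h6 : (0 : ℝ) ≤ L1 := Nat.cast_nonneg _
    linarith

end Pool.Agent.Lib.MP_de5eaa_nt.Near
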