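import Pool.Agent.Lib.MP_de5eaa_nt.Near.Q5

/-! The second moment over the primes, for the orders in a window: the theorem. -/

set_option autoImplicit false

namespace Pool.Agent.Lib.MP_de5eaa_nt.Near

open Finset Filter Topology
open Pool.Agent.Lib.MP_de5eaa_nt.Poi (UU QQ)

/-- a power of `x` smaller than `x`, times the logarithm -/
theorem rpow_log_le {δ : ℝ} (hδ : 0 < δ) : ∀ᶠ x : ℕ in atTop, ((x : ℝ) ^ (1 - δ) + 1) * (3 * Real.log x) ≤ ppi x := by
  have h1 : ∀ᶠ x : ℕ in atTop, (1 / 2 : ℝ) < (ppi x : ℝ) * Real.log x / (x : ℝ) :=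
    ppi_tendsto.eventually (lt_mem_nhds (by norm_num))
  have h2 : ∀ᶠ x : ℕ in atTop, ‖Real.log (x : ℝ)‖ ≤ 1 / 4 * ‖(x : ℝ) ^ (δ / 2)‖ :=
    (tendsto_natCast_atTop_atTop (R := ℝ)).eventually
      ((isLittleO_log_rpow_atTop (r := δ / 2) (by positivity)).bound (by norm_num))
  filter_upwards [h1, h2, log_pow_le (K := 12) (by norm_num) 2, eventually_ge_atTop 2] with x h3 h4 h6 h5
  have hx2 : (2 : ℝ) ≤ x := by exact_mod_cast h5
  have hx0 : (0 : ℝ) < x := by linarith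
  have hlog : 0 < Real.log x := Real.log_pos (by linarith)
  rw [lt_div_iff₀ hx0] at h3
  rw [Real.norm_eq_abs, abs_of_pos hlog, Real.norm_eq_abs, abs_of_pos (Real.rpow_pos_of_pos hx0 _)] at h4
  set y := (x : ℝ) ^ (1 - δ) with hy
  set z := (x : ℝ) ^ (δ / 2) with hz
  have hy0 : 0 < y := Real.rpow_pos_of_pos hx0 _
  have hz0 : 0 < z := Real.rpow_pos_of_pos hx0 _
  have hyz : y * (z * z) = x := by
    rw [hy, hz, ← Real.rpow_add hx0, ← Real.rpow_add hx0]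
    have : 1 - δ + (δ / 2 + δ / 2) = 1 := by ring
    rw [this, Real.rpow_one]
  have h8 : Real.log x ^ 2 ≤ (1 / 4 * z) ^ 2 := pow_le_pow_left₀ hlog.le h4 2
  have h9 : y * Real.log x ^ 2 ≤ x / 16 := by
    have h10 := mul_le_mul_of_nonneg_left h8 hy0.le
    have h11 : y * (1 / 4 * z) ^ 2 = x / 16 := by
      rw [← hyz]
      ring
    linarith
  have h12 : Real.sqrt x ≤ x := by
    rw [Real.sqrt_le_left hx0.le]
    nlinarith
  have h7 : (y + 1) * (3 * Real.log x) * Real.log x ≤ ppi x * Real.log x := by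
    have h13 : (y + 1) * (3 * Real.log x) * Real.log x = 3 * (y * Real.log x ^ 2) + 3 * Real.log x ^ 2 := by ring
    rw [h13]
    linarith
  exact le_of_mul_le_mul_right h7 hlog

theorem mom_w {δ : ℝ} (hδ : 0 < δ) (hδ1 : δ ≤ 1 / 2) : ∃ C : ℝ, 0 < C ∧ ∃ x0 : ℕ, ∀ x M L : ℕ, x0 ≤ x →
    (LW M L : ℝ) ≤ (x : ℝ) ^ (1 - δ) → ∀ (j : ℤ) (t : ℕ), ¬ (2 : ℤ) ^ (t + 1) ∣ j →
    (j : ℝ) ^ 2 ≤ 10 ^ 6 * Real.log x ^ 3 → ∀ c : ℕ → ℂ,
    ∑ p ∈ pr x, ‖∑ n ∈ Ioc M (M + L), c n * e1 ((j : ℝ) * yy p n)‖ ^ 2 ≤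
      C * 2 ^ t * ppi x * ∑ n ∈ Ioc M (M + L), ‖c n‖ ^ 2 := by
  obtain ⟨C1, hC1, x1, hbt⟩ := Pool.Agent.Lib.MP_de5eaa_nt.Poi.bt_mean hδ
  obtain ⟨K0, hK0, hLlog0⟩ := L_le_log_LW
  have hpi : 0 < 8 * Real.pi ^ 2 * 10 ^ 6 * 27 := by positivity
  obtain ⟨x2, hx2⟩ := eventually_atTop.1 (((log_pow_le hpi 6).and (rpow_log_le hδ)).and
    (((Real.tendsto_log_atTop.comp (tendsto_natCast_atTop_atTop (R := ℝ))).eventually_ge_atTop
      K0).and (eventually_ge_atTop (max x1 2))))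
  refine ⟨16 * C1 + 2, by positivity, x2, fun x M L hx hQx j t hj hj2 c => ?_⟩
  obtain ⟨⟨hx6, hsq⟩, hxK, hxx⟩ := hx2 x hx
  have hxx1 : x1 ≤ x := (le_max_left _ _).trans hxx
  have hxx2 : 2 ≤ x := (le_max_right _ _).trans hxx
  have hx2r : (2 : ℝ) ≤ x := by exact_mod_cast hxx2
  have hx0 : (0 : ℝ) < x := by linarith
  have hlog : 0 < Real.log x := Real.log_pos (by linarith)
  have hxK' : K0 ≤ Real.log x := hxK
  have hQ : 0 < LW M L := LW_pos M L
  have hQr : (0 : ℝ) < LW M L := by exact_mod_cast hQ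
  have hφ : (0 : ℝ) < ((LW M L).totient : ℝ) := by exact_mod_cast Nat.totient_pos.2 hQ
  have hLlog : (L : ℝ) ≤ 3 * Real.log x := by
    have h1 := hLlog0 M L
    have h2 : Real.log (LW M L : ℝ) ≤ (1 - δ) * Real.log x := by
      rw [← Real.log_rpow hx0]
      exact Real.log_le_log hQr hQx
    nlinarith
  rcases Nat.eq_zero_or_pos L with hL0 | hL1
  · subst hL0
    simp
  have hML : ((M + L : ℕ) : ℝ) ≤ (x : ℝ) ^ (1 - δ) := le_trans (by exact_mod_cast le_LW hL1) hQx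
  have hsx : Real.sqrt x ≤ (x : ℝ) ^ (1 - δ) := by
    rw [Real.sqrt_eq_rpow]
    exact Real.rpow_le_rpow_of_exponent_le (by linarith) (by linarith)
  set Sc := ∑ n ∈ Ioc M (M + L), ‖c n‖ ^ 2 with hSc
  have hSc0 : 0 ≤ Sc := Finset.sum_nonneg fun n _ => sq_nonneg _
  have hmean := hbt x (LW M L) hxx1 hQ hQx
    (fun u => ‖∑ n ∈ Ioc M (M + L), c n * e1 ((j : ℝ) * ZW M u n)‖ ^ 2) (fun u _ => sq_nonneg _)
  have havg := avg_w M L hj c
  rw [← hSc] at havg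
  set T : ℕ → ℝ := fun p => ‖∑ n ∈ Ioc M (M + L), c n * e1 ((j : ℝ) * yy p n)‖ ^ 2 with hT
  set A : ℕ → ℝ := fun p => ∑ u ∈ (UU (LW M L)).filter (fun u => u * p ≡ 1 [MOD LW M L]),
    ‖∑ n ∈ Ioc M (M + L), c n * e1 ((j : ℝ) * ZW M u n)‖ ^ 2 with hA
  have hA0 : ∀ p, 0 ≤ A p := fun p => Finset.sum_nonneg fun u _ => sq_nonneg _
  set s : ℕ := ⌊(x : ℝ) ^ (1 - δ)⌋₊ with hs
  have hterm : ∀ p ∈ pr x, T p ≤ (if p < s + 1 then 3 * Real.log x * Sc else 0) + (2 * A p + Sc) := by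
    intro p hp
    unfold pr at hp
    rw [mem_filter, mem_range] at hp
    by_cases hps : p < s + 1
    · rw [if_pos hps]
      have h1 : T p ≤ (∑ n ∈ Ioc M (M + L), ‖c n‖) ^ 2 := by
        rw [hT]
        dsimp only
        refine pow_le_pow_left₀ (norm_nonneg _) ?_ 2
        refine (norm_sum_le _ _).trans (le_of_eq (Finset.sum_congr rfl fun n _ => ?_))
        rw [norm_mul, norm_e1, mul_one]
      have h2 : (∑ n ∈ Ioc M (M + L), ‖c n‖) ^ 2 ≤ L * Sc := by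
        have h3 := sq_sum_le_card_mul_sum_sq (s := Ioc M (M + L)) (f := fun n => ‖c n‖)
        rw [Nat.card_Ioc, Nat.add_sub_cancel_left] at h3
        exact h3
      have h3 : (L : ℝ) * Sc ≤ 3 * Real.log x * Sc := mul_le_mul_of_nonneg_right hLlog hSc0
      have h4 := hA0 p
      linarith
    · rw [if_neg hps, zero_add]
      push Not at hps
      have hp1 : s < p := hps
      have hp2 : (x : ℝ) ^ (1 - δ) < p := (Nat.floor_lt (Real.rpow_nonneg hx0.le _)).1 hp1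
      have hp0 : (0 : ℝ) < p := by exact_mod_cast hp.2.pos
      have hpx : (x : ℝ) ≤ (p : ℝ) ^ 2 := by
        have h1 : Real.sqrt x < p := lt_of_le_of_lt hsx hp2
        have h2 := (Real.sqrt_lt' hp0).1 h1
        exact h2.le
      have hLp : M + L < p := by
        have : ((M + L : ℕ) : ℝ) < p := lt_of_le_of_lt hML hp2
        exact_mod_cast this
      have hcop : p.Coprime (LW M L) := by
        rw [Nat.Prime.coprime_iff_not_dvd hp.2]
        intro h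
        have h1 := (Nat.Prime.dvd_factorial hp.2).1 (h.trans (LW_dvd_fac M L))
        omega
      obtain ⟨u, hu, hup⟩ := inv0 hQ hcop
      have h1 := prime_term_w hp.2 hLp hup j c
      rw [← hSc] at h1
      have h2 : ‖∑ n ∈ Ioc M (M + L), c n * e1 ((j : ℝ) * ZW M u n)‖ ^ 2 ≤ A p := by
        rw [hA]
        exact Finset.single_le_sum (f := fun u => ‖∑ n ∈ Ioc M (M + L), c n * e1 ((j : ℝ) * ZW M u n)‖ ^ 2)
          (fun u _ => sq_nonneg _) (mem_filter.2 ⟨hu, hup⟩)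
      have h3 : 2 * (2 * Real.pi * |(j : ℝ)| * L / p) ^ 2 * L ≤ 1 := by
        have e1 : 2 * (2 * Real.pi * |(j : ℝ)| * L / p) ^ 2 * L =
            8 * Real.pi ^ 2 * ((j : ℝ) ^ 2 * (L : ℝ) ^ 3) / (p : ℝ) ^ 2 := by
          rw [div_pow, mul_pow, mul_pow, mul_pow, sq_abs]
          ring
        rw [e1, div_le_one (by positivity)]
        have h4 : (j : ℝ) ^ 2 * (L : ℝ) ^ 3 ≤ (10 ^ 6 * Real.log x ^ 3) * (3 * Real.log x) ^ 3 :=
          mul_le_mul hj2 (pow_le_pow_left₀ (Nat.cast_nonneg _) hLlog 3) (by positivity) (by positivity)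
        have h5 : 8 * Real.pi ^ 2 * ((j : ℝ) ^ 2 * (L : ℝ) ^ 3) ≤ Real.sqrt x := by
          have h6 := mul_le_mul_of_nonneg_left h4 (show 0 ≤ 8 * Real.pi ^ 2 by positivity)
          have h7 : 8 * Real.pi ^ 2 * ((10 ^ 6 * Real.log x ^ 3) * (3 * Real.log x) ^ 3) =
              8 * Real.pi ^ 2 * 10 ^ 6 * 27 * Real.log x ^ 6 := by ring
          linarith
        have h6 : Real.sqrt x ≤ x := by
          rw [Real.sqrt_le_left hx0.le]
          nlinarith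
        linarith
      have h4 : 2 * (2 * Real.pi * |(j : ℝ)| * L / p) ^ 2 * L * Sc ≤ 1 * Sc := mul_le_mul_of_nonneg_right h3 hSc0
      linarith
  refine (Finset.sum_le_sum hterm).trans ?_
  rw [Finset.sum_add_distrib, Finset.sum_add_distrib, ← Finset.mul_sum, Finset.sum_const, nsmul_eq_mul, pr_card]
  have hs1 : ∑ p ∈ pr x, (if p < s + 1 then 3 * Real.log x * Sc else 0) ≤ ppi x * Sc := by
    rw [← Finset.sum_filter, Finset.sum_const, nsmul_eq_mul]
    have h1 : (((pr x).filter fun p => p < s + 1).card : ℝ) ≤ (x : ℝ) ^ (1 - δ) + 1 := by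
      have h2 : ((pr x).filter fun p => p < s + 1) ⊆ range (s + 1) := by
        intro p hp
        rw [mem_filter] at hp
        exact mem_range.2 hp.2
      have h3 := Finset.card_le_card h2
      rw [card_range] at h3
      have h4 : (s : ℝ) ≤ (x : ℝ) ^ (1 - δ) := Nat.floor_le (Real.rpow_nonneg hx0.le _)
      have h5 : (((pr x).filter fun p => p < s + 1).card : ℝ) ≤ (s : ℝ) + 1 := by exact_mod_cast h3
      linarith
    calc (((pr x).filter fun p => p < s + 1).card : ℝ) * (3 * Real.log x * Sc)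
        ≤ ((x : ℝ) ^ (1 - δ) + 1) * (3 * Real.log x * Sc) := mul_le_mul_of_nonneg_right h1 (by positivity)
      _ = (((x : ℝ) ^ (1 - δ) + 1) * (3 * Real.log x)) * Sc := by ring
      _ ≤ ppi x * Sc := mul_le_mul_of_nonneg_right hsq hSc0
  have hs2 : ∑ p ∈ pr x, A p ≤ C1 * ppi x * (8 * 2 ^ t) * Sc := by
    have h1 : ∑ p ∈ pr x, A p ≤ C1 * ppi x / ((LW M L).totient : ℝ) *
        ∑ u ∈ UU (LW M L), ‖∑ n ∈ Ioc M (M + L), c n * e1 ((j : ℝ) * ZW M u n)‖ ^ 2 := hmean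
    refine h1.trans ?_
    have h2 := mul_le_mul_of_nonneg_left havg (show 0 ≤ C1 * ppi x / ((LW M L).totient : ℝ) by positivity)
    refine h2.trans (le_of_eq ?_)
    field_simp
  have ht1 : (1 : ℝ) ≤ 2 ^ t := one_le_pow₀ (by norm_num)
  have hpp : 0 ≤ (ppi x : ℝ) * Sc := by positivity
  have h5 : (ppi x : ℝ) * Sc ≤ 2 ^ t * (ppi x * Sc) := by nlinarith
  have e5 : (16 * C1 + 2) * 2 ^ t * ppi x * Sc = 2 * (C1 * ppi x * (8 * 2 ^ t) * Sc) + 2 * (2 ^ t * (ppi x * Sc)) := by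
    ring
  rw [e5]
  linarith

end Pool.Agent.Lib.MP_de5eaa_nt.Near
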