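import Pool.Agent.Lib.MP_de5eaa_nt.Near.Q6

/-! Duality: the second moment over the orders, for every set of primes. -/

set_option autoImplicit false

namespace Pool.Agent.Lib.MP_de5eaa_nt.Near

open Finset Filter Topology

theorem BS_sp {C : ℝ} (hC : 0 < C) {x : ℕ} (F : Finset ℕ) {j : ℤ} {t : ℕ}
    (h : ∀ c : ℕ → ℂ, ∑ p ∈ pr x, ‖∑ n ∈ F, c n * e1 ((j : ℝ) * yy p n)‖ ^ 2 ≤
      C * 2 ^ t * ppi x * ∑ n ∈ F, ‖c n‖ ^ 2) {S : Finset ℕ} (hS : S ⊆ pr x) :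
    ∑ n ∈ F, ‖BS j n S‖ ^ 2 ≤ (C * ppi x * S.card) * 2 ^ t := by
  classical
  have h1 := duality F (pr x) (fun n p => e1 ((j : ℝ) * yy p n)) h (by positivity)
    (fun p => if p ∈ S then 1 else 0)
  have e1' : ∀ n ∈ F, ‖∑ p ∈ pr x, (if p ∈ S then (1 : ℂ) else 0) * e1 ((j : ℝ) * yy p n)‖ ^ 2 =
      ‖BS j n S‖ ^ 2 := by
    intro n _
    congr 2
    unfold BS
    have h2 : ∀ p ∈ pr x, (if p ∈ S then (1 : ℂ) else 0) * e1 ((j : ℝ) * yy p n) =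
        if p ∈ S then e1 ((j : ℝ) * yy p n) else 0 := by
      intro p _
      split_ifs <;> simp
    rw [Finset.sum_congr rfl h2, ← Finset.sum_filter]
    congr 1
    ext p
    rw [mem_filter]
    exact ⟨fun hp => hp.2, fun hp => ⟨hS hp, hp⟩⟩
  rw [Finset.sum_congr rfl e1'] at h1
  refine h1.trans ?_
  have h2 : ∑ p ∈ pr x, ‖(if p ∈ S then (1 : ℂ) else 0)‖ ^ 2 ≤ (S.card : ℝ) := by
    have h3 : ∀ p ∈ pr x, ‖(if p ∈ S then (1 : ℂ) else 0)‖ ^ 2 = if p ∈ S then (1 : ℝ) else 0 := by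
      intro p _
      split_ifs <;> simp
    rw [Finset.sum_congr rfl h3, ← Finset.sum_filter, Finset.sum_const, nsmul_eq_mul, mul_one]
    have h4 : ((pr x).filter fun p => p ∈ S) ⊆ S := fun p hp => (mem_filter.1 hp).2
    exact_mod_cast Finset.card_le_card h4
  have h3 := mul_le_mul_of_nonneg_left h2 (show 0 ≤ C * 2 ^ t * (ppi x : ℝ) by positivity)
  refine h3.trans (le_of_eq ?_)
  ring

end Pool.Agent.Lib.MP_de5eaa_nt.Near
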