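import Pool.Agent.Lib.MP_de5eaa_nt.Near.Q8

/-! The second moment of the weighted mean of the exponential sums; the second moment over the primes for a set of orders. -/

set_option autoImplicit false

namespace Pool.Agent.Lib.MP_de5eaa_nt.Near

open Finset Filter Topology

/-- the second moment over `F` of the weighted mean of the exponential sums over `S` -/
theorem EE_ab (K : ℕ) (F : Finset ℕ) (Y : ℕ → ℕ → ℝ) {B : ℝ} (hB : 0 ≤ B) {S : Finset ℕ}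
    (h : ∀ j : ℤ, j ≠ 0 → |j| ≤ K → ∑ n ∈ F, ‖∑ p ∈ S, e1 ((j : ℝ) * Y n p)‖ ^ 2 ≤ B * 2 ^ padicValNat 2 j.natAbs) :
    ∑ n ∈ F, EE K S (Y n) ^ 2 ≤ (ww K K * ((harmonic K : ℚ) : ℝ)) *
        (B * ww K K * (((Nat.log 2 K : ℕ) + 1) * ((harmonic K : ℚ) : ℝ))) := by
  set W := ww K K with hW
  have hW0 : 0 ≤ W := ww_nonneg _ _
  set H := ((harmonic K : ℚ) : ℝ) with hH
  have hH0 : 0 ≤ H := by
    rw [hH, ← cc_sum]
    exact Finset.sum_nonneg fun k _ => cc_nonneg _ _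
  set s := (range (2 * K + 1)).erase K with hs
  set g : ℕ → ℝ := fun i => (2 : ℝ) ^ padicValNat 2 i with hg
  have hx : ∀ k ∈ s, ∑ n ∈ F, ‖∑ p ∈ S, e1 ((((k : ℤ) - (K : ℕ) : ℤ) : ℝ) * Y n p)‖ ^ 2 ≤
      B * g (((K : ℕ) : ℤ) - (k : ℤ)).natAbs := by
    intro k hk
    rw [hs, mem_erase, mem_range] at hk
    have hne : ((k : ℤ) - (K : ℕ) : ℤ) ≠ 0 := by
      have := hk.1
      omega
    have hle : |((k : ℤ) - (K : ℕ) : ℤ)| ≤ K := by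
      rw [abs_le]
      omega
    have h2 := h _ hne hle
    have e : ((k : ℤ) - (K : ℕ) : ℤ).natAbs = (((K : ℕ) : ℤ) - (k : ℤ)).natAbs := by omega
    rw [e] at h2
    exact h2
  have h2 : ∑ n ∈ F, EE K S (Y n) ^ 2 ≤
      ∑ n ∈ F, (W * H) * ∑ k ∈ s, (ww K k * cc K k) *
        ‖∑ p ∈ S, e1 ((((k : ℤ) - (K : ℕ) : ℤ) : ℝ) * Y n p)‖ ^ 2 :=
    Finset.sum_le_sum fun n _ => EE_sq' K S (Y n)
  refine h2.trans ?_
  rw [← Finset.mul_sum, Finset.sum_comm]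
  apply mul_le_mul_of_nonneg_left _ (mul_nonneg hW0 hH0)
  have h3 : ∀ k ∈ s, ∑ n ∈ F, (ww K k * cc K k) * ‖∑ p ∈ S, e1 ((((k : ℤ) - (K : ℕ) : ℤ) : ℝ) * Y n p)‖ ^ 2 ≤
      (B * W) * (cc K k * g (((K : ℕ) : ℤ) - (k : ℤ)).natAbs) := by
    intro k hk
    rw [← Finset.mul_sum]
    have h4 := mul_le_mul_of_nonneg_left (hx k hk) (mul_nonneg (ww_nonneg K k) (cc_nonneg K k))
    refine h4.trans ?_
    set G := g (((K : ℕ) : ℤ) - (k : ℤ)).natAbs with hG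
    have hG0 : 0 ≤ G := by
      rw [hG, hg]
      positivity
    have h6 : ww K k * cc K k ≤ W * cc K k := mul_le_mul_of_nonneg_right (ww_le K k) (cc_nonneg K k)
    have h7 := mul_le_mul_of_nonneg_right h6 (show 0 ≤ B * G by positivity)
    refine h7.trans (le_of_eq ?_)
    ring
  refine (Finset.sum_le_sum h3).trans ?_
  rw [← Finset.mul_sum, cc_sum' K g]
  have h4 := two_sum K
  have h5 : ∑ i ∈ range K, g (i + 1) / ((i + 1 : ℕ) : ℝ) ≤ ((Nat.log 2 K : ℕ) + 1) * H := h4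
  have h6 := mul_le_mul_of_nonneg_left h5 (show 0 ≤ B * W by positivity)
  exact h6

theorem mom_A {C : ℝ} {x M L : ℕ} {j : ℤ} {t : ℕ}
    (h : ∀ c : ℕ → ℂ, ∑ p ∈ pr x, ‖∑ n ∈ Ioc M (M + L), c n * e1 ((j : ℝ) * yy p n)‖ ^ 2 ≤
      C * 2 ^ t * ppi x * ∑ n ∈ Ioc M (M + L), ‖c n‖ ^ 2) {A : Finset ℕ} (hA : A ⊆ Ioc M (M + L)) :
    ∑ p ∈ pr x, ‖∑ n ∈ A, e1 ((j : ℝ) * yy p n)‖ ^ 2 ≤ (C * ppi x * A.card) * 2 ^ t := by
  classical
  have h1 := h (fun n => if n ∈ A then 1 else 0)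
  have e : (Ioc M (M + L)).filter (fun n => n ∈ A) = A := by
    ext n
    rw [mem_filter]
    exact ⟨fun hn => hn.2, fun hn => ⟨hA hn, hn⟩⟩
  have e1' : ∀ p ∈ pr x, ‖∑ n ∈ Ioc M (M + L), (if n ∈ A then (1 : ℂ) else 0) * e1 ((j : ℝ) * yy p n)‖ ^ 2 =
      ‖∑ n ∈ A, e1 ((j : ℝ) * yy p n)‖ ^ 2 := by
    intro p _
    congr 2
    have h2 : ∀ n ∈ Ioc M (M + L), (if n ∈ A then (1 : ℂ) else 0) * e1 ((j : ℝ) * yy p n) =
        if n ∈ A then e1 ((j : ℝ) * yy p n) else 0 := by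
      intro n _
      split_ifs <;> simp
    rw [Finset.sum_congr rfl h2, ← Finset.sum_filter, e]
  have e2 : ∑ n ∈ Ioc M (M + L), ‖(if n ∈ A then (1 : ℂ) else 0)‖ ^ 2 = (A.card : ℝ) := by
    have h3 : ∀ n ∈ Ioc M (M + L), ‖(if n ∈ A then (1 : ℂ) else 0)‖ ^ 2 = if n ∈ A then (1 : ℝ) else 0 := by
      intro n _
      split_ifs <;> simp
    rw [Finset.sum_congr rfl h3, ← Finset.sum_filter, e, Finset.sum_const, nsmul_eq_mul, mul_one]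
  rw [Finset.sum_congr rfl e1', e2] at h1
  refine h1.trans (le_of_eq ?_)
  ring

end Pool.Agent.Lib.MP_de5eaa_nt.Near
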